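import Mathlib

/-! A kernel with compactly supported Fourier transform vanishing near `0`. -/

open Complex MeasureTheory Set Filter Topology
open scoped ComplexConjugate

namespace Pool.Agent.H444

/-- the tent function -/
noncomputable def tent (x : ℝ) : ℝ := max 0 (1 - |x|)

lemma tent_nonneg (x : ℝ) : 0 ≤ tent x := le_max_left _ _

lemma tent_le_one (x : ℝ) : tent x ≤ 1 := by
  unfold tent
  exact max_le zero_le_one (by have := abs_nonneg x; linarith)

lemma tent_even (x : ℝ) : tent (-x) = tent x := by
  unfold tent; rw [abs_neg]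

lemma tent_zero {x : ℝ} (h : 1 ≤ |x|) : tent x = 0 := by
  unfold tent; exact max_eq_left (by linarith)

lemma tent_lip (x y : ℝ) : |tent x - tent y| ≤ |x - y| := by
  unfold tent
  have h1 := abs_max_sub_max_le_abs (1 - |x|) (1 - |y|) 0
  rw [max_comm (1 - |x|), max_comm (1 - |y|)] at h1
  refine h1.trans ?_
  have h2 : (1 - |x|) - (1 - |y|) = -(|x| - |y|) := by ring
  rw [h2, abs_neg]
  exact abs_abs_sub_abs_le _ _

lemma tent_cont : Continuous tent := by
  unfold tent; fun_prop

/-- the bump, supported in `1 ≤ |x| ≤ 3` -/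
noncomputable def om (x : ℝ) : ℝ := (tent (x - 2) + tent (x + 2)) / 2

lemma om_nonneg (x : ℝ) : 0 ≤ om x := by
  unfold om
  have := tent_nonneg (x - 2)
  have := tent_nonneg (x + 2)
  positivity

lemma om_even (x : ℝ) : om (-x) = om x := by
  unfold om
  have h1 : tent (-x - 2) = tent (x + 2) := by rw [← tent_even]; congr 1; ring
  have h2 : tent (-x + 2) = tent (x - 2) := by rw [← tent_even]; congr 1; ring
  rw [h1, h2]; ring

lemma om_cont : Continuous om := by
  unfold om
  have h := tent_cont
  exact ((h.comp (continuous_id.sub continuous_const)).add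
    (h.comp (continuous_id.add continuous_const))).div_const _

lemma om_le (x : ℝ) : om x ≤ 1 / 2 := by
  unfold om
  rcases le_total 0 x with h | h
  · have h1 : tent (x + 2) = 0 := tent_zero (by rw [abs_of_nonneg (by linarith)]; linarith)
    have := tent_le_one (x - 2)
    linarith
  · have h1 : tent (x - 2) = 0 := tent_zero (by rw [abs_of_nonpos (by linarith)]; linarith)
    have := tent_le_one (x + 2)
    linarith

lemma om_zero_of_le {x : ℝ} (h : |x| ≤ 1) : om x = 0 := by
  rw [abs_le] at h
  unfold om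
  rw [tent_zero (x := x - 2) (by rw [abs_of_nonpos (by linarith)]; linarith),
    tent_zero (x := x + 2) (by rw [abs_of_nonneg (by linarith)]; linarith)]
  norm_num

lemma om_zero_of_ge {x : ℝ} (h : 3 ≤ |x|) : om x = 0 := by
  unfold om
  rcases le_total 0 x with h' | h'
  · rw [abs_of_nonneg h'] at h
    rw [tent_zero (x := x - 2) (by rw [abs_of_nonneg (by linarith)]; linarith),
      tent_zero (x := x + 2) (by rw [abs_of_nonneg (by linarith)]; linarith)]
    norm_num
  · rw [abs_of_nonpos h'] at h
    rw [tent_zero (x := x - 2) (by rw [abs_of_nonpos (by linarith)]; linarith),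
      tent_zero (x := x + 2) (by rw [abs_of_nonpos (by linarith)]; linarith)]
    norm_num

lemma om_lip (x y : ℝ) : |om x - om y| ≤ |x - y| := by
  unfold om
  have h1 := tent_lip (x - 2) (y - 2)
  have h2 := tent_lip (x + 2) (y + 2)
  have e1 : x - 2 - (y - 2) = x - y := by ring
  have e2 : x + 2 - (y + 2) = x - y := by ring
  rw [e1] at h1
  rw [e2] at h2
  have e3 : (tent (x - 2) + tent (x + 2)) / 2 - (tent (y - 2) + tent (y + 2)) / 2 =
    ((tent (x - 2) - tent (y - 2)) + (tent (x + 2) - tent (y + 2))) / 2 := by ring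
  rw [e3, abs_div, abs_of_pos (by norm_num : (0 : ℝ) < 2)]
  have := abs_add_le (tent (x - 2) - tent (y - 2)) (tent (x + 2) - tent (y + 2))
  linarith

/-- the transform of the tent -/
noncomputable def SS (z : ℂ) : ℂ := ∫ u in (-1 : ℝ)..1, (tent u : ℂ) * cexp (I * u * z)

/-- the kernel -/
noncomputable def kap (z : ℂ) : ℂ := ∫ u in (-3 : ℝ)..3, (om u : ℂ) * cexp (I * u * z)

lemma tc (z : ℂ) : Continuous fun u : ℝ => (tent u : ℂ) * cexp (I * u * z) := by
  have := tent_cont
  fun_prop

lemma oc (z : ℂ) : Continuous fun u : ℝ => (om u : ℂ) * cexp (I * u * z) := by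
  have := om_cont
  fun_prop

lemma SS_split (z : ℂ) : SS z = (∫ u in (-1 : ℝ)..0, (1 + (u : ℂ)) * cexp (I * u * z)) +
    ∫ u in (0 : ℝ)..1, (1 - (u : ℂ)) * cexp (I * u * z) := by
  unfold SS
  rw [← intervalIntegral.integral_add_adjacent_intervals (b := 0)
    ((tc z).intervalIntegrable _ _) ((tc z).intervalIntegrable _ _)]
  congr 1
  · refine intervalIntegral.integral_congr fun u hu => ?_
    rw [Set.uIcc_of_le (by norm_num)] at hu
    have : tent u = 1 + u := by
      unfold tent
      rw [abs_of_nonpos hu.2, max_eq_right] <;> linarith [hu.1]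
    simp only [this]; push_cast; ring
  · refine intervalIntegral.integral_congr fun u hu => ?_
    rw [Set.uIcc_of_le (by norm_num)] at hu
    have : tent u = 1 - u := by
      unfold tent
      rw [abs_of_nonneg hu.1, max_eq_right]; linarith [hu.2]
    simp only [this]; push_cast; ring

lemma SS_eq {z : ℂ} (hz : z ≠ 0) : SS z = (cexp (I * z) + cexp (-(I * z)) - 2) / (I * z) ^ 2 := by
  have hiz : I * z ≠ 0 := mul_ne_zero I_ne_zero hz
  have hd : ∀ u : ℝ, HasDerivAt (fun u : ℝ => cexp (I * u * z)) (I * z * cexp (I * u * z)) u := by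
    intro u
    have h1 : HasDerivAt (fun u : ℝ => I * (u : ℂ) * z) (I * 1 * z) u :=
      ((Complex.ofRealCLM.hasDerivAt (x := u)).const_mul I).mul_const z
    have h2 := h1.cexp
    rw [mul_comm] at h2
    simpa using h2
  have hid : ∀ u : ℝ, HasDerivAt (fun u : ℝ => (u : ℂ)) 1 u := fun u =>
    Complex.ofRealCLM.hasDerivAt
  rw [SS_split]
  have i1 := intervalIntegral.integral_eq_sub_of_hasDerivAt (a := (-1 : ℝ)) (b := 0)
    (f := fun u : ℝ => (1 + (u : ℂ)) * cexp (I * u * z) / (I * z) -
        cexp (I * u * z) / (I * z) ^ 2)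
    (f' := fun u : ℝ => (1 + (u : ℂ)) * cexp (I * u * z))
    (fun u _ => by
      have h1 := ((((hid u).const_add 1).mul (hd u)).div_const (I * z)).sub
        ((hd u).div_const ((I * z) ^ 2))
      refine h1.congr_deriv ?_
      field_simp
      ring)
    ((by fun_prop : Continuous fun u : ℝ => (1 + (u : ℂ)) * cexp (I * u * z)).intervalIntegrable
        _ _)
  have i2 := intervalIntegral.integral_eq_sub_of_hasDerivAt (a := (0 : ℝ)) (b := 1)
    (f := fun u : ℝ => (1 - (u : ℂ)) * cexp (I * u * z) / (I * z) +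
        cexp (I * u * z) / (I * z) ^ 2)
    (f' := fun u : ℝ => (1 - (u : ℂ)) * cexp (I * u * z))
    (fun u _ => by
      have h1 := ((((hid u).const_sub 1).mul (hd u)).div_const (I * z)).add
        ((hd u).div_const ((I * z) ^ 2))
      refine h1.congr_deriv ?_
      field_simp
      ring)
    ((by fun_prop : Continuous fun u : ℝ => (1 - (u : ℂ)) * cexp (I * u * z)).intervalIntegrable
        _ _)
  rw [i1, i2]
  have e1 : I * (((-1 : ℝ)) : ℂ) * z = -(I * z) := by push_cast; ring
  have e2 : I * (((1 : ℝ)) : ℂ) * z = I * z := by push_cast; ring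
  have e3 : I * (((0 : ℝ)) : ℂ) * z = 0 := by push_cast; ring
  simp only [e1, e2, e3, Complex.exp_zero]
  push_cast
  field_simp
  ring

lemma kap_eq (z : ℂ) : kap z = (cexp (2 * I * z) + cexp (-(2 * I * z))) / 2 * SS z := by
  have h1 : ∫ u in (-3 : ℝ)..3, (tent (u - 2) : ℂ) * cexp (I * u * z) = cexp (2 * I * z) * SS z := by
    have c1 : Continuous fun u : ℝ => (tent (u - 2) : ℂ) * cexp (I * u * z) := by
      have := tent_cont
      fun_prop
    rw [← intervalIntegral.integral_add_adjacent_intervals (b := 1)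
      (c1.intervalIntegrable _ _) (c1.intervalIntegrable _ _)]
    have z1 : ∫ u in (-3 : ℝ)..1, (tent (u - 2) : ℂ) * cexp (I * u * z) = 0 := by
      rw [intervalIntegral.integral_congr (g := fun _ => (0 : ℂ))]
      · simp
      · intro u hu
        rw [Set.uIcc_of_le (by norm_num)] at hu
        have : tent (u - 2) = 0 := tent_zero (by rw [abs_of_nonpos (by linarith [hu.2])]; linarith [hu.2])
        simp [this]
    rw [z1, zero_add]
    have h2 := intervalIntegral.integral_comp_sub_right (a := (1 : ℝ)) (b := 3)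
      (fun v : ℝ => (tent v : ℂ) * cexp (I * ((v + 2 : ℝ) : ℂ) * z)) 2
    have e1 : (1 : ℝ) - 2 = -1 := by norm_num
    have e2 : (3 : ℝ) - 2 = 1 := by norm_num
    rw [e1, e2] at h2
    have h3 : ∫ u in (1 : ℝ)..3, (tent (u - 2) : ℂ) * cexp (I * u * z) =
        ∫ u in (1 : ℝ)..3, (fun v : ℝ => (tent v : ℂ) * cexp (I * ((v + 2 : ℝ) : ℂ) * z)) (u - 2) := by
      refine intervalIntegral.integral_congr fun u _ => ?_
      simp
    rw [h3, h2]
    unfold SS
    rw [← intervalIntegral.integral_const_mul]
    refine intervalIntegral.integral_congr fun u _ => ?_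
    show (tent u : ℂ) * cexp (I * ((u + 2 : ℝ) : ℂ) * z) =
      cexp (2 * I * z) * ((tent u : ℂ) * cexp (I * u * z))
    have : I * ((u + 2 : ℝ) : ℂ) * z = 2 * I * z + I * u * z := by push_cast; ring
    rw [this, Complex.exp_add]; ring
  have h1' : ∫ u in (-3 : ℝ)..3, (tent (u + 2) : ℂ) * cexp (I * u * z) =
      cexp (-(2 * I * z)) * SS z := by
    have c1 : Continuous fun u : ℝ => (tent (u + 2) : ℂ) * cexp (I * u * z) := by
      have := tent_cont
      fun_prop
    rw [← intervalIntegral.integral_add_adjacent_intervals (b := -1)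
      (c1.intervalIntegrable _ _) (c1.intervalIntegrable _ _)]
    have z1 : ∫ u in (-1 : ℝ)..3, (tent (u + 2) : ℂ) * cexp (I * u * z) = 0 := by
      rw [intervalIntegral.integral_congr (g := fun _ => (0 : ℂ))]
      · simp
      · intro u hu
        rw [Set.uIcc_of_le (by norm_num)] at hu
        have : tent (u + 2) = 0 := tent_zero (by rw [abs_of_nonneg (by linarith [hu.1])]; linarith [hu.1])
        simp [this]
    rw [z1, add_zero]
    have h2 := intervalIntegral.integral_comp_add_right (a := (-3 : ℝ)) (b := -1)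
      (fun v : ℝ => (tent v : ℂ) * cexp (I * ((v - 2 : ℝ) : ℂ) * z)) 2
    have e1 : (-3 : ℝ) + 2 = -1 := by norm_num
    have e2 : (-1 : ℝ) + 2 = 1 := by norm_num
    rw [e1, e2] at h2
    have h3 : ∫ u in (-3 : ℝ)..(-1), (tent (u + 2) : ℂ) * cexp (I * u * z) =
        ∫ u in (-3 : ℝ)..(-1), (fun v : ℝ => (tent v : ℂ) * cexp (I * ((v - 2 : ℝ) : ℂ) * z)) (u + 2) := by
      refine intervalIntegral.integral_congr fun u _ => ?_
      simp
    rw [h3, h2]
    unfold SS
    rw [← intervalIntegral.integral_const_mul]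
    refine intervalIntegral.integral_congr fun u _ => ?_
    show (tent u : ℂ) * cexp (I * ((u - 2 : ℝ) : ℂ) * z) =
      cexp (-(2 * I * z)) * ((tent u : ℂ) * cexp (I * u * z))
    have : I * ((u - 2 : ℝ) : ℂ) * z = -(2 * I * z) + I * u * z := by push_cast; ring
    rw [this, Complex.exp_add]; ring
  have h4 : kap z = ((∫ u in (-3 : ℝ)..3, (tent (u - 2) : ℂ) * cexp (I * u * z)) +
      ∫ u in (-3 : ℝ)..3, (tent (u + 2) : ℂ) * cexp (I * u * z)) / 2 := by
    unfold kap
    rw [← intervalIntegral.integral_add, ← intervalIntegral.integral_div]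
    · refine intervalIntegral.integral_congr fun u _ => ?_
      unfold om
      push_cast
      ring
    · have := tent_cont
      exact Continuous.intervalIntegrable (by fun_prop) _ _
    · have := tent_cont
      exact Continuous.intervalIntegrable (by fun_prop) _ _
  rw [h4, h1, h1']
  ring

end Pool.Agent.H444
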