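import Pool.Graph.R_seed8.Y24.E3
import Pool.Graph.R_seed8.H370R2.DirGood
import Pool.Graph.R_seed8.H370R2.PC1

/-! The density of the zeros of zeta near the critical line, in intervals of length `T / log T`. -/

open Complex Filter Topology Set MeasureTheory
open scoped BigOperators ComplexConjugate

namespace Pool.Agent.H444

open H370

/-- zeros to the right of the line -/
theorem dens_right : ∃ C : ℝ, 0 < C ∧ ∃ T0 : ℝ, 100 ≤ T0 ∧ ∀ T : ℝ, T0 ≤ T → ∀ H : ℝ,
    T / Real.log T ≤ H → H ≤ T / 2 → ∀ t0 : ℝ, T ≤ t0 → t0 ≤ 2 * T → ∀ k : ℕ,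
    ∑ s ∈ (Zf riemannZeta t0 (t0 + H)).filter
      (fun s => 1 / 2 + ((k + 1 : ℕ) : ℝ) / Real.log T ≤ s.re), (mult riemannZeta s : ℝ) ≤
      C * (H * Real.log T) * Real.exp (-(k : ℝ)) := by
  obtain ⟨C, hC, hW⟩ := Pool.Agent.Y24.window (q0 := 3 / 4) (by norm_num) (by norm_num)
  obtain ⟨T1, hT1⟩ := eventually_atTop.mp hW
  refine ⟨15 * C, by positivity, max T1 100, le_max_right _ _, fun T hT H hH1 hH2 t0 ht1 ht2 k => ?_⟩
  have hTT1 : T1 ≤ T := (le_max_left _ _).trans hT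
  have hT100 : 100 ≤ T := (le_max_right _ _).trans hT
  have hTpos : 0 < T := by linarith
  set L := Real.log T with hL
  have hL1 : 1 ≤ L := by
    rw [hL, Real.le_log_iff_exp_le hTpos]
    have := Real.exp_one_lt_d9
    linarith
  have hL0 : 0 < L := by linarith
  have hHpos : 0 < H := lt_of_lt_of_le (by positivity) hH1
  set A := (Zf riemannZeta t0 (t0 + H)).filter
      (fun s => 1 / 2 + ((k + 1 : ℕ) : ℝ) / L ≤ s.re) with hA
  have hU : 1 ≤ t0 := by linarith
  have hmemA : ∀ s ∈ A, 0 < s.re ∧ s.re < 1 ∧ t0 < s.im ∧ s.im ≤ t0 + H ∧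
      1 / 2 + ((k + 1 : ℕ) : ℝ) / L ≤ s.re := by
    intro s hs
    rw [hA, Finset.mem_filter, mem_Zf good_zeta hU] at hs
    exact ⟨hs.1.1, hs.1.2.1, hs.1.2.2.1, hs.1.2.2.2.1, hs.2⟩
  rcases A.eq_empty_or_nonempty with hAe | ⟨s0, hs0⟩
  · rw [hAe, Finset.sum_empty]; positivity
  have hσ1 : 1 / 2 + (k : ℝ) / L ≤ 1 := by
    obtain ⟨_, h2, _, _, h5⟩ := hmemA s0 hs0
    have : (k : ℝ) / L ≤ ((k + 1 : ℕ) : ℝ) / L := by
      gcongr
      exact Nat.le_succ k
    linarith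
  -- the windows
  set Δ : ℝ := T / (4 * L) with hΔ
  have hΔ0 : 0 < Δ := by positivity
  set m : ℕ := ⌈H / Δ⌉₊ with hm
  have hmle : (m : ℝ) ≤ 5 * (H * L) / T := by
    have h1 : (m : ℝ) < H / Δ + 1 := Nat.ceil_lt_add_one (by positivity)
    have h2 : H / Δ = 4 * (H * L) / T := by rw [hΔ]; field_simp
    have h3 : 1 ≤ H * L / T := by
      rw [le_div_iff₀ hTpos]
      rw [div_le_iff₀ hL0] at hH1
      linarith
    rw [h2] at h1
    have h4 : 5 * (H * L) / T = 4 * (H * L) / T + H * L / T := by ring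
    linarith
  have hcover : ∀ s ∈ A, ∃ i ∈ Finset.range m, |s.im - (t0 + (i + 1 : ℝ) * Δ)| ≤ Δ := by
    intro s hs
    obtain ⟨_, _, h3, h4, _⟩ := hmemA s hs
    set x := (s.im - t0) / Δ with hx
    have hx0 : 0 < x := by rw [hx]; apply div_pos <;> linarith
    have hxH : x ≤ H / Δ := by rw [hx]; gcongr; linarith
    refine ⟨⌈x⌉₊ - 1, ?_, ?_⟩
    · rw [Finset.mem_range]
      have h5 : ⌈x⌉₊ ≤ m := Nat.ceil_mono hxH
      have h6 : 0 < ⌈x⌉₊ := Nat.ceil_pos.mpr hx0
      omega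
    · have h6 : 0 < ⌈x⌉₊ := Nat.ceil_pos.mpr hx0
      have h7 : ((⌈x⌉₊ - 1 : ℕ) : ℝ) + 1 = ⌈x⌉₊ := by
        have : ⌈x⌉₊ - 1 + 1 = ⌈x⌉₊ := by omega
        exact_mod_cast this
      rw [h7]
      have h8 : x ≤ ⌈x⌉₊ := Nat.le_ceil x
      have h9 : (⌈x⌉₊ : ℝ) < x + 1 := Nat.ceil_lt_add_one hx0.le
      have h10 : s.im = t0 + x * Δ := by rw [hx]; field_simp; ring
      rw [h10]
      have h11 : t0 + x * Δ - (t0 + (⌈x⌉₊ : ℝ) * Δ) = -((⌈x⌉₊ - x) * Δ) := by ring
      rw [h11, abs_neg, abs_of_nonneg (mul_nonneg (by linarith) hΔ0.le)]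
      nlinarith
  have hone : ∀ i ∈ Finset.range m, ∑ s ∈ A.filter (fun s => |s.im - (t0 + (i + 1 : ℝ) * Δ)| ≤ Δ),
      (mult riemannZeta s : ℝ) ≤ 3 * C * T * Real.exp (-(k : ℝ)) := by
    intro i hi
    rw [Finset.mem_range] at hi
    set c := t0 + (i + 1 : ℝ) * Δ with hc
    have hcT : T ≤ c := by
      have : 0 ≤ (i + 1 : ℝ) * Δ := by positivity
      linarith
    have hc3 : c ≤ 3 * T := by
      have h1 : ((i + 1 : ℕ) : ℝ) ≤ m := by exact_mod_cast hi
      push_cast at h1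
      have h2 : (m : ℝ) < H / Δ + 1 := Nat.ceil_lt_add_one (by positivity)
      have h3 : (i + 1 : ℝ) * Δ ≤ (H / Δ + 1) * Δ := by gcongr; linarith
      have h4 : (H / Δ + 1) * Δ = H + Δ := by field_simp
      have h5 : Δ ≤ T / 4 := by
        rw [hΔ]
        exact div_le_div_of_nonneg_left hTpos.le (by norm_num) (by linarith)
      linarith
    have hcpos : 0 < c := by linarith
    have hLc : L ≤ Real.log c := Real.log_le_log hTpos hcT
    have hlc : 0 < Real.log c := hL0.trans_le hLc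
    have hwin : Δ ≤ c / (4 * Real.log c) := by
      rw [hΔ, div_le_div_iff₀ (by positivity) (by positivity)]
      have h1 : Real.log c / c ≤ Real.log T / T := by
        refine Real.log_div_self_antitoneOn ?_ ?_ hcT
        · show Real.exp 1 ≤ T
          have := Real.exp_one_lt_d9
          linarith
        · show Real.exp 1 ≤ c
          have := Real.exp_one_lt_d9
          linarith
      rw [div_le_div_iff₀ hcpos hTpos] at h1
      rw [← hL] at h1
      nlinarith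
    have h := hT1 c (hTT1.trans hcT) (1 / 2 + (k : ℝ) / L) (by
        have : 0 ≤ (k : ℝ) / L := by positivity
        linarith) hσ1 (A.filter (fun s => |s.im - c| ≤ Δ)) (by
      intro s hs
      rw [Finset.mem_filter] at hs
      obtain ⟨_, h2, _, _, h5⟩ := hmemA s hs.1
      refine ⟨?_, h2.le, hs.2.trans hwin⟩
      have h6 : 1 / Real.log c ≤ 1 / L := one_div_le_one_div_of_le hL0 hLc
      have h7 : ((k + 1 : ℕ) : ℝ) / L = (k : ℝ) / L + 1 / L := by push_cast; ring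
      rw [h7] at h5
      linarith)
    have hm' : ∀ s, (mult riemannZeta s : ℝ) = (analyticOrderNatAt riemannZeta s : ℝ) := fun s => rfl
    simp_rw [hm']
    refine h.trans ?_
    have h8 : Real.exp (-(4 / 3 * (3 / 4) * (1 / 2 + (k : ℝ) / L - 1 / 2) * Real.log c)) ≤
        Real.exp (-(k : ℝ)) := by
      apply Real.exp_le_exp.mpr
      have h9 : (k : ℝ) / L * L = k := by field_simp
      have h10 : (k : ℝ) / L * L ≤ (k : ℝ) / L * Real.log c := by gcongr
      nlinarith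
    calc C * c * Real.exp (-(4 / 3 * (3 / 4) * (1 / 2 + (k : ℝ) / L - 1 / 2) * Real.log c)) ≤
        C * (3 * T) * Real.exp (-(k : ℝ)) := by gcongr
      _ = _ := by ring
  calc ∑ s ∈ A, (mult riemannZeta s : ℝ) ≤
      ∑ s ∈ A, ∑ i ∈ Finset.range m, (if |s.im - (t0 + (i + 1 : ℝ) * Δ)| ≤ Δ then
        (mult riemannZeta s : ℝ) else 0) := by
        refine Finset.sum_le_sum fun s hs => ?_
        obtain ⟨i, hi, h1⟩ := hcover s hs
        have h2 := Finset.single_le_sum (f := fun i : ℕ => (if |s.im - (t0 + (i + 1 : ℝ) * Δ)| ≤ Δ then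
          (mult riemannZeta s : ℝ) else 0)) (fun j _ => by positivity) hi
        simp only [h1, if_true] at h2
        exact h2
    _ = ∑ i ∈ Finset.range m, ∑ s ∈ A.filter (fun s => |s.im - (t0 + (i + 1 : ℝ) * Δ)| ≤ Δ),
        (mult riemannZeta s : ℝ) := by
        rw [Finset.sum_comm]
        refine Finset.sum_congr rfl fun i _ => ?_
        exact (Finset.sum_filter _ _).symm
    _ ≤ ∑ i ∈ Finset.range m, 3 * C * T * Real.exp (-(k : ℝ)) := Finset.sum_le_sum hone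
    _ = m * (3 * C * T * Real.exp (-(k : ℝ))) := by
        rw [Finset.sum_const, Finset.card_range, nsmul_eq_mul]
    _ ≤ (5 * (H * L) / T) * (3 * C * T * Real.exp (-(k : ℝ))) := by gcongr
    _ = _ := by field_simp; ring

lemma layer {x : ℝ} (hx : 0 ≤ x) {N : ℕ} (hN : x < N) {q : ℝ} (hq : q ≤ 1 / 2) :
    x ^ 2 * Real.exp (q * x) ≤ 2 + ∑ k ∈ Finset.range N, (if ((k + 1 : ℕ) : ℝ) ≤ x then
      ((k : ℝ) + 2) ^ 2 * Real.exp (((k : ℝ) + 2) / 2) else 0) := by
  have hnn : 0 ≤ ∑ k ∈ Finset.range N, (if ((k + 1 : ℕ) : ℝ) ≤ x then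
      ((k : ℝ) + 2) ^ 2 * Real.exp (((k : ℝ) + 2) / 2) else 0) :=
    Finset.sum_nonneg fun k _ => by positivity
  rcases lt_or_ge x 1 with h | h
  · have h1 : Real.exp (q * x) ≤ Real.exp (1 / 2) := by
      apply Real.exp_le_exp.mpr; nlinarith
    have h2 : Real.exp (1 / 2) ≤ 2 := by
      have h4 := Real.exp_one_lt_d9
      have h5 : Real.exp (1 / 2) ^ 2 = Real.exp 1 := by rw [← Real.exp_nat_mul]; norm_num
      nlinarith [Real.exp_pos (1 / 2 : ℝ)]
    have h3 : x ^ 2 ≤ 1 := by nlinarith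
    have : x ^ 2 * Real.exp (q * x) ≤ 1 * 2 := by
      refine mul_le_mul h3 (h1.trans h2) (Real.exp_pos _).le zero_le_one
    linarith
  · have h0 : 1 ≤ ⌊x⌋₊ := Nat.le_floor (by exact_mod_cast h)
    obtain ⟨k, hk⟩ : ∃ k, ⌊x⌋₊ = k + 1 := ⟨⌊x⌋₊ - 1, by omega⟩
    have h1 : ((k + 1 : ℕ) : ℝ) ≤ x := by rw [← hk]; exact Nat.floor_le hx
    have h2 : x < (k : ℝ) + 2 := by
      have := Nat.lt_floor_add_one x
      rw [hk] at this
      push_cast at this
      linarith
    have hkN : k ∈ Finset.range N := by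
      rw [Finset.mem_range]
      have : ((k + 1 : ℕ) : ℝ) < N := lt_of_le_of_lt h1 hN
      have : k + 1 < N := by exact_mod_cast this
      omega
    have h3 := Finset.single_le_sum (f := fun k : ℕ => (if ((k + 1 : ℕ) : ℝ) ≤ x then
      ((k : ℝ) + 2) ^ 2 * Real.exp (((k : ℝ) + 2) / 2) else 0)) (fun j _ => by positivity) hkN
    simp only [h1, if_true] at h3
    have h4 : Real.exp (q * x) ≤ Real.exp (((k : ℝ) + 2) / 2) := by
      apply Real.exp_le_exp.mpr
      nlinarith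
    have h5 : x ^ 2 * Real.exp (q * x) ≤ ((k : ℝ) + 2) ^ 2 * Real.exp (((k : ℝ) + 2) / 2) := by
      have : x ^ 2 ≤ ((k : ℝ) + 2) ^ 2 := by gcongr
      exact mul_le_mul this h4 (Real.exp_pos _).le (by positivity)
    linarith

/-- the sum over the zeros -/
theorem dens_sum : ∃ C : ℝ, 0 < C ∧ ∃ T0 : ℝ, 100 ≤ T0 ∧ ∀ T : ℝ, T0 ≤ T → ∀ H : ℝ,
    T / Real.log T ≤ H → H ≤ T / 2 → ∀ t0 : ℝ, T ≤ t0 → t0 ≤ 2 * T → ∀ q : ℝ, 0 ≤ q → q ≤ 1 / 2 →
    (NN riemannZeta t0 (t0 + H) : ℝ) ≤ H * Real.log T →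
    ∑ s ∈ Zf riemannZeta t0 (t0 + H), (mult riemannZeta s : ℝ) *
      ((Real.log T * |s.re - 1 / 2|) ^ 2 * Real.exp (q * (Real.log T * |s.re - 1 / 2|))) ≤
      C * (H * Real.log T) := by
  obtain ⟨C, hC, T0, hT0, hD⟩ := dens_right
  set q0 : ℝ := Real.exp (-(1 / 2)) with hq0
  have hq01 : q0 < 1 := by rw [hq0, Real.exp_lt_one_iff]; norm_num
  have hq00 : 0 < q0 := Real.exp_pos _
  have hsum : Summable (fun n : ℕ => (n : ℝ) ^ 2 * q0 ^ n) :=
    summable_pow_mul_geometric_of_norm_lt_one 2 (by rwa [Real.norm_eq_abs, abs_of_pos hq00])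
  set S : ℝ := ∑' n : ℕ, (n : ℝ) ^ 2 * q0 ^ n with hS
  have hS0 : 0 ≤ S := tsum_nonneg fun n => by positivity
  refine ⟨2 * (2 + C * (Real.exp 2 * S)), by positivity, T0, hT0,
    fun T hT H hH1 hH2 t0 ht1 ht2 q hq1 hq2 hNN => ?_⟩
  have hT100 : 100 ≤ T := hT0.trans hT
  have hTpos : 0 < T := by linarith
  have hU : 1 ≤ t0 := by linarith
  have hL0 : 0 < Real.log T := Real.log_pos (by linarith)
  set L := Real.log T with hL
  have hHpos : 0 < H := lt_of_lt_of_le (by positivity) hH1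
  set f : ℝ → ℝ := fun x => x ^ 2 * Real.exp (q * x) with hf
  have hf0 : ∀ x, 0 ≤ f x := fun x => by simp only [hf]; positivity
  set fp : ℂ → ℝ := fun s => if 1 / 2 ≤ s.re then f (L * |s.re - 1 / 2|) else 0 with hfp
  have hfp0 : ∀ s, 0 ≤ fp s := fun s => by
    simp only [hfp]; split_ifs
    · exact hf0 _
    · exact le_rfl
  have h1 : ∑ s ∈ Zf riemannZeta t0 (t0 + H), (mult riemannZeta s : ℝ) * f (L * |s.re - 1 / 2|) ≤
      2 * ∑ s ∈ Zf riemannZeta t0 (t0 + H), (mult riemannZeta s : ℝ) * fp s := by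
    have h2 := sum_refl good_zeta hU (U2 := t0 + H) (fun s => (mult riemannZeta s : ℝ) * fp s)
    rw [two_mul]
    nth_rewrite 2 [← h2]
    rw [← Finset.sum_add_distrib]
    refine Finset.sum_le_sum fun s hs => ?_
    rw [mem_Zf good_zeta hU] at hs
    rw [mult_refl good_zeta hs.1 hs.2.1 (by linarith [hs.2.2.1]), ← mul_add]
    refine mul_le_mul_of_nonneg_left ?_ (Nat.cast_nonneg _)
    rcases le_total (1 / 2) s.re with h | h
    · have : fp s = f (L * |s.re - 1 / 2|) := by simp only [hfp, h, if_true]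
      rw [this]
      have := hfp0 (1 - conj s)
      linarith
    · have h3 : (1 - conj s).re = 1 - s.re := by simp
      have : fp (1 - conj s) = f (L * |s.re - 1 / 2|) := by
        simp only [hfp, h3]
        rw [if_pos (by linarith)]
        congr 2
        rw [show 1 - s.re - 1 / 2 = -(s.re - 1 / 2) by ring, abs_neg]
      rw [this]
      have := hfp0 s
      linarith
  refine h1.trans ?_
  have hNfl : L * (1 / 2) < ((⌊L⌋₊ + 1 : ℕ) : ℝ) := by
    have := Nat.lt_floor_add_one L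
    push_cast
    linarith
  set N : ℕ := ⌊L⌋₊ + 1 with hN
  have h2 : ∀ s ∈ Zf riemannZeta t0 (t0 + H), (mult riemannZeta s : ℝ) * fp s ≤
      2 * mult riemannZeta s + ∑ k ∈ Finset.range N, (if 1 / 2 + ((k + 1 : ℕ) : ℝ) / L ≤ s.re then
        (mult riemannZeta s : ℝ) else 0) * (((k : ℝ) + 2) ^ 2 * Real.exp (((k : ℝ) + 2) / 2)) := by
    intro s hs
    rw [mem_Zf good_zeta hU] at hs
    have hm0 : (0 : ℝ) ≤ mult riemannZeta s := Nat.cast_nonneg _
    by_cases h : 1 / 2 ≤ s.re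
    · have e1 : fp s = f (L * |s.re - 1 / 2|) := by simp only [hfp, h, if_true]
      have hx0 : 0 ≤ L * |s.re - 1 / 2| := by positivity
      have hxN : L * |s.re - 1 / 2| < N := by
        refine lt_of_le_of_lt ?_ hNfl
        gcongr
        rw [abs_le]; constructor <;> linarith [hs.1, hs.2.1]
      have h3 := layer hx0 hxN hq2
      rw [e1]
      have h4 := mul_le_mul_of_nonneg_left h3 hm0
      refine h4.trans (le_of_eq ?_)
      rw [mul_add, Finset.mul_sum]
      congr 1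
      · ring
      refine Finset.sum_congr rfl fun k _ => ?_
      have e2 : (((k + 1 : ℕ) : ℝ) ≤ L * |s.re - 1 / 2|) ↔ (1 / 2 + ((k + 1 : ℕ) : ℝ) / L ≤ s.re) := by
        rw [abs_of_nonneg (by linarith)]
        constructor
        · intro h5
          have : ((k + 1 : ℕ) : ℝ) / L ≤ s.re - 1 / 2 := by rw [div_le_iff₀ hL0]; linarith
          linarith
        · intro h5
          have : ((k + 1 : ℕ) : ℝ) / L ≤ s.re - 1 / 2 := by linarith
          rw [div_le_iff₀ hL0] at this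
          linarith
      by_cases h6 : 1 / 2 + ((k + 1 : ℕ) : ℝ) / L ≤ s.re
      · rw [if_pos h6, if_pos (e2.mpr h6)]
      · rw [if_neg h6, if_neg (fun h7 => h6 (e2.mp h7))]; ring
    · have e1 : fp s = 0 := by simp only [hfp, h, if_false]
      rw [e1, mul_zero]
      positivity
  have h3 : ∑ s ∈ Zf riemannZeta t0 (t0 + H), (mult riemannZeta s : ℝ) * fp s ≤
      2 * (H * L) + ∑ k ∈ Finset.range N, (C * (H * L) * Real.exp (-(k : ℝ))) *
        (((k : ℝ) + 2) ^ 2 * Real.exp (((k : ℝ) + 2) / 2)) := by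
    refine (Finset.sum_le_sum h2).trans ?_
    rw [Finset.sum_add_distrib, Finset.sum_comm]
    refine add_le_add ?_ (Finset.sum_le_sum fun k _ => ?_)
    · rw [← Finset.mul_sum]
      have : (NN riemannZeta t0 (t0 + H) : ℝ) = ∑ s ∈ Zf riemannZeta t0 (t0 + H),
          (mult riemannZeta s : ℝ) := by
        rw [NN_eq good_zeta hU]; push_cast; rfl
      rw [← this]
      linarith
    · rw [← Finset.sum_mul]
      refine mul_le_mul_of_nonneg_right ?_ (by positivity)
      rw [← Finset.sum_filter]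
      exact hD T hT H hH1 hH2 t0 ht1 ht2 k
  have h4 : ∑ k ∈ Finset.range N, (C * (H * L) * Real.exp (-(k : ℝ))) *
        (((k : ℝ) + 2) ^ 2 * Real.exp (((k : ℝ) + 2) / 2)) ≤ C * (H * L) * (Real.exp 2 * S) := by
    have h5 : ∀ k : ℕ, (C * (H * L) * Real.exp (-(k : ℝ))) *
        (((k : ℝ) + 2) ^ 2 * Real.exp (((k : ℝ) + 2) / 2)) =
        C * (H * L) * (Real.exp 2 * (((k + 2 : ℕ) : ℝ) ^ 2 * q0 ^ (k + 2))) := by
      intro k
      have e3 : Real.exp (-(k : ℝ)) * Real.exp (((k : ℝ) + 2) / 2) = Real.exp 2 * q0 ^ (k + 2) := by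
        rw [hq0, ← Real.exp_nat_mul, ← Real.exp_add, ← Real.exp_add]
        congr 1
        push_cast
        ring
      push_cast
      linear_combination (C * (H * L) * ((k : ℝ) + 2) ^ 2) * e3
    rw [Finset.sum_congr rfl fun k _ => h5 k, ← Finset.mul_sum, ← Finset.mul_sum]
    have h6 : ∑ k ∈ Finset.range N, ((k + 2 : ℕ) : ℝ) ^ 2 * q0 ^ (k + 2) ≤ S := by
      have h7 : Summable (fun k : ℕ => ((k + 2 : ℕ) : ℝ) ^ 2 * q0 ^ (k + 2)) :=
        (summable_nat_add_iff 2).mpr hsum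
      refine (h7.sum_le_tsum _ fun k _ => by positivity).trans ?_
      have h8 := hsum.sum_add_tsum_nat_add 2
      rw [hS, ← h8]
      have h9 : 0 ≤ ∑ i ∈ Finset.range 2, (i : ℝ) ^ 2 * q0 ^ i :=
        Finset.sum_nonneg fun i _ => by positivity
      linarith
    gcongr
  calc 2 * ∑ s ∈ Zf riemannZeta t0 (t0 + H), (mult riemannZeta s : ℝ) * fp s ≤
      2 * (2 * (H * L) + C * (H * L) * (Real.exp 2 * S)) := by linarith
    _ = _ := by ring

end Pool.Agent.H444
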