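import Pool.Agent.H444.UI
import Pool.Agent.H444.Dens
import Pool.Graph.R_seed8.H345R2.A2.EFb

/-! Uniform integrability for zeta. -/

open Complex Filter Topology Set MeasureTheory
open scoped BigOperators ComplexConjugate

namespace Pool.Agent.H444

open H370

lemma zeta_ld (s : ℂ) (hs : 1 < s.re) (_ : 1 ≤ s.im) :
    deriv riemannZeta s / riemannZeta s = - ∑' n : ℕ, H370.A2.lamC n * (n : ℂ) ^ (-s) :=
  H370.A2.ld_zeta s hs

lemma amgm {w θ : ℝ} (hθ : 0 < θ) : w ≤ θ + w ^ 2 / θ := by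
  rw [← sub_nonneg]
  have e : θ + w ^ 2 / θ - w = ((w - θ / 2) ^ 2 + 3 / 4 * θ ^ 2) / θ := by
    field_simp
    ring
  rw [e]; positivity

lemma rpow_half_le : ∃ T0 : ℝ, 100 ≤ T0 ∧ ∀ T : ℝ, T0 ≤ T → T ^ (1 / 2 : ℝ) ≤ T / Real.log T := by
  have h := (isLittleO_log_rpow_atTop (by norm_num : (0 : ℝ) < 1 / 2)).bound (by norm_num : (0:ℝ) < 1)
  obtain ⟨T0, hT0⟩ := eventually_atTop.mp h
  refine ⟨max T0 100, le_max_right _ _, fun T hT => ?_⟩
  have h1 := hT0 T ((le_max_left _ _).trans hT)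
  have hT100 : 100 ≤ T := (le_max_right _ _).trans hT
  have hTpos : 0 < T := by linarith
  have hL : 0 < Real.log T := Real.log_pos (by linarith)
  have hr : 0 < T ^ (1 / 2 : ℝ) := Real.rpow_pos_of_pos hTpos _
  rw [Real.norm_eq_abs, Real.norm_eq_abs, abs_of_pos hL, abs_of_pos hr, one_mul] at h1
  rw [le_div_iff₀ hL]
  have h2 : T ^ (1 / 2 : ℝ) * T ^ (1 / 2 : ℝ) = T := by
    rw [← Real.rpow_add hTpos]; norm_num
  calc T ^ (1 / 2 : ℝ) * Real.log T ≤ T ^ (1 / 2 : ℝ) * T ^ (1 / 2 : ℝ) := by gcongr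
    _ = T := h2

/-- **Uniform integrability.** -/
theorem UI_zeta {ε : ℝ} (hε : 0 < ε) : ∃ κ : ℝ, 0 < κ ∧ ∃ T0 : ℝ, 100 ≤ T0 ∧ ∀ T : ℝ, T0 ≤ T →
    ∀ H : ℝ, T / Real.log T ≤ H → H ≤ T / 2 → ∀ t0 : ℝ, T ≤ t0 → t0 ≤ 2 * T →
    ∀ E : Set ℝ, MeasurableSet E → volume E ≤ ENNReal.ofReal (κ * H) →
    ∫ t in E, CC riemannZeta t0 (t0 + H) (1 / Real.log T) t ≤ ε * H := by
  obtain ⟨CD, hCD, T1, hT1, hdens⟩ := dens_sum
  -- the scale
  set b : ℝ := min (1 / 12) (ε / (8 * (2016 * Real.pi * CD))) with hb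
  have hpi := Real.pi_pos
  have hb0 : 0 < b := lt_min (by norm_num) (by positivity)
  have hb12 : b ≤ 1 / 12 := min_le_left _ _
  have hbε : 4 * (2016 * Real.pi * CD * b) ≤ ε / 2 := by
    have h1 : b ≤ ε / (8 * (2016 * Real.pi * CD)) := min_le_right _ _
    rw [le_div_iff₀ (by positivity)] at h1
    linarith
  have htbc : Continuous (tb b) := by
    unfold tb
    have := tent_cont
    fun_prop
  have htbB : ∀ x, |tb b x| ≤ 1 / b := by
    intro x
    unfold tb
    rw [abs_div, abs_of_pos hb0, abs_of_nonneg (tent_nonneg _)]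
    have := tent_le_one (x / b)
    gcongr
  have htbK : ∀ x y, |tb b x - tb b y| ≤ (1 / b ^ 2) * |x - y| := by
    intro x y
    unfold tb
    rw [← sub_div, abs_div, abs_of_pos hb0]
    have h := tent_lip (x / b) (y / b)
    rw [← sub_div, abs_div, abs_of_pos hb0] at h
    calc |tent (x / b) - tent (y / b)| / b ≤ (|x - y| / b) / b := by gcongr
      _ = _ := by field_simp
  have htbs : ∀ x, b ≤ |x| → tb b x = 0 := by
    intro x hx
    unfold tb
    rw [tent_zero, zero_div]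
    rw [abs_div, abs_of_pos hb0, one_le_div hb0]; exact hx
  obtain ⟨T2, hT2, hW⟩ := WW_gen good_zeta (a := H370.A2.lamC) H370.A2.lamC_norm
    (fun s h1 h2 => zeta_ld s h1 h2) htbc htbB htbK (by positivity) htbs (η0 := 1 / 2) (ε := 1) hb0
    (by linarith) (by norm_num) one_pos
  set Cb : ℝ := tb b 0 ^ 2 + (∫ α in (-b)..b, |α| * tb b α ^ 2) + 1 with hCb
  have hCb0 : 0 < Cb := by
    have : 0 ≤ ∫ α in (-b)..b, |α| * tb b α ^ 2 :=
      intervalIntegral.integral_nonneg (by linarith) fun x _ => by positivity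
    positivity
  set θ : ℝ := 16 * Cb / ε with hθ
  have hθ0 : 0 < θ := by positivity
  obtain ⟨T3, hT3, hpow⟩ := rpow_half_le
  obtain ⟨T4, hT4⟩ := (Real.tendsto_log_atTop.eventually_ge_atTop (2 / b + 1)).exists_forall_of_atTop
  refine ⟨ε / (16 * θ), by positivity, max (max T1 T2) (max T3 T4),
    (hT1.trans (le_max_left _ _)).trans (le_max_left _ _), fun T hT H hH1 hH2 t0 ht1 ht2 E hE hEv => ?_⟩
  have hTT1 : T1 ≤ T := ((le_max_left _ _).trans (le_max_left _ _)).trans hT
  have hTT2 : T2 ≤ T := ((le_max_right _ _).trans (le_max_left _ _)).trans hT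
  have hTT3 : T3 ≤ T := ((le_max_left _ _).trans (le_max_right _ _)).trans hT
  have hTT4 : T4 ≤ T := ((le_max_right _ _).trans (le_max_right _ _)).trans hT
  have hT100 : 100 ≤ T := hT1.trans hTT1
  have hTpos : 0 < T := by linarith
  have hU : 1 ≤ t0 := by linarith
  have hHp : T ^ (1 / 2 : ℝ) ≤ H := (hpow T hTT3).trans hH1
  obtain ⟨w1, w2, w3⟩ := hW T hTT2 H hHp hH2 t0 ht1 ht2
  have hL4 := hT4 T hTT4
  set L := Real.log T with hL
  have hbL : 2 ≤ b * L := by
    have h1 : 2 / b ≤ L := by linarith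
    rw [div_le_iff₀ hb0] at h1
    linarith
  have hL0 : 0 < L := by
    have : 0 < 2 / b := by positivity
    linarith
  have hL1 : 1 ≤ L := by
    have : 0 < 2 / b := by positivity
    linarith
  have hHpos : 0 < H := lt_of_lt_of_le (by positivity) hH1
  have hNN : (NN riemannZeta t0 (t0 + H) : ℝ) ≤ H * L := by
    have h1 := (abs_le.mp w1).2
    have h2 : H * L / (2 * Real.pi) ≤ H * L / 2 := by
      apply div_le_div_of_nonneg_left (by positivity) (by norm_num)
      linarith [Real.pi_gt_three]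
    linarith
  have hds := hdens T hTT1 H hH1 hH2 t0 ht1 ht2 (3 * b) (by positivity) (by linarith) hNN
  rw [← hL] at hds
  obtain ⟨d1, d2⟩ := D2_int (F := riemannZeta) (U2 := t0 + H) good_zeta hU hb0 hL1 hbL
  have hd3 : ∫ t : ℝ, D2 riemannZeta b t0 (t0 + H) L t ≤ 2016 * Real.pi * CD * b * H := by
    rw [d2]
    calc 2016 * Real.pi * (b / L) * _ ≤ 2016 * Real.pi * (b / L) * (CD * (H * L)) := by gcongr
      _ = _ := by field_simp
  -- the measure of `E`
  have hEfin : volume E ≠ ⊤ := (hEv.trans_lt ENNReal.ofReal_lt_top).ne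
  have hEr : volume.real E ≤ ε / (16 * θ) * H := by
    unfold Measure.real
    exact ENNReal.toReal_le_of_le_ofReal (by positivity) hEv
  obtain ⟨c1, -⟩ := CC_int (F := riemannZeta) (U2 := t0 + H) good_zeta hU (ρ := 1 / L) (by positivity)
  have hD0 : ∀ t, 0 ≤ D2 riemannZeta b t0 (t0 + H) L t := fun t => by
    unfold D2
    exact Finset.sum_nonneg fun s _ => by positivity
  have hW2 : IntegrableOn (fun t : ℝ => ‖WW riemannZeta (tb b) t0 (t0 + H) L t‖ ^ 2 / θ) E :=
    (w2.div_const θ).integrableOn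
  have hconst : IntegrableOn (fun _ : ℝ => θ) E := integrableOn_const hEfin
  have hsum : IntegrableOn (fun t : ℝ => θ + ‖WW riemannZeta (tb b) t0 (t0 + H) L t‖ ^ 2 / θ) E :=
    hconst.add hW2
  calc ∫ t in E, CC riemannZeta t0 (t0 + H) (1 / L) t ≤
      ∫ t in E, 4 * ((θ + ‖WW riemannZeta (tb b) t0 (t0 + H) L t‖ ^ 2 / θ) +
        D2 riemannZeta b t0 (t0 + H) L t) := by
        refine setIntegral_mono_on c1.integrableOn
          ((hsum.add d1.integrableOn).const_mul 4) hE fun t _ => ?_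
        refine (CC_le_WW good_zeta (U2 := t0 + H) hU hb0 (by linarith) hL1 hbL t).trans ?_
        have := amgm (w := ‖WW riemannZeta (tb b) t0 (t0 + H) L t‖) hθ0
        linarith
    _ = 4 * ((volume.real E * θ + (∫ t in E, ‖WW riemannZeta (tb b) t0 (t0 + H) L t‖ ^ 2) / θ) +
        ∫ t in E, D2 riemannZeta b t0 (t0 + H) L t) := by
        rw [integral_const_mul, integral_add hsum d1.integrableOn,
          integral_add hconst hW2, setIntegral_const, integral_div, smul_eq_mul]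
    _ ≤ 4 * ((ε / (16 * θ) * H * θ + (Cb * H) / θ) + 2016 * Real.pi * CD * b * H) := by
        have h1 : ∫ t in E, ‖WW riemannZeta (tb b) t0 (t0 + H) L t‖ ^ 2 ≤ Cb * H :=
          (setIntegral_le_integral w2 (Filter.Eventually.of_forall fun t => by positivity)).trans w3
        have h2 : ∫ t in E, D2 riemannZeta b t0 (t0 + H) L t ≤ 2016 * Real.pi * CD * b * H :=
          (setIntegral_le_integral d1 (Filter.Eventually.of_forall hD0)).trans hd3
        gcongr
    _ = (ε / 4 + 4 * Cb / θ) * H + 4 * (2016 * Real.pi * CD * b) * H := by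
        field_simp
        ring
    _ ≤ (ε / 4 + ε / 4) * H + ε / 2 * H := by
        have h3 : 4 * Cb / θ = ε / 4 := by rw [hθ]; field_simp; norm_num
        rw [h3]
        gcongr
    _ = ε * H := by ring

end Pool.Agent.H444
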