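import Pool.Agent.H444.Ord2

/-! Averages over intervals of the length of the mean spacing. -/

open Complex Filter Topology Set MeasureTheory
open scoped BigOperators ComplexConjugate

namespace Pool.Agent.H444

open H370

/-- the average -/
noncomputable def Av (f : ℝ → ℝ) (L c t : ℝ) : ℝ := L / 2 * ∫ u in (-(c / L))..(c / L), f (t + u)

lemma Av_int {g : ℝ → ℝ} (hc : Continuous g) (hi : Integrable g) {L c : ℝ}
    (hL : 0 < L) (hc0 : 0 ≤ c) : Integrable (Av g L c) ∧ ∫ t : ℝ, Av g L c t = c * ∫ x : ℝ, g x := by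
  set ν : Measure ℝ := volume.restrict (Ioc (-(c / L)) (c / L)) with hν
  have hcL : 0 ≤ c / L := by positivity
  have hprod : Integrable (Function.uncurry fun t u : ℝ => g (t + u)) (volume.prod ν) := by
    rw [integrable_prod_iff']
    · constructor
      · exact Filter.Eventually.of_forall fun u => hi.comp_add_right u
      · have : (fun u : ℝ => ∫ t : ℝ, ‖Function.uncurry (fun t u : ℝ => g (t + u)) (t, u)‖) =
            fun _ => ∫ t : ℝ, ‖g t‖ := by
          funext u
          simp only [Function.uncurry]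
          exact integral_add_right_eq_self (fun t => ‖g t‖) u
        rw [this]
        exact integrable_const _
    · exact (by unfold Function.uncurry; fun_prop :
        Continuous (Function.uncurry fun t u : ℝ => g (t + u))).aestronglyMeasurable
  have e1 : ∀ t : ℝ, Av g L c t = L / 2 * ∫ u : ℝ, g (t + u) ∂ν := by
    intro t
    unfold Av
    rw [intervalIntegral.integral_of_le (by linarith)]
  constructor
  · have h1 := (hprod.integral_prod_left).const_mul (L / 2)
    refine h1.congr (Filter.Eventually.of_forall fun t => ?_)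
    exact (e1 t).symm
  · simp_rw [e1]
    rw [integral_const_mul, integral_integral_swap hprod]
    simp_rw [integral_add_right_eq_self g]
    rw [integral_const]
    have : ν.real univ = 2 * (c / L) := by
      rw [hν]
      simp only [MeasurableSet.univ, measureReal_restrict_apply, univ_inter, Real.volume_real_Ioc]
      rw [max_eq_left (by linarith)]; ring
    rw [this, smul_eq_mul]
    field_simp

lemma Av_nonneg {g : ℝ → ℝ} (h0 : ∀ x, 0 ≤ g x) {L c : ℝ} (hL : 0 < L) (hc0 : 0 ≤ c) (t : ℝ) :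
    0 ≤ Av g L c t := by
  unfold Av
  have hcL : 0 ≤ c / L := by positivity
  exact mul_nonneg (by positivity) (intervalIntegral.integral_nonneg (by linarith) fun u _ => h0 _)

/-- averages over larger intervals are larger -/
lemma Av_le {g : ℝ → ℝ} (hc : Continuous g) (h0 : ∀ x, 0 ≤ g x) {L : ℝ} (hL : 0 < L) {t t' : ℝ}
    (h : |t' - t| ≤ 1 / L) : Av g L 1 t ≤ Av g L 2 t' := by
  unfold Av
  refine mul_le_mul_of_nonneg_left ?_ (by positivity)
  have e1 : ∫ u in (-(1 / L))..(1 / L), g (t + u) = ∫ x in (t - 1 / L)..(t + 1 / L), g x := by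
    rw [intervalIntegral.integral_comp_add_left (fun x => g x) t]
    congr 1
  have e2 : ∫ u in (-(2 / L))..(2 / L), g (t' + u) = ∫ x in (t' - 2 / L)..(t' + 2 / L), g x := by
    rw [intervalIntegral.integral_comp_add_left (fun x => g x) t']
    congr 1
  rw [e1, e2]
  rw [abs_le] at h
  have h1 : 0 < 1 / L := by positivity
  have h2 : 2 / L = 2 * (1 / L) := by ring
  rw [h2]
  refine intervalIntegral.integral_mono_interval (by linarith) (by linarith) (by linarith) ?_
    (hc.intervalIntegrable _ _)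
  exact Filter.Eventually.of_forall fun x => h0 x

lemma Kt_eq (n : ℕ) (r : ℝ) {L : ℝ} (hL : 0 < L) (x : ℝ) :
    Kt n r (L * x) = L / 2 * ∫ u in (-(1 / L))..(1 / L), Kr n r (L * (x - u)) := by
  unfold Kt
  have h := intervalIntegral.integral_comp_mul_left (a := -(1 / L)) (b := 1 / L)
    (fun v => Kr n r (L * x - v)) hL.ne'
  have e1 : L * -(1 / L) = -1 := by field_simp
  have e2 : L * (1 / L) = 1 := by field_simp
  rw [e1, e2, smul_eq_mul] at h
  have e3 : ∀ u, Kr n r (L * (x - u)) = Kr n r (L * x - L * u) := fun u => by rw [mul_sub]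
  simp_rw [e3]
  rw [h]
  field_simp

lemma Kt_even (n : ℕ) (r x : ℝ) : Kt n r (-x) = Kt n r x := by
  unfold Kt
  congr 1
  have h := intervalIntegral.integral_comp_neg (a := (-1 : ℝ)) (b := 1) (fun v => Kr n r (x - v))
  rw [neg_neg] at h
  rw [← h]
  refine intervalIntegral.integral_congr fun v _ => ?_
  show Kr n r (-x - v) = Kr n r (x - -v)
  rw [← Kr_even]
  congr 1; ring

lemma Krc (n : ℕ) (r x : ℝ) : Continuous fun v => Kr n r (x - v) := by
  have := Kr_cont n r
  fun_prop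

lemma Kt_abs {n : ℕ} (hn : 1 ≤ n) (r x : ℝ) : |Kt n r x| ≤ 1 := by
  unfold Kt
  have h : ‖∫ v in (-1 : ℝ)..1, Kr n r (x - v)‖ ≤ 1 * |(1 : ℝ) - (-1)| := by
    refine intervalIntegral.norm_integral_le_of_norm_le_const fun v _ => ?_
    exact Kr_abs hn r _
  rw [Real.norm_eq_abs] at h
  rw [abs_mul]
  norm_num at h ⊢
  linarith

lemma Kt_lip {n : ℕ} (hn : 1 ≤ n) {r : ℝ} (hr : 0 < r) (x y : ℝ) :
    |Kt n r x - Kt n r y| ≤ 3 * r * |x - y| := by
  unfold Kt
  rw [← mul_sub, ← intervalIntegral.integral_sub ((Krc n r x).intervalIntegrable _ _)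
    ((Krc n r y).intervalIntegrable _ _)]
  have h : ‖∫ v in (-1 : ℝ)..1, (Kr n r (x - v) - Kr n r (y - v))‖ ≤
      (3 * r * |x - y|) * |(1 : ℝ) - (-1)| := by
    refine intervalIntegral.norm_integral_le_of_norm_le_const fun v _ => ?_
    have := Kr_lip hn hr (x - v) (y - v)
    rwa [show x - v - (y - v) = x - y by ring] at this
  rw [Real.norm_eq_abs] at h
  rw [abs_mul]
  norm_num at h ⊢
  linarith

lemma Kt_zero {n : ℕ} (hn : 1 ≤ n) {r : ℝ} (hr : 0 < r) : |1 - Kt n r 0| ≤ 3 * r := by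
  unfold Kt
  have e : (1 : ℝ) - 1 / 2 * ∫ v in (-1 : ℝ)..1, Kr n r (0 - v) =
      1 / 2 * ∫ v in (-1 : ℝ)..1, (1 - Kr n r (0 - v)) := by
    rw [intervalIntegral.integral_sub (by simp) ((Krc n r 0).intervalIntegrable _ _)]
    simp
    ring
  rw [e]
  have h : ‖∫ v in (-1 : ℝ)..1, (1 - Kr n r (0 - v))‖ ≤ (3 * r) * |(1 : ℝ) - (-1)| := by
    refine intervalIntegral.norm_integral_le_of_norm_le_const fun v hv => ?_
    have := Kr_lip hn hr 0 (0 - v)
    rw [Kr_zero hn] at this
    rw [Real.norm_eq_abs]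
    refine this.trans ?_
    have h1 : |0 - (0 - v)| ≤ 1 := by
      rw [show 0 - (0 - v) = v by ring, abs_le]
      rw [uIoc_of_le (by norm_num)] at hv
      exact ⟨hv.1.le, hv.2⟩
    calc 3 * r * |0 - (0 - v)| ≤ 3 * r * 1 := by gcongr
      _ = _ := by ring
  rw [Real.norm_eq_abs] at h
  rw [abs_mul]
  norm_num at h ⊢
  linarith

lemma Kt_near {n : ℕ} (hn : 1 ≤ n) {r : ℝ} (hr : 0 < r) (x : ℝ) :
    1 - Kt n r x ≤ 3 * r * (1 + |x|) := by
  have h1 := Kt_zero hn hr
  have h2 := Kt_lip hn hr 0 x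
  rw [zero_sub, abs_neg] at h2
  have h3 := (abs_le.mp h1).2
  have h4 := (abs_le.mp h2).2
  linarith

section zeros

variable {F : ℂ → ℂ} (hF : GoodL F) {U1 U2 : ℝ} (hU : 1 ≤ U1)
variable {n : ℕ} (hn : 1 ≤ n) {r L : ℝ} (hr : 0 < r) (hL : 0 < L) (hrL : 2 ≤ r / 4 ^ n * L)

lemma kk_cont (n : ℕ) (r L : ℝ) : Continuous (kk n r L) := by
  unfold kk KK
  have := gk_kap.diff.continuous
  fun_prop

include hr in
lemma WW_cont (F : ℂ → ℂ) (n : ℕ) (U1 U2 L : ℝ) : Continuous fun t => WW F (ph n r) U1 U2 L t := by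
  simp_rw [WW_kk hr]
  have := kk_cont n r L
  fun_prop

lemma gs_cont (n : ℕ) (r L y : ℝ) {R : ℝ} (hR : 0 < R) : Continuous (gs n r L R y) := by
  unfold gs
  have h1 : ∀ x : ℝ, x ^ 2 + R ^ 2 ≠ 0 := fun x => by positivity
  have h2 : ∀ (j : ℕ) (x : ℝ), 1 + (rr r j * L * x) ^ 2 ≠ 0 := fun j x => by positivity
  refine Continuous.add ?_ (Continuous.div (by fun_prop) (by fun_prop) h1)
  refine continuous_const.mul (continuous_const.mul (continuous_finsetSum _ fun j _ => ?_))
  exact continuous_const.mul (Continuous.div continuous_const (by fun_prop) (h2 j))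

lemma DD_cont (F : ℂ → ℂ) (n : ℕ) (r U1 U2 L : ℝ) {R : ℝ} (hR : 0 < R) :
    Continuous (DD F n r U1 U2 L R) := by
  unfold DD
  refine continuous_finsetSum _ fun s _ => ?_
  have := gs_cont n r L (1 / 2 - s.re) hR
  fun_prop

include hr hL in
lemma DD_nonneg (F : ℂ → ℂ) (n : ℕ) (U1 U2 R t : ℝ) : 0 ≤ DD F n r U1 U2 L R t := by
  unfold DD
  exact Finset.sum_nonneg fun s _ => mul_nonneg (Nat.cast_nonneg _) (gs_nonneg n hr hL R _ _)

/-- the error function -/
noncomputable def GG (F : ℂ → ℂ) (n : ℕ) (r U1 U2 L R θ t : ℝ) : ℝ :=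
  ‖WW F (ph n r) U1 U2 L t‖ ^ 2 / θ + DD F n r U1 U2 L R t

include hr in
lemma GG_cont (F : ℂ → ℂ) (n : ℕ) (U1 U2 L θ : ℝ) {R : ℝ} (hR : 0 < R) :
    Continuous (GG F n r U1 U2 L R θ) := by
  unfold GG
  have h1 := WW_cont hr F n U1 U2 L
  have h2 := DD_cont F n r U1 U2 L hR
  fun_prop

include hr hL in
lemma GG_nonneg (F : ℂ → ℂ) (n : ℕ) (U1 U2 R : ℝ) {θ : ℝ} (hθ : 0 < θ) (t : ℝ) :
    0 ≤ GG F n r U1 U2 L R θ t := by
  unfold GG
  have := DD_nonneg hr hL F n U1 U2 R t
  positivity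

include hF hU hn hr hL hrL in
/-- the statistic in the ordinates is bounded by an average -/
theorem VV_le {R θ : ℝ} (hRL : 2 / L ≤ R) (hθ : 0 < θ) (t : ℝ) :
    |VV F n r U1 U2 L R t| ≤ θ + Av (GG F n r U1 U2 L R θ) L 1 t := by
  have hR : 0 < R := lt_of_lt_of_le (by positivity) hRL
  have hW := WW_cont hr F n U1 U2 L
  have hD := DD_cont F n r U1 U2 L hR
  have hG := GG_cont hr F n U1 U2 L θ hR
  have hV1c : Continuous fun u => V1 F n r U1 U2 L R t u := by
    unfold V1
    refine continuous_finsetSum _ fun s _ => ?_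
    have := Kr_cont n r
    split_ifs
    · fun_prop
    · fun_prop
  have e1 : VV F n r U1 U2 L R t = L / 2 * ∫ u in (-(1 / L))..(1 / L), V1 F n r U1 U2 L R t u := by
    unfold VV V1
    rw [intervalIntegral.integral_finsetSum]
    swap
    · intro s _
      refine Continuous.intervalIntegrable ?_ _ _
      have := Kr_cont n r
      split_ifs
      · fun_prop
      · fun_prop
    rw [Finset.mul_sum]
    refine Finset.sum_congr rfl fun s _ => ?_
    rw [intervalIntegral.integral_const_mul]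
    split_ifs
    · rw [Kt_eq n r hL]
      have : ∀ u, s.im - t - u = s.im - (t + u) := fun u => by ring
      simp_rw [this]
      ring
    · simp
  have h1L : 0 < 1 / L := by positivity
  have hle : ‖∫ u in (-(1 / L))..(1 / L), V1 F n r U1 U2 L R t u‖ ≤
      ∫ u in (-(1 / L))..(1 / L), (θ + GG F n r U1 U2 L R θ (t + u)) := by
    refine intervalIntegral.norm_integral_le_of_norm_le (by linarith) ?_ ?_
    · refine Filter.Eventually.of_forall fun u hu => ?_
      have hu' : |u| ≤ R / 2 := by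
        have : |u| ≤ 1 / L := by rw [abs_le]; exact ⟨hu.1.le, hu.2⟩
        have h2 : 2 / L = 2 * (1 / L) := by ring
        rw [h2] at hRL
        linarith
      have h := WW_V1 hF (U2 := U2) hU hn hr hL hrL hR t hu'
      have h2 : ‖V1 F n r U1 U2 L R t u‖ ≤ ‖WW F (ph n r) U1 U2 L (t + u)‖ +
          DD F n r U1 U2 L R (t + u) := by
        have h3 : ‖V1 F n r U1 U2 L R t u‖ = ‖((V1 F n r U1 U2 L R t u : ℝ) : ℂ)‖ := by
          rw [Complex.norm_real]
        rw [h3]
        have h4 := norm_sub_norm_le ((V1 F n r U1 U2 L R t u : ℝ) : ℂ) (WW F (ph n r) U1 U2 L (t + u))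
        rw [norm_sub_rev] at h4
        linarith
      refine h2.trans ?_
      unfold GG
      have h5 : ‖WW F (ph n r) U1 U2 L (t + u)‖ ≤ θ + ‖WW F (ph n r) U1 U2 L (t + u)‖ ^ 2 / θ := by
        set w := ‖WW F (ph n r) U1 U2 L (t + u)‖ with hw
        have hw0 : 0 ≤ w := norm_nonneg _
        rw [← sub_nonneg]
        have e : θ + w ^ 2 / θ - w = ((w - θ / 2) ^ 2 + 3 / 4 * θ ^ 2) / θ := by
          field_simp
          ring
        rw [e]; positivity
      linarith
    · exact (continuous_const.add (hG.comp (by fun_prop))).intervalIntegrable _ _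
  rw [e1, abs_mul, abs_of_pos (by positivity : 0 < L / 2)]
  rw [Real.norm_eq_abs] at hle
  have h6 : ∫ u in (-(1 / L))..(1 / L), (θ + GG F n r U1 U2 L R θ (t + u)) =
      2 / L * θ + ∫ u in (-(1 / L))..(1 / L), GG F n r U1 U2 L R θ (t + u) := by
    have c1 : Continuous fun u : ℝ => GG F n r U1 U2 L R θ (t + u) := by fun_prop
    rw [intervalIntegral.integral_add (by simp) (c1.intervalIntegrable _ _)]
    rw [intervalIntegral.integral_const]
    congr 1
    rw [smul_eq_mul]; ring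
  rw [h6] at hle
  calc L / 2 * |∫ u in (-(1 / L))..(1 / L), V1 F n r U1 U2 L R t u| ≤
      L / 2 * (2 / L * θ + ∫ u in (-(1 / L))..(1 / L), GG F n r U1 U2 L R θ (t + u)) := by gcongr
    _ = θ + Av (GG F n r U1 U2 L R θ) L 1 t := by unfold Av; field_simp

/-- the count near `t` -/
lemma CC_le {ρ : ℝ} {t t' : ℝ} (F : ℂ → ℂ) (U1 U2 : ℝ) (h : |t' - t| ≤ 1 / L) :
    CC F U1 U2 ρ t ≤ CC F U1 U2 (ρ + 1 / L) t' := by
  unfold CC
  refine Finset.sum_le_sum fun s _ => mul_le_mul_of_nonneg_left ?_ (Nat.cast_nonneg _)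
  rw [abs_le] at h
  by_cases h1 : t ∈ Icc (s.im - ρ) (s.im + ρ)
  · have h2 : t' ∈ Icc (s.im - (ρ + 1 / L)) (s.im + (ρ + 1 / L)) := by
      rw [mem_Icc] at h1 ⊢
      constructor <;> linarith [h1.1, h1.2, h.1, h.2]
    rw [indicator_of_mem h1, indicator_of_mem h2]
  · rw [indicator_of_notMem h1]
    exact Set.indicator_nonneg (fun _ _ => zero_le_one) _

lemma CC_nonneg (F : ℂ → ℂ) (U1 U2 ρ t : ℝ) : 0 ≤ CC F U1 U2 ρ t := by
  unfold CC
  exact Finset.sum_nonneg fun s _ => mul_nonneg (Nat.cast_nonneg _)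
    (Set.indicator_nonneg (fun _ _ => zero_le_one) _)

end zeros

end Pool.Agent.H444
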