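import Pool.Agent.H444.Kern

open Complex MeasureTheory Set Filter Topology
open scoped ComplexConjugate

namespace Pool.Agent.H444

lemma SS_zero : SS 0 = 1 := by
  rw [SS_split]
  have e1 : ∫ u in (-1 : ℝ)..0, (1 + (u : ℂ)) * cexp (I * u * 0) = ((∫ u in (-1 : ℝ)..0, (1 + u) : ℝ) : ℂ) := by
    rw [← intervalIntegral.integral_ofReal]
    refine intervalIntegral.integral_congr fun u _ => ?_
    simp
  have e2 : ∫ u in (0 : ℝ)..1, (1 - (u : ℂ)) * cexp (I * u * 0) = ((∫ u in (0 : ℝ)..1, (1 - u) : ℝ) : ℂ) := by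
    rw [← intervalIntegral.integral_ofReal]
    refine intervalIntegral.integral_congr fun u _ => ?_
    simp
  rw [e1, e2, intervalIntegral.integral_add (by simp) (by simp),
    intervalIntegral.integral_sub (by simp) (by simp)]
  simp
  norm_num

lemma kap_zero : kap 0 = 1 := by
  rw [kap_eq, SS_zero]; simp

lemma int_om : ∫ u in (-3 : ℝ)..3, om u = 1 := by
  have h := kap_zero
  unfold kap at h
  have e1 : ∫ u in (-3 : ℝ)..3, (om u : ℂ) * cexp (I * u * 0) = ((∫ u in (-3 : ℝ)..3, om u : ℝ) : ℂ) := by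
    rw [← intervalIntegral.integral_ofReal]
    refine intervalIntegral.integral_congr fun u _ => ?_
    simp
  rw [e1] at h
  exact_mod_cast h

lemma norm_exp_le {u : ℝ} (hu : |u| ≤ 3) (z : ℂ) : ‖cexp (I * u * z)‖ ≤ Real.exp (3 * |z.im|) := by
  rw [Complex.norm_exp, Real.exp_le_exp]
  have e : (I * u * z).re = -(u * z.im) := by simp
  rw [e]
  have h1 : -(u * z.im) ≤ |u * z.im| := neg_le_abs _
  rw [abs_mul] at h1
  have h2 : |u| * |z.im| ≤ 3 * |z.im| := mul_le_mul_of_nonneg_right hu (abs_nonneg _)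
  linarith

lemma norm_kap_le (z : ℂ) : ‖kap z‖ ≤ Real.exp (3 * |z.im|) := by
  have h1 : ‖kap z‖ ≤ ∫ u in (-3 : ℝ)..3, om u * Real.exp (3 * |z.im|) := by
    unfold kap
    refine intervalIntegral.norm_integral_le_of_norm_le (by norm_num) ?_ ?_
    · refine Filter.Eventually.of_forall fun u hu => ?_
      rw [norm_mul, Complex.norm_real, Real.norm_eq_abs, abs_of_nonneg (om_nonneg u)]
      refine mul_le_mul_of_nonneg_left (norm_exp_le ?_ z) (om_nonneg u)
      rw [abs_le]; exact ⟨hu.1.le, hu.2⟩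
    · exact (om_cont.mul continuous_const).intervalIntegrable _ _
  rw [intervalIntegral.integral_mul_const, int_om, one_mul] at h1
  exact h1

lemma norm_kap_decay0 {z : ℂ} (hz : z ≠ 0) : ‖kap z‖ ≤ 4 * Real.exp (3 * |z.im|) / ‖z‖ ^ 2 := by
  rw [kap_eq, SS_eq hz, norm_mul, norm_div, norm_div]
  have n1 : ‖(I * z) ^ 2‖ = ‖z‖ ^ 2 := by simp
  have hre1 : ∀ c : ℝ, ‖cexp (c * I * z)‖ = Real.exp (-(c * z.im)) := by
    intro c
    rw [Complex.norm_exp]
    congr 1
    simp
  have b2 : ∀ c : ℝ, 0 ≤ c → Real.exp (-(c * z.im)) ≤ Real.exp (c * |z.im|) := by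
    intro c hc
    rw [Real.exp_le_exp]
    nlinarith [neg_le_abs z.im]
  have b3 : ∀ c : ℝ, 0 ≤ c → Real.exp (-(-c * z.im)) ≤ Real.exp (c * |z.im|) := by
    intro c hc
    rw [Real.exp_le_exp]
    nlinarith [le_abs_self z.im]
  have m1 : ‖cexp (2 * I * z)‖ ≤ Real.exp (2 * |z.im|) := by
    have := hre1 2
    push_cast at this
    rw [this]; exact b2 2 (by norm_num)
  have m2 : ‖cexp (-(2 * I * z))‖ ≤ Real.exp (2 * |z.im|) := by
    have := hre1 (-2)
    push_cast at this
    have e : -(2 * I * z) = -2 * I * z := by ring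
    rw [e, this]; exact b3 2 (by norm_num)
  have m3 : ‖cexp (I * z)‖ ≤ Real.exp |z.im| := by
    have := hre1 1
    have h := b2 1 (by norm_num)
    push_cast at this
    rw [one_mul] at this
    rw [this]; simpa using h
  have m4 : ‖cexp (-(I * z))‖ ≤ Real.exp |z.im| := by
    have := hre1 (-1)
    have h := b3 1 (by norm_num)
    push_cast at this
    have e : -(I * z) = -1 * I * z := by ring
    rw [e, this]; simpa using h
  have k1 : ‖cexp (2 * I * z) + cexp (-(2 * I * z))‖ / ‖(2 : ℂ)‖ ≤ Real.exp (2 * |z.im|) := by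
    have h := norm_add_le (cexp (2 * I * z)) (cexp (-(2 * I * z)))
    rw [Complex.norm_ofNat, div_le_iff₀ (by norm_num)]
    linarith
  have k2 : ‖cexp (I * z) + cexp (-(I * z)) - 2‖ ≤ 4 * Real.exp |z.im| := by
    have h := norm_sub_le (cexp (I * z) + cexp (-(I * z))) 2
    have h' := norm_add_le (cexp (I * z)) (cexp (-(I * z)))
    rw [Complex.norm_ofNat] at h
    have h1 : 1 ≤ Real.exp |z.im| := Real.one_le_exp (abs_nonneg _)
    linarith
  have hz0 : 0 < ‖z‖ := norm_pos_iff.mpr hz
  rw [n1]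
  have e3 : Real.exp (3 * |z.im|) = Real.exp (2 * |z.im|) * Real.exp |z.im| := by
    rw [← Real.exp_add]; congr 1; ring
  calc ‖cexp (2 * I * z) + cexp (-(2 * I * z))‖ / ‖(2 : ℂ)‖ *
      (‖cexp (I * z) + cexp (-(I * z)) - 2‖ / ‖z‖ ^ 2) ≤
      Real.exp (2 * |z.im|) * (4 * Real.exp |z.im| / ‖z‖ ^ 2) := by gcongr
    _ = _ := by rw [e3]; ring

lemma norm_kap_decay (z : ℂ) : ‖kap z‖ ≤ 8 * Real.exp (3 * |z.im|) / (1 + z.re ^ 2) := by
  have hE : 0 < Real.exp (3 * |z.im|) := Real.exp_pos _
  have hp : 0 < 1 + z.re ^ 2 := by positivity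
  rcases le_total 1 ‖z‖ with h | h
  · have hz : z ≠ 0 := by rintro rfl; simp at h; linarith
    refine (norm_kap_decay0 hz).trans ?_
    rw [div_le_div_iff₀ (by positivity) hp]
    have h1 : z.re ^ 2 ≤ ‖z‖ ^ 2 := by
      have := Complex.abs_re_le_norm z
      rw [← sq_abs]; gcongr
    have h2 : 1 ≤ ‖z‖ ^ 2 := by nlinarith
    nlinarith
  · refine (norm_kap_le z).trans ?_
    rw [le_div_iff₀ hp]
    have h1 : z.re ^ 2 ≤ 1 := by
      have := Complex.abs_re_le_norm z
      rw [← sq_abs]; nlinarith [abs_nonneg z.re]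
    nlinarith

lemma kap_neg (z : ℂ) : kap (-z) = kap z := by
  unfold kap
  have := intervalIntegral.integral_comp_neg (a := (-3 : ℝ)) (b := 3)
    (fun u : ℝ => (om u : ℂ) * cexp (I * u * z))
  rw [neg_neg] at this
  rw [← this]
  refine intervalIntegral.integral_congr fun u _ => ?_
  simp only [om_even]
  congr 2
  push_cast; ring

lemma kap_conj (z : ℂ) : conj (kap z) = kap (conj z) := by
  rw [← kap_neg (conj z)]
  unfold kap
  rw [intervalIntegral.integral_of_le (by norm_num), intervalIntegral.integral_of_le (by norm_num),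
    ← integral_conj]
  refine integral_congr_ae (Filter.Eventually.of_forall fun u => ?_)
  simp only [map_mul, Complex.conj_ofReal]
  rw [← Complex.exp_conj]
  congr 2
  simp

/-- the kernel on the real line -/
noncomputable def kr (x : ℝ) : ℝ := ∫ u in (-3 : ℝ)..3, om u * Real.cos (u * x)

lemma kap_real (x : ℝ) : kap x = (kr x : ℂ) := by
  have h1 : kap x = ((kap x).re : ℂ) := by
    have := kap_conj (x : ℂ)
    rw [Complex.conj_ofReal] at this
    exact (Complex.conj_eq_iff_re.mp this).symm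
  rw [h1]
  congr 1
  have h2 : (kap x).re = ∫ u in (-3 : ℝ)..3, ((om u : ℂ) * cexp (I * u * x)).re := by
    unfold kap
    have := intervalIntegral.intervalIntegral_re (μ := volume) (a := (-3 : ℝ)) (b := 3)
      ((oc (x : ℂ)).intervalIntegrable (-3) 3)
    exact this.symm
  rw [h2]
  unfold kr
  refine intervalIntegral.integral_congr fun u _ => ?_
  have e : I * (u : ℂ) * (x : ℂ) = ((u * x : ℝ) : ℂ) * I := by push_cast; ring
  simp only [e]
  rw [Complex.re_ofReal_mul, Complex.exp_ofReal_mul_I_re]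

lemma oc_cos (x : ℝ) : Continuous fun u : ℝ => om u * Real.cos (u * x) := by
  have := om_cont
  fun_prop

lemma abs_kr_le (x : ℝ) : |kr x| ≤ 1 := by
  have h := norm_kap_le (x : ℂ)
  rw [kap_real, Complex.norm_real, Complex.ofReal_im, abs_zero, mul_zero, Real.exp_zero] at h
  exact h

lemma kr_lip (x y : ℝ) : |kr x - kr y| ≤ 3 * |x - y| := by
  unfold kr
  rw [← intervalIntegral.integral_sub ((oc_cos x).intervalIntegrable _ _)
    ((oc_cos y).intervalIntegrable _ _), ← Real.norm_eq_abs]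
  have h1 : ‖∫ u in (-3 : ℝ)..3, (om u * Real.cos (u * x) - om u * Real.cos (u * y))‖ ≤
      ∫ u in (-3 : ℝ)..3, om u * (3 * |x - y|) := by
    refine intervalIntegral.norm_integral_le_of_norm_le (by norm_num) ?_ ?_
    · refine Filter.Eventually.of_forall fun u hu => ?_
      rw [← mul_sub, norm_mul, Real.norm_eq_abs, abs_of_nonneg (om_nonneg u)]
      refine mul_le_mul_of_nonneg_left ?_ (om_nonneg u)
      have h3 : ‖Real.cos (u * x) - Real.cos (u * y)‖ ≤ |u * x - u * y| := by
        rw [Real.norm_eq_abs]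
        exact Real.abs_cos_sub_cos_le _ _
      refine h3.trans ?_
      rw [← mul_sub, abs_mul]
      refine mul_le_mul_of_nonneg_right ?_ (abs_nonneg _)
      rw [abs_le]; exact ⟨hu.1.le, hu.2⟩
    · exact (om_cont.mul continuous_const).intervalIntegrable _ _
  rw [intervalIntegral.integral_mul_const, int_om, one_mul] at h1
  exact h1

lemma kr_zero : kr 0 = 1 := by
  have h := kap_zero
  have h2 := kap_real 0
  rw [Complex.ofReal_zero, h] at h2
  exact_mod_cast h2.symm

lemma kr_even (x : ℝ) : kr (-x) = kr x := by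
  unfold kr
  refine intervalIntegral.integral_congr fun u _ => ?_
  simp only [mul_neg, Real.cos_neg]

lemma kr_cont : Continuous kr := by
  have : LipschitzWith (3 : ℝ).toNNReal kr := by
    refine LipschitzWith.of_dist_le_mul fun x y => ?_
    rw [Real.dist_eq, Real.dist_eq, Real.coe_toNNReal _ (by norm_num)]
    exact kr_lip x y
  exact this.continuous

end Pool.Agent.H444
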