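import Pool.Agent.H444.Kern2

open Complex MeasureTheory Set Filter Topology
open scoped ComplexConjugate

namespace Pool.Agent.H444

/-- the transform over `[-3, 3]` -/
noncomputable def KI (o : ℝ → ℝ) (z : ℂ) : ℂ := ∫ u in (-3 : ℝ)..3, (o u : ℂ) * cexp (I * u * z)

lemma KI_diff {o : ℝ → ℝ} (hc : Continuous o) (h0 : ∀ u, 0 ≤ o u) (h1 : ∀ u, o u ≤ 1) :
    Differentiable ℂ (KI o) := by
  intro z
  have hcc : ∀ w : ℂ, Continuous fun u : ℝ => (o u : ℂ) * cexp (I * u * w) := by
    intro w
    fun_prop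
  have h := intervalIntegral.hasDerivAt_integral_of_dominated_loc_of_deriv_le (μ := volume)
    (a := (-3 : ℝ)) (b := 3) (F := fun (w : ℂ) (u : ℝ) => (o u : ℂ) * cexp (I * u * w))
    (F' := fun (w : ℂ) (u : ℝ) => (o u : ℂ) * (cexp (I * u * w) * (I * u)))
    (x₀ := z) (s := Metric.ball z 1) (bound := fun _ => 1 * (Real.exp (3 * (|z.im| + 1)) * 3))
    (Metric.ball_mem_nhds z one_pos)
    (Filter.Eventually.of_forall fun w => ((hcc w).aestronglyMeasurable))
    ((hcc z).intervalIntegrable _ _)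
    (by
      exact Continuous.aestronglyMeasurable (by fun_prop))
    (by
      refine Filter.Eventually.of_forall fun u hu w hw => ?_
      rw [Set.uIoc_of_le (by norm_num)] at hu
      have hu3 : |u| ≤ 3 := by rw [abs_le]; exact ⟨hu.1.le, hu.2⟩
      rw [norm_mul, norm_mul, norm_mul, Complex.norm_I, one_mul, Complex.norm_real,
        Complex.norm_real, Real.norm_eq_abs, Real.norm_eq_abs, abs_of_nonneg (h0 u)]
      have h1 : o u ≤ 1 := h1 u
      have h2 : |w.im| ≤ |z.im| + 1 := by
        rw [Metric.mem_ball, dist_eq_norm] at hw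
        have h3 := (Complex.abs_im_le_norm (w - z)).trans hw.le
        rw [Complex.sub_im] at h3
        have h4 := abs_sub_abs_le_abs_sub w.im z.im
        linarith
      have h3 : ‖cexp (I * u * w)‖ ≤ Real.exp (3 * (|z.im| + 1)) := by
        refine (norm_exp_le hu3 w).trans ?_
        rw [Real.exp_le_exp]; linarith
      have h0 := h0 u
      gcongr)
    (by simp)
    (by
      refine Filter.Eventually.of_forall fun u _ w _ => ?_
      have h1 : HasDerivAt (fun w : ℂ => I * u * w) (I * u) w := by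
        simpa using (hasDerivAt_id w).const_mul (I * (u : ℂ))
      exact (h1.cexp).const_mul _)
  exact h.2.differentiableAt

/-- Cauchy's estimate for the second derivative -/
lemma deriv2_le {f : ℂ → ℂ} (hf : Differentiable ℂ f) {c : ℂ} {R C : ℝ} (hR : 0 < R)
    (hC : ∀ z, ‖z - c‖ = R → ‖f z‖ ≤ C) : ‖deriv (deriv f) c‖ ≤ 2 * C / R ^ 2 := by
  have h := Complex.norm_iteratedDeriv_le_of_forall_mem_sphere_norm_le (n := 2) (c := c) (f := f)
    (C := C) hR (hf.diffContOnCl) (fun z hz => hC z (by simpa [dist_eq_norm] using hz))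
  rw [iteratedDeriv_succ, iteratedDeriv_one] at h
  simpa using h

/-- the second difference in the imaginary direction -/
lemma second_diff {f : ℂ → ℂ} (hf : Differentiable ℂ f) {x y S : ℝ}
    (hS : ∀ s : ℝ, |s| ≤ |y| → ‖deriv (deriv f) (x + I * s)‖ ≤ S) :
    ‖f (x + I * y) + f (x - I * y) - 2 * f x‖ ≤ 2 * y ^ 2 * S := by
  wlog hy : 0 ≤ y with H
  · have h := H hf (y := -y) (fun s hs => hS s (by rwa [abs_neg] at hs)) (by linarith)
    have e1 : (x : ℂ) + I * ((-y : ℝ) : ℂ) = x - I * y := by push_cast; ring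
    have e2 : (x : ℂ) - I * ((-y : ℝ) : ℂ) = x + I * y := by push_cast; ring
    rw [e1, e2, neg_sq] at h
    rw [add_comm (f (x + I * y))]
    exact h
  rw [abs_of_nonneg hy] at hS
  have hdf : Differentiable ℂ (deriv f) := by
    intro z
    exact (hf.analyticAt z).deriv.differentiableAt
  have hS0 : 0 ≤ S := (norm_nonneg _).trans (hS 0 (by simpa using hy))
  -- the derivative of `f` on the vertical line
  have hline : ∀ (g : ℂ → ℂ) (_ : Differentiable ℂ g) (e : ℂ) (s : ℝ),
      HasDerivAt (fun s : ℝ => g (x + e * s)) (e * deriv g (x + e * s)) s := by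
    intro g hg e s
    have h1 : HasDerivAt (fun s : ℝ => (x : ℂ) + e * (s : ℂ)) e s := by
      simpa using ((Complex.ofRealCLM.hasDerivAt (x := s)).const_mul e).const_add (x : ℂ)
    have h2 := (hg (x + e * s)).hasDerivAt.scomp s h1
    rw [smul_eq_mul] at h2
    exact h2
  have h1 : ∀ s : ℝ, 0 ≤ s → s ≤ y → ‖deriv f (x + I * s) - deriv f (x - I * s)‖ ≤ 2 * y * S := by
    intro s hs0 hsy
    have h2 := (convex_Icc (-s) s).norm_image_sub_le_of_norm_hasDerivWithin_le
      (f := fun s : ℝ => deriv f (x + I * s)) (f' := fun s : ℝ => I * deriv (deriv f) (x + I * s))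
      (C := S) (x := -s) (y := s) (fun r _ => (hline (deriv f) hdf I r).hasDerivWithinAt)
      (fun r hr => by
        rw [norm_mul, Complex.norm_I, one_mul]
        refine hS r ?_
        rw [abs_le]; exact ⟨by linarith [hr.1], by linarith [hr.2]⟩)
      ⟨le_rfl, by linarith⟩ ⟨by linarith, le_rfl⟩
    have e1 : (x : ℂ) + I * ((-s : ℝ) : ℂ) = x - I * s := by push_cast; ring
    simp only [e1] at h2
    refine h2.trans ?_
    rw [Real.norm_eq_abs, abs_of_nonneg (by linarith : 0 ≤ s - -s)]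
    nlinarith
  have h3 := (convex_Icc (0 : ℝ) y).norm_image_sub_le_of_norm_hasDerivWithin_le
    (f := fun s : ℝ => f (x + I * s) + f (x + (-I) * s))
    (f' := fun s : ℝ => I * deriv f (x + I * s) + (-I) * deriv f (x + (-I) * s))
    (C := 2 * y * S) (x := 0) (y := y)
    (fun r _ => ((hline f hf I r).add (hline f hf (-I) r)).hasDerivWithinAt)
    (fun r hr => by
      have e1 : I * deriv f (x + I * r) + (-I) * deriv f (x + (-I) * r) =
        I * (deriv f (x + I * r) - deriv f (x - I * r)) := by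
        have : (x : ℂ) + (-I) * r = x - I * r := by ring
        rw [this]; ring
      rw [e1, norm_mul, Complex.norm_I, one_mul]
      exact h1 r hr.1 hr.2)
    ⟨le_rfl, hy⟩ ⟨hy, le_rfl⟩
  have e2 : f (x + I * y) + f (x - I * y) - 2 * f x =
      (f (x + I * y) + f (x + (-I) * y)) - (f (x + I * ((0 : ℝ) : ℂ)) + f (x + (-I) * ((0 : ℝ) : ℂ))) := by
    have : (x : ℂ) + (-I) * y = x - I * y := by ring
    rw [this]
    simp
    ring
  rw [e2]
  refine h3.trans ?_
  rw [sub_zero, Real.norm_eq_abs, abs_of_nonneg hy]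
  nlinarith

/-- the properties of the kernels which are used -/
structure GK (k : ℂ → ℂ) : Prop where
  diff : Differentiable ℂ k
  dec : ∀ z : ℂ, ‖k z‖ ≤ 8 * Real.exp (3 * |z.im|) / (1 + z.re ^ 2)

lemma gk_kap : GK kap := by
  refine ⟨?_, norm_kap_decay⟩
  exact KI_diff om_cont om_nonneg (fun u => (om_le u).trans (by norm_num))

lemma SS_KI (z : ℂ) : SS z = KI tent z := by
  have h1 : Continuous fun u : ℝ => (tent u : ℂ) * cexp (I * u * z) := tc z
  unfold SS KI
  rw [intervalIntegral.integral_of_le (by norm_num), intervalIntegral.integral_of_le (by norm_num)]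
  refine (setIntegral_eq_of_subset_of_forall_sdiff_eq_zero measurableSet_Ioc
    (Ioc_subset_Ioc (by norm_num) (by norm_num)) fun u hu => ?_).symm
  have : tent u = 0 := by
    refine tent_zero ?_
    by_contra hcon
    push Not at hcon
    rw [abs_lt] at hcon
    exact hu.2 ⟨hcon.1, hcon.2.le⟩
  rw [this]; simp

lemma int_tent : ∫ u in (-1 : ℝ)..1, tent u = 1 := by
  have h := SS_zero
  unfold SS at h
  have e1 : ∫ u in (-1 : ℝ)..1, (tent u : ℂ) * cexp (I * u * 0) =
      ((∫ u in (-1 : ℝ)..1, tent u : ℝ) : ℂ) := by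
    rw [← intervalIntegral.integral_ofReal]
    refine intervalIntegral.integral_congr fun u _ => ?_
    simp
  rw [e1] at h
  exact_mod_cast h

lemma norm_SS_le (z : ℂ) : ‖SS z‖ ≤ Real.exp (3 * |z.im|) := by
  have h1 : ‖SS z‖ ≤ ∫ u in (-1 : ℝ)..1, tent u * Real.exp (3 * |z.im|) := by
    unfold SS
    refine intervalIntegral.norm_integral_le_of_norm_le (by norm_num) ?_ ?_
    · refine Filter.Eventually.of_forall fun u hu => ?_
      rw [norm_mul, Complex.norm_real, Real.norm_eq_abs, abs_of_nonneg (tent_nonneg u)]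
      refine mul_le_mul_of_nonneg_left (norm_exp_le ?_ z) (tent_nonneg u)
      rw [abs_le]; exact ⟨by linarith [hu.1], by linarith [hu.2]⟩
    · exact (tent_cont.mul continuous_const).intervalIntegrable _ _
  rw [intervalIntegral.integral_mul_const, int_tent, one_mul] at h1
  exact h1

lemma gk_SS : GK SS := by
  refine ⟨?_, fun z => ?_⟩
  · have : SS = KI tent := funext SS_KI
    rw [this]
    exact KI_diff tent_cont tent_nonneg tent_le_one
  · have hE : 0 < Real.exp (3 * |z.im|) := Real.exp_pos _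
    have hp : 0 < 1 + z.re ^ 2 := by positivity
    rcases le_total 1 ‖z‖ with h | h
    · have hz : z ≠ 0 := by rintro rfl; simp at h; linarith
      have h0 : ‖SS z‖ ≤ 4 * Real.exp (3 * |z.im|) / ‖z‖ ^ 2 := by
        rw [SS_eq hz, norm_div]
        have n1 : ‖(I * z) ^ 2‖ = ‖z‖ ^ 2 := by simp
        rw [n1]
        have m3 : ‖cexp (I * z)‖ ≤ Real.exp (3 * |z.im|) := by
          rw [Complex.norm_exp, Real.exp_le_exp]
          simp only [Complex.mul_re, Complex.I_re, Complex.I_im, zero_mul, one_mul, zero_sub]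
          nlinarith [neg_le_abs z.im, abs_nonneg z.im]
        have m4 : ‖cexp (-(I * z))‖ ≤ Real.exp (3 * |z.im|) := by
          rw [Complex.norm_exp, Real.exp_le_exp]
          simp only [Complex.neg_re, Complex.mul_re, Complex.I_re, Complex.I_im, zero_mul,
            one_mul, zero_sub, neg_neg]
          nlinarith [le_abs_self z.im, abs_nonneg z.im]
        have k2 : ‖cexp (I * z) + cexp (-(I * z)) - 2‖ ≤ 4 * Real.exp (3 * |z.im|) := by
          have h := norm_sub_le (cexp (I * z) + cexp (-(I * z))) 2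
          have h' := norm_add_le (cexp (I * z)) (cexp (-(I * z)))
          rw [Complex.norm_ofNat] at h
          have h1 : 1 ≤ Real.exp (3 * |z.im|) := Real.one_le_exp (by positivity)
          linarith
        gcongr
      refine h0.trans ?_
      rw [div_le_div_iff₀ (by positivity) hp]
      have h1 : z.re ^ 2 ≤ ‖z‖ ^ 2 := by
        have := Complex.abs_re_le_norm z
        rw [← sq_abs]; gcongr
      have h2 : 1 ≤ ‖z‖ ^ 2 := by nlinarith
      nlinarith
    · refine (norm_SS_le z).trans ?_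
      rw [le_div_iff₀ hp]
      have h1 : z.re ^ 2 ≤ 1 := by
        have := Complex.abs_re_le_norm z
        rw [← sq_abs]; nlinarith [abs_nonneg z.re]
      nlinarith

/-- the rescaled kernel with the Gaussian weight -/
noncomputable def kg (k : ℂ → ℂ) (a : ℝ) (z : ℂ) : ℂ := k (a * z) * cexp (-z ^ 2 / 2)

lemma kg_diff {k : ℂ → ℂ} (hk : GK k) (a : ℝ) : Differentiable ℂ (kg k a) := by
  unfold kg
  have := hk.diff
  fun_prop

lemma norm_gauss (z : ℂ) : ‖cexp (-z ^ 2 / 2)‖ = Real.exp ((z.im ^ 2 - z.re ^ 2) / 2) := by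
  rw [Complex.norm_exp]
  congr 1
  have : (-z ^ 2 / 2).re = -(z ^ 2).re / 2 := by simp
  rw [this, sq, Complex.mul_re]
  ring

lemma norm_kg_le {k : ℂ → ℂ} (hk : GK k) {a : ℝ} (ha : 0 < a) {z : ℂ} (hz : |z.im| ≤ 1) :
    ‖kg k a z‖ ≤ 16 * Real.exp (3 * a * |z.im|) / (1 + (a * z.re) ^ 2) := by
  unfold kg
  rw [norm_mul, norm_gauss]
  have h1 := hk.dec ((a : ℂ) * z)
  have e1 : ((a : ℂ) * z).re = a * z.re := by simp
  have e2 : ((a : ℂ) * z).im = a * z.im := by simp
  rw [e1, e2, abs_mul, abs_of_pos ha] at h1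
  have h2 : Real.exp ((z.im ^ 2 - z.re ^ 2) / 2) ≤ 2 := by
    have h3 : (z.im ^ 2 - z.re ^ 2) / 2 ≤ 1 / 2 := by
      have : z.im ^ 2 ≤ 1 := by rw [← sq_abs]; nlinarith [abs_nonneg z.im]
      nlinarith [sq_nonneg z.re]
    refine (Real.exp_le_exp.mpr h3).trans ?_
    have h4 := Real.exp_one_lt_d9
    have h5 : Real.exp (1 / 2) ^ 2 = Real.exp 1 := by rw [← Real.exp_nat_mul]; norm_num
    nlinarith [Real.exp_pos (1 / 2 : ℝ)]
  have e3 : 3 * (a * |z.im|) = 3 * a * |z.im| := by ring
  rw [e3] at h1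
  calc ‖k ((a : ℂ) * z)‖ * Real.exp ((z.im ^ 2 - z.re ^ 2) / 2) ≤
      (8 * Real.exp (3 * a * |z.im|) / (1 + (a * z.re) ^ 2)) * 2 := by gcongr
    _ = _ := by ring

/-- the second derivative of `kg` in the strip -/
lemma kg_deriv2 {k : ℂ → ℂ} (hk : GK k) {a : ℝ} (ha : 2 ≤ a) {x s y : ℝ} (hs : |s| ≤ |y|)
    (hy : |y| ≤ 1 / 2) :
    ‖deriv (deriv (kg k a)) (x + I * s)‖ ≤
      2016 * a ^ 2 * Real.exp (3 * a * |y|) / (1 + (a * x) ^ 2) := by
  have ha0 : 0 < a := by linarith
  have h := deriv2_le (kg_diff hk a) (c := x + I * s) (R := 1 / a)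
    (C := 16 * Real.exp (3 * a * |y| + 3) * 3 / (1 + (a * x) ^ 2)) (by positivity) (by
      intro z hz
      have hre : (x + I * s : ℂ).re = x := by simp
      have him : (x + I * s : ℂ).im = s := by simp
      have h1 : |z.re - x| ≤ 1 / a := by
        have := Complex.abs_re_le_norm (z - (x + I * s))
        rwa [hz, Complex.sub_re, hre] at this
      have h2 : |z.im - s| ≤ 1 / a := by
        have := Complex.abs_im_le_norm (z - (x + I * s))
        rwa [hz, Complex.sub_im, him] at this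
      have h3 : 1 / a ≤ 1 / 2 := one_div_le_one_div_of_le (by norm_num) ha
      have h4 : |z.im| ≤ |y| + 1 / a := by
        have := abs_sub_abs_le_abs_sub z.im s
        linarith
      refine (norm_kg_le hk ha0 (by linarith)).trans ?_
      have h5 : 3 * a * |z.im| ≤ 3 * a * |y| + 3 := by
        have : 3 * a * |z.im| ≤ 3 * a * (|y| + 1 / a) := by gcongr
        refine this.trans (le_of_eq ?_)
        field_simp
      have h6 : 1 + (a * x) ^ 2 ≤ 3 * (1 + (a * z.re) ^ 2) := by
        have h7 : |a * z.re - a * x| ≤ 1 := by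
          rw [← mul_sub, abs_mul, abs_of_pos ha0]
          calc a * |z.re - x| ≤ a * (1 / a) := by gcongr
            _ = 1 := by field_simp
        rw [abs_le] at h7
        nlinarith [sq_nonneg (a * z.re - (a * x - a * z.re)), sq_nonneg (a * z.re)]
      rw [div_le_div_iff₀ (by positivity) (by positivity)]
      have h8 := Real.exp_le_exp.mpr h5
      have h9 : 0 < Real.exp (3 * a * |z.im|) := Real.exp_pos _
      calc 16 * Real.exp (3 * a * |z.im|) * (1 + (a * x) ^ 2) ≤
          16 * Real.exp (3 * a * |y| + 3) * (3 * (1 + (a * z.re) ^ 2)) := by gcongr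
        _ = _ := by ring)
  refine h.trans ?_
  have h3 : Real.exp 3 ≤ 21 := by
    have h4 := Real.exp_one_lt_d9
    have h5 : Real.exp 1 ^ 3 = Real.exp 3 := by rw [← Real.exp_nat_mul]; norm_num
    rw [← h5]
    calc Real.exp 1 ^ 3 ≤ 2.7182818286 ^ 3 := by gcongr
      _ ≤ 21 := by norm_num
  have e1 : Real.exp (3 * a * |y| + 3) = Real.exp (3 * a * |y|) * Real.exp 3 := Real.exp_add _ _
  rw [e1]
  have e2 : 2 * (16 * (Real.exp (3 * a * |y|) * Real.exp 3) * 3 / (1 + (a * x) ^ 2)) / (1 / a) ^ 2 =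
      96 * Real.exp 3 * a ^ 2 * Real.exp (3 * a * |y|) / (1 + (a * x) ^ 2) := by
    field_simp
    ring
  rw [e2]
  gcongr
  linarith

/-- the second difference of the weighted kernel -/
lemma kg_second {k : ℂ → ℂ} (hk : GK k) {a : ℝ} (ha : 2 ≤ a) (x : ℝ) {y : ℝ} (hy : |y| ≤ 1 / 2) :
    ‖kg k a (x + I * y) + kg k a (x - I * y) - 2 * kg k a x‖ ≤
      4032 * y ^ 2 * a ^ 2 * Real.exp (3 * a * |y|) * (1 / (1 + (a * x) ^ 2)) := by
  have h3 := second_diff (kg_diff hk a) (x := x) (y := y)
    (S := 2016 * a ^ 2 * Real.exp (3 * a * |y|) / (1 + (a * x) ^ 2))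
    (fun s hs => kg_deriv2 hk ha hs hy)
  refine h3.trans (le_of_eq ?_)
  ring

end Pool.Agent.H444
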