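import Pool.Agent.H444.UI2

/-! The exceptional set. -/

open Complex Filter Topology Set MeasureTheory
open scoped BigOperators ComplexConjugate

namespace Pool.Agent.H444

open H370

theorem main_exc {ℓ ε : ℝ} (hℓ : 1 ≤ ℓ) (hε : 0 < ε) :
    ∃ (n : ℕ) (r M : ℝ), 1 ≤ n ∧ 0 < r ∧ ℓ ≤ M ∧ 6 * Real.pi * r ≤ ε ∧
      3 * r * (1 + 2 * Real.pi * ℓ) ≤ ε ∧ ∃ T0 : ℝ, 100 ≤ T0 ∧ ∀ T : ℝ, T0 ≤ T →
      ∀ H : ℝ, T / Real.log T ≤ H → H ≤ T / 2 → ∀ t0 : ℝ, T ≤ t0 → t0 ≤ 2 * T →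
      1 ≤ Real.log T ∧ 2 * Real.pi * M < Real.log T ∧
      H * Real.log T / (4 * Real.pi) ≤ NN riemannZeta t0 (t0 + H) ∧
      ∃ E : Set ℝ, MeasurableSet E ∧ volume E ≤ ENNReal.ofReal (ε * H) ∧
        ∫ t in E, CC riemannZeta t0 (t0 + H) (1 / Real.log T) t ≤ ε / 8 * H ∧
        ∀ t : ℝ, t0 ≤ t → t ≤ t0 + H → (∃ t', t' ∉ E ∧ |t' - t| ≤ 1 / Real.log T) →
          t0 + 1 ≤ t ∧ t ≤ t0 + H - 1 ∧
          |VV riemannZeta n r t0 (t0 + H) (Real.log T) (2 * Real.pi * M / Real.log T) t| ≤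
            3 * ε / 8 ∧
          3 * r * (1 + 2 * Real.pi * ℓ) *
            CC riemannZeta t0 (t0 + H) (2 * Real.pi * ℓ / Real.log T) t ≤ ε / 4 := by
  have hpi := Real.pi_pos
  have hpi3 := Real.pi_gt_three
  obtain ⟨κ1, hκ1, T1, hT1, hUI⟩ := UI_zeta (ε := ε / 8) (by positivity)
  set κ : ℝ := min κ1 ε with hκ
  have hκ0 : 0 < κ := lt_min hκ1 hε
  have hκκ1 : κ ≤ κ1 := min_le_left _ _
  have hκε : κ ≤ ε := min_le_right _ _
  obtain ⟨CD, hCD, T2, hT2, hdens⟩ := dens_sum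
  -- the parameters
  set B : ℝ := 8 * (2 * Real.pi * ℓ + 1) / κ with hB
  have hB0 : 0 < B := by positivity
  set r : ℝ := min (min (1 / 25) (ε / (6 * Real.pi)))
    (min (ε / (3 * (1 + 2 * Real.pi * ℓ) * 4 * (B + 1)))
      (κ * ε / (16 * 8 * (2016 * Real.pi * CD)))) with hr
  have hr0 : 0 < r := by
    rw [hr]
    refine lt_min (lt_min (by norm_num) (by positivity)) (lt_min (by positivity) (by positivity))
  have hr1 : r ≤ 1 / 25 := (min_le_left _ _).trans (min_le_left _ _)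
  have hr2 : 6 * Real.pi * r ≤ ε := by
    have h : r ≤ ε / (6 * Real.pi) := (min_le_left _ _).trans (min_le_right _ _)
    rw [le_div_iff₀ (by positivity)] at h
    linarith
  have hr3 : 3 * r * (1 + 2 * Real.pi * ℓ) * (4 * (B + 1)) ≤ ε := by
    have h : r ≤ ε / (3 * (1 + 2 * Real.pi * ℓ) * 4 * (B + 1)) :=
      (min_le_right _ _).trans (min_le_left _ _)
    rw [le_div_iff₀ (by positivity)] at h
    linarith
  have hr4 : 8 / ε * (2016 * Real.pi * CD * r) ≤ κ / 16 := by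
    have h : r ≤ κ * ε / (16 * 8 * (2016 * Real.pi * CD)) :=
      (min_le_right _ _).trans (min_le_right _ _)
    rw [le_div_iff₀ (by positivity)] at h
    rw [div_mul_eq_mul_div, div_le_iff₀ hε]
    linarith
  set θ : ℝ := ε / 8 with hθ
  have hθ0 : 0 < θ := by positivity
  obtain ⟨n, hn⟩ := exists_nat_gt (8 / ε * (1 / θ) * (3 / 2) * 16 / κ)
  have hn0 : (0 : ℝ) < n := lt_trans (by positivity) hn
  have hn1 : 1 ≤ n := by exact_mod_cast hn0
  have hn2 : 8 / ε * (1 / θ) * (3 / 2 * (1 / n)) ≤ κ / 16 := by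
    rw [div_lt_iff₀ hκ0] at hn
    have e : 8 / ε * (1 / θ) * (3 / 2 * (1 / (n : ℝ))) = (8 / ε * (1 / θ) * (3 / 2)) / n := by ring
    rw [e, div_le_iff₀ hn0]
    linarith
  set ε2 : ℝ := min (1 / 2) (κ / 16 / (8 / ε * (1 / θ))) with hε2
  have hε20 : 0 < ε2 := lt_min (by norm_num) (by positivity)
  have hε21 : ε2 ≤ 1 / 2 := min_le_left _ _
  have hε22 : 8 / ε * (1 / θ) * ε2 ≤ κ / 16 := by
    have h : ε2 ≤ κ / 16 / (8 / ε * (1 / θ)) := min_le_right _ _
    rw [le_div_iff₀ (by positivity)] at h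
    linarith
  set M : ℝ := max ℓ (8 / ε * (20 * 16 ^ n / r ^ 2) * 16 / κ) with hM
  have hMℓ : ℓ ≤ M := le_max_left _ _
  have hM1 : 1 ≤ M := hℓ.trans hMℓ
  have hM0 : 0 < M := by linarith
  have hM2 : 8 / ε * (20 * 16 ^ n / (r ^ 2 * M)) ≤ κ / 16 := by
    have h : 8 / ε * (20 * 16 ^ n / r ^ 2) * 16 / κ ≤ M := le_max_right _ _
    rw [div_le_iff₀ hκ0] at h
    have e : 8 / ε * (20 * 16 ^ n / (r ^ 2 * M)) = (8 / ε * (20 * 16 ^ n / r ^ 2)) / M := by
      field_simp
    rw [e, div_le_iff₀ hM0]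
    linarith
  obtain ⟨T3, hT3, hW⟩ := WW_small good_zeta (a := H370.A2.lamC) H370.A2.lamC_norm
    (fun s h1 h2 => zeta_ld s h1 h2) hn1 (η0 := 1 / 2) (ε := ε2) hr0
    (by linarith) (by norm_num) hε20
  obtain ⟨T4, hT4, hpow⟩ := rpow_half_le
  obtain ⟨T5, hT5⟩ := (Real.tendsto_log_atTop.eventually_ge_atTop
    (2 * Real.pi * M + 2 / (r / 4 ^ n) + (8 / ε * (80 * Real.pi ^ 4 * M ^ 3)) * 16 / κ
      + 64 / κ)).exists_forall_of_atTop
  refine ⟨n, r, M, hn1, hr0, hMℓ, hr2, ?_, max (max T1 T2) (max T3 (max T4 T5)),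
    (hT1.trans (le_max_left _ _)).trans (le_max_left _ _), fun T hT H hH1 hH2 t0 ht1 ht2 => ?_⟩
  · have h1 : (1 : ℝ) ≤ 4 * (B + 1) := by linarith
    have h2 : 0 ≤ 3 * r * (1 + 2 * Real.pi * ℓ) := by positivity
    exact (le_mul_of_one_le_right h2 h1).trans hr3
  have hTT1 : T1 ≤ T := ((le_max_left _ _).trans (le_max_left _ _)).trans hT
  have hTT2 : T2 ≤ T := ((le_max_right _ _).trans (le_max_left _ _)).trans hT
  have hTT3 : T3 ≤ T := ((le_max_left _ _).trans (le_max_right _ _)).trans hT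
  have hTT4 : T4 ≤ T :=
    (((le_max_left _ _).trans (le_max_right _ _)).trans (le_max_right _ _)).trans hT
  have hTT5 : T5 ≤ T :=
    (((le_max_right _ _).trans (le_max_right _ _)).trans (le_max_right _ _)).trans hT
  have hT100 : 100 ≤ T := hT1.trans hTT1
  have hTpos : 0 < T := by linarith
  have hU : 1 ≤ t0 := by linarith
  have hHp : T ^ (1 / 2 : ℝ) ≤ H := (hpow T hTT4).trans hH1
  obtain ⟨w1, w2, w3⟩ := hW T hTT3 H hHp hH2 t0 ht1 ht2
  have hL5 := hT5 T hTT5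
  have hUI' := hUI T hTT1 H hH1 hH2 t0 ht1 ht2
  have hds' := hdens T hTT2 H hH1 hH2 t0 ht1 ht2 (3 * r) (by positivity) (by linarith)
  set L := Real.log T with hL
  have p1 : 0 < 2 * Real.pi * M := by positivity
  have p2 : 0 < 2 / (r / 4 ^ n) := by positivity
  have p3 : 0 < (8 / ε * (80 * Real.pi ^ 4 * M ^ 3)) * 16 / κ := by positivity
  have p4 : 0 < 64 / κ := by positivity
  have hLM : 2 * Real.pi * M < L := by linarith
  have hLn : 2 / (r / 4 ^ n) ≤ L := by linarith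
  have hLM3 : (8 / ε * (80 * Real.pi ^ 4 * M ^ 3)) * 16 / κ ≤ L := by linarith
  have hL64 : 64 / κ ≤ L := by linarith
  have h6M : 2 ≤ 2 * Real.pi * M := by nlinarith only [hM1, hpi3]
  have hL1 : 1 ≤ L := by linarith
  have hL0 : 0 < L := by linarith
  have hrL : 2 ≤ r / 4 ^ n * L := by
    rw [div_le_iff₀ (by positivity)] at hLn
    linarith
  have hHpos : 0 < H := lt_of_lt_of_le (by positivity) hH1
  have hNN : (NN riemannZeta t0 (t0 + H) : ℝ) ≤ H * L := by
    have h1 := (abs_le.mp w1).2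
    have h2 : H * L / (2 * Real.pi) ≤ H * L / 2 := by
      apply div_le_div_of_nonneg_left (by positivity) (by norm_num)
      linarith
    have h3 : 0 ≤ H * L / (2 * Real.pi) := by positivity
    have h4 : ε2 * (H * L / (2 * Real.pi)) ≤ 1 / 2 * (H * L / (2 * Real.pi)) :=
      mul_le_mul_of_nonneg_right hε21 h3
    have h5 : 0 < H * L := by positivity
    linarith
  have hNN2 : H * L / (4 * Real.pi) ≤ NN riemannZeta t0 (t0 + H) := by
    have h1 := (abs_le.mp w1).1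
    have h3 : 0 ≤ H * L / (2 * Real.pi) := by positivity
    have h4 : H * L / (4 * Real.pi) = 1 / 2 * (H * L / (2 * Real.pi)) := by ring
    have h5 : ε2 * (H * L / (2 * Real.pi)) ≤ 1 / 2 * (H * L / (2 * Real.pi)) :=
      mul_le_mul_of_nonneg_right hε21 h3
    linarith
  have hds := hds' hNN
  -- the radius
  set R : ℝ := 2 * Real.pi * M / L with hR
  have hR0 : 0 < R := by positivity
  have hRL : 2 / L ≤ R := by
    rw [hR]
    gcongr
  -- the error function
  set g : ℝ → ℝ := GG riemannZeta n r t0 (t0 + H) L R θ with hg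
  have hgc : Continuous g := GG_cont hr0 _ n _ _ _ _ hR0
  have hg0 : ∀ x, 0 ≤ g x := GG_nonneg hr0 hL0 _ n _ _ _ hθ0
  obtain ⟨d1, d2⟩ := DD_int good_zeta (U2 := t0 + H) hU hn1 hr0 hL0 hR0
  have hgi : Integrable g := (w2.div_const θ).add d1
  have hgint : ∫ x, g x ≤ (1 / θ * (3 / 2 * (1 / n) + ε2) + 2016 * Real.pi * CD * r +
      80 * Real.pi ^ 4 * M ^ 3 / L ^ 2 + 20 * 16 ^ n / (r ^ 2 * M)) * H := by
    have e1 : ∫ x, g x = (∫ t : ℝ, ‖WW riemannZeta (ph n r) t0 (t0 + H) L t‖ ^ 2) / θ +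
        ∫ t : ℝ, DD riemannZeta n r t0 (t0 + H) L R t := by
      rw [← integral_div, ← integral_add (w2.div_const θ) d1]
      rfl
    rw [e1]
    have a1 : (∫ t : ℝ, ‖WW riemannZeta (ph n r) t0 (t0 + H) L t‖ ^ 2) / θ ≤
        1 / θ * (3 / 2 * (1 / n) + ε2) * H := by
      rw [div_le_iff₀ hθ0]
      refine w3.trans (le_of_eq ?_)
      field_simp
    have a2 : ∫ t : ℝ, DD riemannZeta n r t0 (t0 + H) L R t ≤ 2016 * Real.pi * (r / L) *
        (CD * (H * L)) + Real.pi * (10 * R ^ 3 + 40 / ((r / 4 ^ n * L) ^ 2 * R)) * (H * L) := by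
      refine d2.trans ?_
      gcongr
    have a3 : 2016 * Real.pi * (r / L) *
        (CD * (H * L)) + Real.pi * (10 * R ^ 3 + 40 / ((r / 4 ^ n * L) ^ 2 * R)) * (H * L) =
        (2016 * Real.pi * CD * r + 80 * Real.pi ^ 4 * M ^ 3 / L ^ 2 +
          20 * 16 ^ n / (r ^ 2 * M)) * H := by
      rw [hR]
      have h16 : (16 : ℝ) ^ n = (4 ^ n) ^ 2 := by rw [← pow_mul, mul_comm, pow_mul]; norm_num
      rw [h16]
      field_simp
      ring
    rw [a3] at a2
    linarith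
  -- the sets
  obtain ⟨v1, v2⟩ := Av_int hgc hgi hL0 (by norm_num : (0 : ℝ) ≤ 2)
  have v0 : ∀ x, 0 ≤ Av g L 2 x := fun x => Av_nonneg hg0 hL0 (by norm_num) x
  set E2 : Set ℝ := {t | ε / 4 ≤ Av g L 2 t} with hE2
  have hE2v : volume E2 ≤ ENNReal.ofReal (κ * H / 2) := by
    refine (markov v1 v0 (by positivity)).trans (ENNReal.ofReal_le_ofReal ?_)
    rw [v2]
    have h1 : 8 / ε * (80 * Real.pi ^ 4 * M ^ 3 / L ^ 2) ≤ κ / 16 := by
      rw [div_le_iff₀ hκ0] at hLM3
      have hL2 : L ≤ L ^ 2 := by nlinarith only [hL1]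
      have e : 8 / ε * (80 * Real.pi ^ 4 * M ^ 3 / L ^ 2) =
          (8 / ε * (80 * Real.pi ^ 4 * M ^ 3)) / L ^ 2 := by ring
      rw [e, div_le_iff₀ (by positivity)]
      have h2 := mul_le_mul_of_nonneg_left hL2 (by positivity : 0 ≤ κ / 16)
      linarith
    calc 2 * (∫ x, g x) / (ε / 4) = 8 / ε * ∫ x, g x := by ring
      _ ≤ 8 / ε * ((1 / θ * (3 / 2 * (1 / n) + ε2) + 2016 * Real.pi * CD * r +
      80 * Real.pi ^ 4 * M ^ 3 / L ^ 2 + 20 * 16 ^ n / (r ^ 2 * M)) * H) := by gcongr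
      _ = (8 / ε * (1 / θ) * (3 / 2 * (1 / n)) + 8 / ε * (1 / θ) * ε2 +
          8 / ε * (2016 * Real.pi * CD * r) + 8 / ε * (80 * Real.pi ^ 4 * M ^ 3 / L ^ 2) +
          8 / ε * (20 * 16 ^ n / (r ^ 2 * M))) * H := by ring
      _ ≤ (κ / 16 + κ / 16 + κ / 16 + κ / 16 + κ / 16) * H := by gcongr
      _ ≤ κ * H / 2 := by
        have := mul_pos hκ0 hHpos
        linarith
  set ρ1 : ℝ := 2 * Real.pi * ℓ / L + 1 / L with hρ1
  have hρ10 : 0 ≤ ρ1 := by positivity
  obtain ⟨c1, c2⟩ := CC_int (F := riemannZeta) (U2 := t0 + H) good_zeta hU hρ10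
  set E3 : Set ℝ := {t | B ≤ CC riemannZeta t0 (t0 + H) ρ1 t} with hE3
  have hE3v : volume E3 ≤ ENNReal.ofReal (κ * H / 4) := by
    refine (markov c1 (fun x => CC_nonneg _ _ _ _ x) hB0).trans (ENNReal.ofReal_le_ofReal ?_)
    rw [c2, div_le_iff₀ hB0]
    calc 2 * ρ1 * (NN riemannZeta t0 (t0 + H) : ℝ) ≤ 2 * ρ1 * (H * L) := by gcongr
      _ = κ * H / 4 * B := by rw [hρ1, hB]; field_simp; ring
  set E4 : Set ℝ := Icc (t0 - 2) (t0 + 2) ∪ Icc (t0 + H - 2) (t0 + H + 2) with hE4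
  have hHlarge : 32 / κ ≤ H := by
    have h1 : T / L ≤ H := hH1
    have h2 : L ≤ T ^ (1 / 2 : ℝ) := by
      have h3 := hpow T hTT4
      rw [le_div_iff₀ hL0] at h3
      have h4 : T ^ (1 / 2 : ℝ) * T ^ (1 / 2 : ℝ) = T := by
        rw [← Real.rpow_add hTpos]; norm_num
      have h5 : 0 < T ^ (1 / 2 : ℝ) := Real.rpow_pos_of_pos hTpos _
      exact le_of_mul_le_mul_left (by linarith) h5
    have h6 : 32 / κ ≤ 64 / κ := by gcongr; norm_num
    linarith
  have hE4v : volume E4 ≤ ENNReal.ofReal (κ * H / 4) := by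
    refine (measure_union_le _ _).trans ?_
    rw [Real.volume_Icc, Real.volume_Icc, ← ENNReal.ofReal_add (by linarith) (by linarith)]
    refine ENNReal.ofReal_le_ofReal ?_
    rw [div_le_iff₀ hκ0] at hHlarge
    linarith
  have hmE2 : MeasurableSet E2 := by
    have : Continuous (Av g L 2) := by
      unfold Av
      refine continuous_const.mul ?_
      have e : ∀ t : ℝ, ∫ u in (-(2 / L))..(2 / L), g (t + u) =
          ∫ x in (t - 2 / L)..(t + 2 / L), g x := by
        intro t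
        rw [intervalIntegral.integral_comp_add_left (fun x => g x) t]
        congr 1
      rw [funext e]
      have hp := intervalIntegral.continuous_primitive (μ := volume)
        (fun a b => hgc.intervalIntegrable a b) 0
      have e2 : ∀ t : ℝ, ∫ x in (t - 2 / L)..(t + 2 / L), g x =
          (∫ x in (0 : ℝ)..(t + 2 / L), g x) - ∫ x in (0 : ℝ)..(t - 2 / L), g x := by
        intro t
        rw [intervalIntegral.integral_interval_sub_left (hgc.intervalIntegrable _ _)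
          (hgc.intervalIntegrable _ _)]
      rw [funext e2]
      exact (hp.comp (by fun_prop)).sub (hp.comp (by fun_prop))
    exact (isClosed_le continuous_const this).measurableSet
  have hmE3 : MeasurableSet E3 := by
    have : Measurable (CC riemannZeta t0 (t0 + H) ρ1) := by
      unfold CC
      refine Finset.measurable_fun_sum _ fun s _ => ?_
      exact (measurable_const.indicator measurableSet_Icc).const_mul _
    exact measurableSet_le measurable_const this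
  have hmE4 : MeasurableSet E4 := measurableSet_Icc.union measurableSet_Icc
  have hEv : volume (E2 ∪ E3 ∪ E4) ≤ ENNReal.ofReal (κ * H) := by
    refine (measure_union_le _ _).trans ?_
    refine (add_le_add_left (measure_union_le _ _) _).trans ?_
    have e : κ * H = κ * H / 2 + κ * H / 4 + κ * H / 4 := by ring
    rw [e, ENNReal.ofReal_add (by positivity) (by positivity),
      ENNReal.ofReal_add (by positivity) (by positivity)]
    gcongr
  have hmE : MeasurableSet (E2 ∪ E3 ∪ E4) := (hmE2.union hmE3).union hmE4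
  refine ⟨hL1, hLM, hNN2, E2 ∪ E3 ∪ E4, hmE,
    hEv.trans (ENNReal.ofReal_le_ofReal (by gcongr)), ?_, ?_⟩
  · exact hUI' _ hmE (hEv.trans (ENNReal.ofReal_le_ofReal (by gcongr)))
  · rintro t htl htr ⟨t', ht'E, ht't⟩
    simp only [mem_union, not_or] at ht'E
    obtain ⟨⟨n2, n3⟩, n4⟩ := ht'E
    have h1L : 1 / L ≤ 1 := by rw [div_le_one hL0]; exact hL1
    have habs := abs_le.mp ht't
    have q1 : t0 + 1 ≤ t := by
      by_contra hcon
      push Not at hcon
      refine n4 (Or.inl ⟨?_, ?_⟩)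
      · linarith [habs.1]
      · linarith [habs.2]
    have q2 : t ≤ t0 + H - 1 := by
      by_contra hcon
      push Not at hcon
      refine n4 (Or.inr ⟨?_, ?_⟩)
      · linarith [habs.1]
      · linarith [habs.2]
    refine ⟨q1, q2, ?_, ?_⟩
    · have h1 := VV_le good_zeta (U2 := t0 + H) hU hn1 hr0 hL0 hrL hRL hθ0 t
      have h2 := Av_le hgc hg0 hL0 ht't
      have h3 : Av g L 2 t' < ε / 4 := by
        by_contra hcon
        push Not at hcon
        exact n2 hcon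
      rw [← hg] at h1
      have : θ = ε / 8 := hθ
      linarith
    · have h1 := CC_le (ρ := 2 * Real.pi * ℓ / L) riemannZeta t0 (t0 + H) ht't
      have h2 : CC riemannZeta t0 (t0 + H) ρ1 t' < B := by
        by_contra hcon
        push Not at hcon
        exact n3 hcon
      have h3 : CC riemannZeta t0 (t0 + H) (2 * Real.pi * ℓ / L) t ≤ B + 1 := by linarith
      have h4 : 0 ≤ 3 * r * (1 + 2 * Real.pi * ℓ) := by positivity
      have h5 := mul_le_mul_of_nonneg_left h3 h4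
      linarith

end Pool.Agent.H444
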