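import Pool.Graph.R_seed8.H370R2.PC1

/-! The mean square of a smooth linear statistic of the zeros. -/

open Complex Filter Topology Set MeasureTheory
open scoped BigOperators ComplexConjugate

namespace Pool.Agent.H444

/-- the transform of a function of compact support -/
noncomputable def FT (φ : ℝ → ℝ) (z : ℂ) : ℂ := ∫ α : ℝ, (φ α : ℂ) * cexp (I * α * z)

section pair

variable {φ : ℝ → ℝ} (hc : Continuous φ) {b : ℝ} (hs : ∀ x, b ≤ |x| → φ x = 0)

/-- the integrand in three variables -/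
noncomputable def tri (φ : ℝ → ℝ) (L : ℝ) (z w : ℂ) (t : ℝ) (p : ℝ × ℝ) : ℂ :=
  (φ p.1 : ℂ) * (φ p.2 : ℂ) * (cexp (I * p.1 * (L * (z - t))) * cexp (I * p.2 * (-(L * (w - t)))) *
    (cexp (-(z - t) ^ 2 / 2) * cexp (-(w - t) ^ 2 / 2)))

include hs in
lemma hcs : HasCompactSupport φ := by
  refine HasCompactSupport.intro (isCompact_Icc (a := -b) (b := b)) fun x hx => hs x ?_
  rw [mem_Icc, not_and_or, not_le, not_le] at hx
  rcases hx with h | h
  · exact (by linarith : b ≤ -x).trans (neg_le_abs x)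
  · exact h.le.trans (le_abs_self x)

include hc hs in
lemma phi_int : Integrable φ := hc.integrable_of_hasCompactSupport (hcs hs)

lemma gauss_pair_norm_int (z w : ℂ) :
    Integrable (fun t : ℝ => ‖cexp (-(z - t) ^ 2 / 2) * cexp (-(w - t) ^ 2 / 2)‖) :=
  (H370.gauss_pair_int z w).norm

include hc hs in
lemma tri_int {L : ℝ} (hL : 0 ≤ L) (z w : ℂ) :
    Integrable (Function.uncurry (tri φ L z w)) (volume.prod (volume.prod volume)) := by
  have h1 : Integrable (fun p : ℝ × ℝ => |φ p.1| * |φ p.2|) (volume.prod volume) :=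
    (phi_int hc hs).abs.mul_prod (phi_int hc hs).abs
  have h2 : Integrable (fun q : ℝ × (ℝ × ℝ) => ‖cexp (-(z - q.1) ^ 2 / 2) * cexp (-(w - q.1) ^ 2 / 2)‖ *
      (|φ q.2.1| * |φ q.2.2|)) (volume.prod (volume.prod volume)) :=
    (gauss_pair_norm_int z w).mul_prod h1
  have h3 := h2.const_mul (Real.exp (b * L * |z.im|) * Real.exp (b * L * |w.im|))
  refine h3.mono' ?_ ?_
  · refine Continuous.aestronglyMeasurable ?_
    unfold tri Function.uncurry
    fun_prop
  · refine Filter.Eventually.of_forall fun q => ?_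
    obtain ⟨t, α, β⟩ := q
    simp only [Function.uncurry, tri]
    rw [norm_mul, norm_mul, norm_mul, norm_mul, Complex.norm_real, Complex.norm_real,
      Real.norm_eq_abs, Real.norm_eq_abs]
    by_cases ha : b ≤ |α|
    · rw [hs α ha]; simp
    by_cases hb : b ≤ |β|
    · rw [hs β hb]; simp
    push Not at ha hb
    have e1 : ‖cexp (I * α * (L * (z - t)))‖ ≤ Real.exp (b * L * |z.im|) := by
      rw [Complex.norm_exp, Real.exp_le_exp]
      have : (I * α * (L * (z - t))).re = -(α * L * z.im) := by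
        simp; ring
      rw [this]
      have h4 : -(α * L * z.im) ≤ |α * L * z.im| := neg_le_abs _
      rw [abs_mul, abs_mul, abs_of_nonneg hL] at h4
      have h5 : |α| * L * |z.im| ≤ b * L * |z.im| := by gcongr
      linarith
    have e2 : ‖cexp (I * β * (-(L * (w - t))))‖ ≤ Real.exp (b * L * |w.im|) := by
      rw [Complex.norm_exp, Real.exp_le_exp]
      have : (I * β * (-(L * (w - t)))).re = β * L * w.im := by
        simp; ring
      rw [this]
      have h4 : β * L * w.im ≤ |β * L * w.im| := le_abs_self _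
      rw [abs_mul, abs_mul, abs_of_nonneg hL] at h4
      have h5 : |β| * L * |w.im| ≤ b * L * |w.im| := by gcongr
      linarith
    calc |φ α| * |φ β| * (‖cexp (I * α * (L * (z - t)))‖ * ‖cexp (I * β * (-(L * (w - t))))‖ *
          ‖cexp (-(z - t) ^ 2 / 2) * cexp (-(w - t) ^ 2 / 2)‖) ≤
        |φ α| * |φ β| * (Real.exp (b * L * |z.im|) * Real.exp (b * L * |w.im|) *
          ‖cexp (-(z - t) ^ 2 / 2) * cexp (-(w - t) ^ 2 / 2)‖) := by gcongr
      _ = _ := by ring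

/-- the integral over `t` -/
lemma tri_t (φ : ℝ → ℝ) (L : ℝ) (z w : ℂ) (p : ℝ × ℝ) :
    ∫ t : ℝ, tri φ L z w t p = (φ p.1 : ℂ) * (φ p.2 : ℂ) * ((Real.sqrt Real.pi : ℂ) *
      (Real.exp (-(L * (p.1 - p.2)) ^ 2 / 4) : ℂ) *
      (cexp (I * ((L * (p.1 + p.2) / 2 : ℝ) : ℂ) * (z - w)) * cexp (-(z - w) ^ 2 / 4))) := by
  unfold tri
  rw [integral_const_mul]
  congr 1
  have h1 : ∀ t : ℝ, cexp (I * p.1 * (L * (z - t))) * cexp (I * p.2 * (-(L * (w - t)))) *
      (cexp (-(z - t) ^ 2 / 2) * cexp (-(w - t) ^ 2 / 2)) =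
      cexp ((-1 : ℂ) * (t : ℂ) ^ 2 + (z + w - I * L * (p.1 - p.2)) * t +
        (-(z ^ 2 + w ^ 2) / 2 + I * L * (p.1 * z - p.2 * w))) := by
    intro t
    rw [← Complex.exp_add, ← Complex.exp_add, ← Complex.exp_add]
    congr 1
    ring
  simp_rw [h1]
  rw [integral_cexp_quadratic (by simp), neg_neg, div_one, H370.pi_cpow_half,
    mul_assoc (Real.sqrt Real.pi : ℂ)]
  congr 1
  rw [Complex.ofReal_exp, ← Complex.exp_add, ← Complex.exp_add]
  congr 1
  push_cast
  ring_nf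
  rw [Complex.I_sq]
  ring

include hc hs in
/-- the pairing of two zeros -/
lemma pair_eq {L : ℝ} (hL : 0 ≤ L) (z w : ℂ) :
    Integrable (fun t : ℝ => (FT φ (L * (z - t)) * cexp (-(z - t) ^ 2 / 2)) *
      (FT φ (-(L * (w - t))) * cexp (-(w - t) ^ 2 / 2))) ∧
    ∫ t : ℝ, (FT φ (L * (z - t)) * cexp (-(z - t) ^ 2 / 2)) *
      (FT φ (-(L * (w - t))) * cexp (-(w - t) ^ 2 / 2)) =
    ∫ p : ℝ × ℝ, (φ p.1 : ℂ) * (φ p.2 : ℂ) * ((Real.sqrt Real.pi : ℂ) *
      (Real.exp (-(L * (p.1 - p.2)) ^ 2 / 4) : ℂ) *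
      (cexp (I * ((L * (p.1 + p.2) / 2 : ℝ) : ℂ) * (z - w)) * cexp (-(z - w) ^ 2 / 4)))
      ∂(volume.prod volume) := by
  have h0 : ∀ t : ℝ, (FT φ (L * (z - t)) * cexp (-(z - t) ^ 2 / 2)) *
      (FT φ (-(L * (w - t))) * cexp (-(w - t) ^ 2 / 2)) =
      ∫ p : ℝ × ℝ, tri φ L z w t p ∂(volume.prod volume) := by
    intro t
    have h1 : FT φ (L * (z - t)) * FT φ (-(L * (w - t))) =
        ∫ p : ℝ × ℝ, ((φ p.1 : ℂ) * cexp (I * p.1 * (L * (z - t)))) *
          ((φ p.2 : ℂ) * cexp (I * p.2 * (-(L * (w - t))))) ∂(volume.prod volume) := by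
      unfold FT
      exact (integral_prod_mul (fun α : ℝ => (φ α : ℂ) * cexp (I * α * (L * (z - t))))
        (fun β : ℝ => (φ β : ℂ) * cexp (I * β * (-(L * (w - t)))))).symm
    have h2 : (FT φ (L * (z - t)) * cexp (-(z - t) ^ 2 / 2)) *
      (FT φ (-(L * (w - t))) * cexp (-(w - t) ^ 2 / 2)) =
      (FT φ (L * (z - t)) * FT φ (-(L * (w - t)))) *
        (cexp (-(z - t) ^ 2 / 2) * cexp (-(w - t) ^ 2 / 2)) := by ring
    rw [h2, h1, ← integral_mul_const]
    refine integral_congr_ae (Filter.Eventually.of_forall fun p => ?_)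
    simp only [tri]
    ring
  have hI := tri_int hc hs hL z w
  constructor
  · have := hI.integral_prod_left
    refine this.congr (Filter.Eventually.of_forall fun t => ?_)
    simp only [Function.uncurry]
    exact (h0 t).symm
  · simp_rw [h0]
    rw [integral_integral_swap hI]
    refine integral_congr_ae (Filter.Eventually.of_forall fun p => ?_)
    exact tri_t φ L z w p

end pair

section zeros

open H370

variable {F : ℂ → ℂ} (hF : GoodL F) {U1 U2 : ℝ} (hU : 1 ≤ U1)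
variable {φ : ℝ → ℝ} (hc : Continuous φ) {b : ℝ} (hs : ∀ x, b ≤ |x| → φ x = 0)

lemma FT_conj (φ : ℝ → ℝ) (z : ℂ) : conj (FT φ z) = FT φ (-conj z) := by
  unfold FT
  rw [← integral_conj]
  refine integral_congr_ae (Filter.Eventually.of_forall fun α => ?_)
  simp only [map_mul, Complex.conj_ofReal]
  rw [← Complex.exp_conj]
  congr 2
  simp

/-- the linear statistic -/
noncomputable def WW (F : ℂ → ℂ) (φ : ℝ → ℝ) (U1 U2 L t : ℝ) : ℂ :=
  ∑ s ∈ Zf F U1 U2, (mult F s : ℂ) * (FT φ (L * (zz s - t)) * cexp (-(zz s - t) ^ 2 / 2))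

lemma WW_sq (F : ℂ → ℂ) (φ : ℝ → ℝ) (U1 U2 L t : ℝ) :
    ((‖WW F φ U1 U2 L t‖ ^ 2 : ℝ) : ℂ) =
      ∑ s ∈ Zf F U1 U2, ∑ s' ∈ Zf F U1 U2, (mult F s : ℂ) * (mult F s' : ℂ) *
        ((FT φ (L * (zz s - t)) * cexp (-(zz s - t) ^ 2 / 2)) *
        (FT φ (-(L * (conj (zz s') - t))) * cexp (-(conj (zz s') - t) ^ 2 / 2))) := by
  rw [← Complex.normSq_eq_norm_sq, ← Complex.mul_conj]
  unfold WW
  rw [map_sum, Finset.sum_mul_sum]
  refine Finset.sum_congr rfl fun s _ => Finset.sum_congr rfl fun s' _ => ?_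
  rw [map_mul, map_mul, FT_conj, ← Complex.exp_conj, Complex.conj_natCast]
  simp only [map_mul, map_sub, map_div₀, map_neg, map_pow, Complex.conj_ofReal,
    Complex.conj_ofNat]
  ring

include hF hU hc hs in
/-- **the mean square** -/
theorem WW_meanSq {L : ℝ} (hL : 0 ≤ L) :
    Integrable (fun t : ℝ => ‖WW F φ U1 U2 L t‖ ^ 2) ∧
    ∫ t : ℝ, ‖WW F φ U1 U2 L t‖ ^ 2 =
      ∫ p : ℝ × ℝ, φ p.1 * φ p.2 * Real.exp (-(L * (p.1 - p.2)) ^ 2 / 4) *
        JJ F U1 U2 (L * (p.1 + p.2) / 2) ∂(volume.prod volume) := by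
  have hint : Integrable (fun t : ℝ => ((‖WW F φ U1 U2 L t‖ ^ 2 : ℝ) : ℂ)) := by
    simp_rw [WW_sq]
    refine integrable_finsetSum _ fun s _ => integrable_finsetSum _ fun s' _ => ?_
    exact ((pair_eq hc hs hL _ _).1).const_mul _
  refine ⟨hint.re.congr (Filter.Eventually.of_forall fun t => Complex.ofReal_re _), ?_⟩
  apply Complex.ofReal_injective
  have e1 : ((∫ t : ℝ, ‖WW F φ U1 U2 L t‖ ^ 2 : ℝ) : ℂ) =
      ∫ t : ℝ, ((‖WW F φ U1 U2 L t‖ ^ 2 : ℝ) : ℂ) := integral_ofReal.symm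
  have e2 : ((∫ p : ℝ × ℝ, φ p.1 * φ p.2 * Real.exp (-(L * (p.1 - p.2)) ^ 2 / 4) *
        JJ F U1 U2 (L * (p.1 + p.2) / 2) ∂(volume.prod volume) : ℝ) : ℂ) =
      ∫ p : ℝ × ℝ, ((φ p.1 * φ p.2 * Real.exp (-(L * (p.1 - p.2)) ^ 2 / 4) *
        JJ F U1 U2 (L * (p.1 + p.2) / 2) : ℝ) : ℂ) ∂(volume.prod volume) := integral_ofReal.symm
  rw [e1, e2]
  simp_rw [WW_sq]
  rw [integral_finsetSum]
  swap
  · intro s _
    refine integrable_finsetSum _ fun s' _ => ?_
    exact ((pair_eq hc hs hL _ _).1).const_mul _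
  set Q : ℂ → ℂ → ℝ × ℝ → ℂ := fun z w p => (φ p.1 : ℂ) * (φ p.2 : ℂ) * ((Real.sqrt Real.pi : ℂ) *
      (Real.exp (-(L * (p.1 - p.2)) ^ 2 / 4) : ℂ) *
      (cexp (I * ((L * (p.1 + p.2) / 2 : ℝ) : ℂ) * (z - w)) * cexp (-(z - w) ^ 2 / 4))) with hQ
  have hQc : ∀ z w, Integrable (Q z w) (volume.prod volume) := by
    intro z w
    refine Continuous.integrable_of_hasCompactSupport ?_ ?_
    · simp only [hQ]; fun_prop
    · refine HasCompactSupport.intro (isCompact_Icc.prod isCompact_Icc :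
        IsCompact ((Icc (-b) b) ×ˢ (Icc (-b) b) : Set (ℝ × ℝ))) fun p hp => ?_
      have hk : ∀ x : ℝ, x ∉ Icc (-b) b → φ x = 0 := by
        intro x hx
        refine hs x ?_
        rw [mem_Icc, not_and_or, not_le, not_le] at hx
        rcases hx with h | h
        · exact (by linarith : b ≤ -x).trans (neg_le_abs x)
        · exact h.le.trans (le_abs_self x)
      rw [mem_prod, not_and_or] at hp
      simp only [hQ]
      rcases hp with h | h
      · rw [hk _ h]; simp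
      · rw [hk _ h]; simp
  have h1 : ∀ s ∈ Zf F U1 U2, ∫ t : ℝ, ∑ s' ∈ Zf F U1 U2, (mult F s : ℂ) * (mult F s' : ℂ) *
        ((FT φ (L * (zz s - t)) * cexp (-(zz s - t) ^ 2 / 2)) *
        (FT φ (-(L * (conj (zz s') - t))) * cexp (-(conj (zz s') - t) ^ 2 / 2))) =
      ∑ s' ∈ Zf F U1 U2, (mult F s : ℂ) * (mult F s' : ℂ) *
        ∫ p : ℝ × ℝ, Q (zz s) (zz s') p ∂(volume.prod volume) := by
    intro s _
    rw [integral_finsetSum]
    swap
    · intro s' _
      exact ((pair_eq hc hs hL _ _).1).const_mul _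
    rw [← sum_refl hF hU (fun w => (mult F s : ℂ) * (mult F w : ℂ) *
        ∫ p : ℝ × ℝ, Q (zz s) (zz w) p ∂(volume.prod volume))]
    refine Finset.sum_congr rfl fun s' hs' => ?_
    rw [mem_Zf hF hU] at hs'
    rw [integral_const_mul, (pair_eq hc hs hL _ _).2, zz_refl,
      mult_refl hF hs'.1 hs'.2.1 (by linarith [hs'.2.2.1])]
  rw [Finset.sum_congr rfl h1]
  have h2 : ∀ p : ℝ × ℝ, ((φ p.1 * φ p.2 * Real.exp (-(L * (p.1 - p.2)) ^ 2 / 4) *
        JJ F U1 U2 (L * (p.1 + p.2) / 2) : ℝ) : ℂ) =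
      ∑ s ∈ Zf F U1 U2, ∑ s' ∈ Zf F U1 U2, (mult F s : ℂ) * (mult F s' : ℂ) *
        Q (zz s) (zz s') p := by
    intro p
    rw [Complex.ofReal_mul, JJ_eq hF hU, Finset.mul_sum, Finset.mul_sum]
    refine Finset.sum_congr rfl fun s _ => ?_
    rw [Finset.mul_sum, Finset.mul_sum]
    refine Finset.sum_congr rfl fun s' _ => ?_
    simp only [hQ]
    push_cast
    ring
  simp_rw [h2]
  rw [integral_finsetSum]
  swap
  · intro s _
    exact integrable_finsetSum _ fun s' _ => (hQc _ _).const_mul _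
  refine Finset.sum_congr rfl fun s _ => ?_
  rw [integral_finsetSum]
  swap
  · intro s' _
    exact (hQc _ _).const_mul _
  refine Finset.sum_congr rfl fun s' _ => ?_
  rw [integral_const_mul]

end zeros

end Pool.Agent.H444
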