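import Pool.Agent.H444.Var

/-! From the smooth statistic in the complex zeros to the statistic in the ordinates. -/

open Complex Filter Topology Set MeasureTheory
open scoped BigOperators ComplexConjugate

namespace Pool.Agent.H444

open H370

lemma int_lor {c : ℝ} (hc : 0 < c) : Integrable (fun x : ℝ => 1 / (1 + (c * x) ^ 2)) ∧
    ∫ x : ℝ, 1 / (1 + (c * x) ^ 2) = Real.pi / c := by
  have h1 : ∀ x : ℝ, 1 / (1 + (c * x) ^ 2) = (fun y : ℝ => (1 + y ^ 2)⁻¹) (c * x) := by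
    intro x; simp
  simp_rw [h1]
  refine ⟨(integrable_inv_one_add_sq.comp_mul_left' hc.ne'), ?_⟩
  rw [Measure.integral_comp_mul_left (fun y : ℝ => (1 + y ^ 2)⁻¹) c, integral_univ_inv_one_add_sq,
    abs_of_pos (inv_pos.mpr hc), smul_eq_mul]
  field_simp

/-- the kernel with the Gaussian weight -/
noncomputable def kk (n : ℕ) (r L : ℝ) (w : ℂ) : ℂ := KK n r (L * w) * cexp (-w ^ 2 / 2)

lemma kk_eq (n : ℕ) (r L : ℝ) (w : ℂ) :
    kk n r L w = 1 / n * ∑ j ∈ Finset.range n, kg kap (rr r j * L) w := by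
  unfold kk KK kg
  rw [mul_assoc, Finset.sum_mul]
  congr 1
  refine Finset.sum_congr rfl fun j _ => ?_
  congr 2
  push_cast
  ring

/-- the kernel on the real line -/
noncomputable def Kr (n : ℕ) (r x : ℝ) : ℝ := 1 / n * ∑ j ∈ Finset.range n, kr (rr r j * x)

lemma KK_real (n : ℕ) (r x : ℝ) : KK n r x = (Kr n r x : ℂ) := by
  unfold KK Kr
  push_cast
  congr 1
  refine Finset.sum_congr rfl fun j _ => ?_
  rw [← kap_real]
  push_cast
  rfl

lemma abs_avg_le {n : ℕ} (hn : 1 ≤ n) {f : ℕ → ℝ} {C : ℝ} (h : ∀ j ∈ Finset.range n, |f j| ≤ C) :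
    |1 / (n : ℝ) * ∑ j ∈ Finset.range n, f j| ≤ C := by
  have hn0 : (0 : ℝ) < n := by exact_mod_cast hn
  rw [abs_mul, abs_of_pos (by positivity : (0 : ℝ) < 1 / n)]
  have h1 : |∑ j ∈ Finset.range n, f j| ≤ n * C := by
    refine (Finset.abs_sum_le_sum_abs _ _).trans ((Finset.sum_le_sum h).trans ?_)
    rw [Finset.sum_const, Finset.card_range, nsmul_eq_mul]
  calc 1 / (n : ℝ) * |∑ j ∈ Finset.range n, f j| ≤ 1 / n * (n * C) := by gcongr
    _ = C := by field_simp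

lemma Kr_abs {n : ℕ} (hn : 1 ≤ n) (r x : ℝ) : |Kr n r x| ≤ 1 :=
  abs_avg_le hn fun _ _ => abs_kr_le _

lemma Kr_lip {n : ℕ} (hn : 1 ≤ n) {r : ℝ} (hr : 0 < r) (x y : ℝ) :
    |Kr n r x - Kr n r y| ≤ 3 * r * |x - y| := by
  unfold Kr
  rw [← mul_sub, ← Finset.sum_sub_distrib]
  refine abs_avg_le hn fun j _ => ?_
  have h := kr_lip (rr r j * x) (rr r j * y)
  have h1 := rr_le hr j
  have h2 := rr_pos hr j
  rw [← mul_sub, abs_mul, abs_of_pos h2] at h
  calc |kr (rr r j * x) - kr (rr r j * y)| ≤ 3 * (rr r j * |x - y|) := h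
    _ ≤ 3 * (r * |x - y|) := by gcongr
    _ = _ := by ring

lemma Kr_zero {n : ℕ} (hn : 1 ≤ n) (r : ℝ) : Kr n r 0 = 1 := by
  have hn0 : (n : ℝ) ≠ 0 := by exact_mod_cast (by omega : n ≠ 0)
  unfold Kr
  simp only [mul_zero, kr_zero, Finset.sum_const, Finset.card_range, nsmul_eq_mul, mul_one]
  field_simp

lemma Kr_even (n : ℕ) (r x : ℝ) : Kr n r (-x) = Kr n r x := by
  unfold Kr
  congr 1
  refine Finset.sum_congr rfl fun j _ => ?_
  rw [mul_neg, kr_even]

lemma Kr_cont (n : ℕ) (r : ℝ) : Continuous (Kr n r) := by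
  unfold Kr
  have := kr_cont
  fun_prop

lemma kr_decay (x : ℝ) : |kr x| ≤ 8 / (1 + x ^ 2) := by
  have h := norm_kap_decay (x : ℂ)
  rw [kap_real, Complex.norm_real, Complex.ofReal_im, abs_zero, mul_zero, Real.exp_zero,
    Complex.ofReal_re, mul_one] at h
  exact h

section bounds

variable {n : ℕ} (hn : 1 ≤ n) {r L : ℝ} (hr : 0 < r) (hL : 0 < L) (hrL : 2 ≤ r / 4 ^ n * L)

include hn hr hL hrL in
lemma Kr_decay {R x : ℝ} (hR : 0 < R) (hx : R / 2 ≤ |x|) :
    |Kr n r (L * x)| ≤ 40 / ((r / 4 ^ n * L) ^ 2 * (x ^ 2 + R ^ 2)) := by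
  refine abs_avg_le hn fun j hj => ?_
  rw [Finset.mem_range] at hj
  refine (kr_decay _).trans ?_
  have h1 := rr_ge hr hj
  have ha : 0 < r / 4 ^ n * L := by linarith
  have hx0 : 0 < |x| := lt_of_lt_of_le (by positivity) hx
  have h2 : (r / 4 ^ n * L) ^ 2 * x ^ 2 ≤ (rr r j * (L * x)) ^ 2 := by
    have : rr r j * (L * x) = (rr r j * L) * x := by ring
    rw [this, mul_pow (rr r j * L)]
    have h3 : r / 4 ^ n * L ≤ rr r j * L := by gcongr
    gcongr
  have h4 : x ^ 2 + R ^ 2 ≤ 5 * x ^ 2 := by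
    have : (R / 2) ^ 2 ≤ |x| ^ 2 := by gcongr
    rw [sq_abs] at this
    linarith
  rw [div_le_div_iff₀ (by positivity) (by positivity)]
  have h5 : 0 < (r / 4 ^ n * L) ^ 2 := by positivity
  nlinarith

include hn hr hL hrL in
/-- the error of one zero: the real kernel -/
lemma real_part_bound {R x : ℝ} (hR : 0 < R) (c : Prop) [Decidable c] (h1 : c → |x| ≤ 2 * R)
    (h2 : ¬ c → R / 2 ≤ |x|) :
    |Kr n r (L * x) * Real.exp (-x ^ 2 / 2) - (if c then Kr n r (L * x) else 0)| ≤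
      (10 * R ^ 4 + 40 / (r / 4 ^ n * L) ^ 2) / (x ^ 2 + R ^ 2) := by
  have ha : 0 < r / 4 ^ n * L := by linarith
  have hexp1 : Real.exp (-x ^ 2 / 2) ≤ 1 := by
    rw [Real.exp_le_one_iff]; nlinarith [sq_nonneg x]
  have hexp0 := Real.exp_pos (-x ^ 2 / 2)
  have hden : 0 < x ^ 2 + R ^ 2 := by positivity
  split_ifs with h
  · have e1 : Kr n r (L * x) * Real.exp (-x ^ 2 / 2) - Kr n r (L * x) =
        -(Kr n r (L * x) * (1 - Real.exp (-x ^ 2 / 2))) := by ring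
    rw [e1, abs_neg, abs_mul, abs_of_nonneg (by linarith : 0 ≤ 1 - Real.exp (-x ^ 2 / 2))]
    have e2 : 1 - Real.exp (-x ^ 2 / 2) ≤ x ^ 2 / 2 := by
      have := Real.add_one_le_exp (-x ^ 2 / 2)
      linarith
    have h3 : x ^ 2 ≤ (2 * R) ^ 2 := by
      rw [← sq_abs]
      have := h1 h
      gcongr
    have h4 := Kr_abs hn r (L * x)
    have h5 : |Kr n r (L * x)| * (1 - Real.exp (-x ^ 2 / 2)) ≤ 1 * (2 * R ^ 2) := by
      refine mul_le_mul h4 (by linarith) (by linarith) zero_le_one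
    refine h5.trans ?_
    rw [le_div_iff₀ hden]
    have h6 : 0 ≤ 40 / (r / 4 ^ n * L) ^ 2 := by positivity
    nlinarith [sq_nonneg R]
  · rw [sub_zero, abs_mul, abs_of_pos hexp0]
    have e1 := Kr_decay hn hr hL hrL hR (h2 h)
    have e2 : |Kr n r (L * x)| * Real.exp (-x ^ 2 / 2) ≤
        40 / ((r / 4 ^ n * L) ^ 2 * (x ^ 2 + R ^ 2)) * 1 := by
      refine mul_le_mul e1 hexp1 hexp0.le (by positivity)
    refine e2.trans ?_
    rw [mul_one, ← div_div]
    gcongr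
    have : 0 ≤ 10 * R ^ 4 := by positivity
    linarith

include hn hr hrL hL in
/-- the error of one zero: the second difference -/
lemma second_part_bound {x y : ℝ} (hy : |y| ≤ 1 / 2) :
    ‖kk n r L (x + I * y) + kk n r L (x - I * y) - 2 * kk n r L x‖ ≤
      1 / n * ∑ j ∈ Finset.range n, 4032 * y ^ 2 * (rr r j * L) ^ 2 *
        Real.exp (3 * (rr r j * L) * |y|) * (1 / (1 + ((rr r j * L) * x) ^ 2)) := by
  have hn0 : (0 : ℝ) < n := by exact_mod_cast hn
  rw [kk_eq, kk_eq, kk_eq]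
  have e1 : (1 / n * ∑ j ∈ Finset.range n, kg kap (rr r j * L) (x + I * y)) +
      (1 / n * ∑ j ∈ Finset.range n, kg kap (rr r j * L) (x - I * y)) -
      2 * (1 / n * ∑ j ∈ Finset.range n, kg kap (rr r j * L) x) =
      1 / n * ∑ j ∈ Finset.range n, (kg kap (rr r j * L) (x + I * y) +
        kg kap (rr r j * L) (x - I * y) - 2 * kg kap (rr r j * L) x) := by
    rw [Finset.sum_sub_distrib, Finset.sum_add_distrib, ← Finset.mul_sum]
    ring
  rw [e1, norm_mul]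
  have e2 : ‖(1 / n : ℂ)‖ = 1 / n := by simp
  rw [e2]
  refine mul_le_mul_of_nonneg_left ?_ (by positivity)
  refine (norm_sum_le _ _).trans (Finset.sum_le_sum fun j hj => ?_)
  rw [Finset.mem_range] at hj
  have h1 := rr_ge hr hj
  have h2 : 2 ≤ rr r j * L := hrL.trans (by gcongr)
  exact kg_second gk_kap h2 x hy

end bounds

end Pool.Agent.H444
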