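import Pool.Agent.H444.Ord

open Complex Filter Topology Set MeasureTheory
open scoped BigOperators ComplexConjugate

namespace Pool.Agent.H444

open H370

/-- the error of one zero, as a function of the distance -/
noncomputable def gs (n : ℕ) (r L R y x : ℝ) : ℝ :=
  1 / 2 * (1 / n * ∑ j ∈ Finset.range n, 4032 * y ^ 2 * (rr r j * L) ^ 2 *
        Real.exp (3 * (rr r j * L) * |y|) * (1 / (1 + ((rr r j * L) * x) ^ 2))) +
    (10 * R ^ 4 + 40 / (r / 4 ^ n * L) ^ 2) / (x ^ 2 + R ^ 2)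

section bounds

variable {n : ℕ} (hn : 1 ≤ n) {r L : ℝ} (hr : 0 < r) (hL : 0 < L) (hrL : 2 ≤ r / 4 ^ n * L)

lemma gs_nonneg (n : ℕ) {r L : ℝ} (hr : 0 < r) (hL : 0 < L) (R y x : ℝ) : 0 ≤ gs n r L R y x := by
  unfold gs
  refine add_nonneg (mul_nonneg (by norm_num) (mul_nonneg (by positivity)
    (Finset.sum_nonneg fun j _ => ?_))) (by positivity)
  have := rr_pos hr j
  positivity

include hn hr hL in
lemma gs_int {R : ℝ} (hR : 0 < R) (y : ℝ) : Integrable (gs n r L R y) ∧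
    ∫ x : ℝ, gs n r L R y x ≤ 2016 * Real.pi * y ^ 2 * (r * L) * Real.exp (3 * (r * L) * |y|) +
      Real.pi * (10 * R ^ 3 + 40 / ((r / 4 ^ n * L) ^ 2 * R)) := by
  have hn0 : (0 : ℝ) < n := by exact_mod_cast hn
  have hj : ∀ j, Integrable (fun x : ℝ => 4032 * y ^ 2 * (rr r j * L) ^ 2 *
        Real.exp (3 * (rr r j * L) * |y|) * (1 / (1 + ((rr r j * L) * x) ^ 2))) := by
    intro j
    exact (int_lor (mul_pos (rr_pos hr j) hL)).1.const_mul _
  have h1 : Integrable (fun x : ℝ => (1 / 2 : ℝ) * (1 / (n : ℝ) * ∑ j ∈ Finset.range n, 4032 * y ^ 2 *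
      (rr r j * L) ^ 2 * Real.exp (3 * (rr r j * L) * |y|) *
        (1 / (1 + ((rr r j * L) * x) ^ 2)))) :=
    ((integrable_finsetSum _ fun j _ => hj j).const_mul _).const_mul _
  have e2 : ∀ x : ℝ, (10 * R ^ 4 + 40 / (r / 4 ^ n * L) ^ 2) / (x ^ 2 + R ^ 2) =
      ((10 * R ^ 4 + 40 / (r / 4 ^ n * L) ^ 2) / R ^ 2) * (1 / (1 + (1 / R * x) ^ 2)) := by
    intro x
    field_simp
    ring
  have h2 : Integrable (fun x : ℝ => (10 * R ^ 4 + 40 / (r / 4 ^ n * L) ^ 2) / (x ^ 2 + R ^ 2)) := by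
    simp_rw [e2]
    exact (int_lor (by positivity : 0 < 1 / R)).1.const_mul _
  refine ⟨h1.add h2, ?_⟩
  unfold gs
  rw [integral_add h1 h2]
  have i2 : ∫ x : ℝ, (10 * R ^ 4 + 40 / (r / 4 ^ n * L) ^ 2) / (x ^ 2 + R ^ 2) =
      Real.pi * (10 * R ^ 3 + 40 / ((r / 4 ^ n * L) ^ 2 * R)) := by
    simp_rw [e2]
    rw [integral_const_mul, (int_lor (by positivity : 0 < 1 / R)).2]
    field_simp
  rw [i2]
  have i1 : ∫ x : ℝ, (1 / 2 : ℝ) * (1 / (n : ℝ) * ∑ j ∈ Finset.range n, 4032 * y ^ 2 *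
      (rr r j * L) ^ 2 * Real.exp (3 * (rr r j * L) * |y|) *
        (1 / (1 + ((rr r j * L) * x) ^ 2))) ≤
      2016 * Real.pi * y ^ 2 * (r * L) * Real.exp (3 * (r * L) * |y|) := by
    rw [integral_const_mul, integral_const_mul, integral_finsetSum _ fun j _ => hj j]
    have h3 : ∑ j ∈ Finset.range n, ∫ x : ℝ, 4032 * y ^ 2 * (rr r j * L) ^ 2 *
        Real.exp (3 * (rr r j * L) * |y|) * (1 / (1 + ((rr r j * L) * x) ^ 2)) ≤
        ∑ j ∈ Finset.range n, 4032 * Real.pi * y ^ 2 * (r * L) * Real.exp (3 * (r * L) * |y|) := by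
      refine Finset.sum_le_sum fun j _ => ?_
      have hrj := rr_pos hr j
      rw [integral_const_mul, (int_lor (mul_pos hrj hL)).2]
      have e3 : 4032 * y ^ 2 * (rr r j * L) ^ 2 * Real.exp (3 * (rr r j * L) * |y|) *
          (Real.pi / (rr r j * L)) =
          4032 * Real.pi * y ^ 2 * (rr r j * L) * Real.exp (3 * (rr r j * L) * |y|) := by
        field_simp
      rw [e3]
      have := rr_le hr j
      gcongr
    rw [Finset.sum_const, Finset.card_range, nsmul_eq_mul] at h3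
    calc 1 / 2 * (1 / (n : ℝ) * ∑ j ∈ Finset.range n, ∫ x : ℝ, 4032 * y ^ 2 * (rr r j * L) ^ 2 *
        Real.exp (3 * (rr r j * L) * |y|) * (1 / (1 + ((rr r j * L) * x) ^ 2))) ≤
        1 / 2 * (1 / n * (n * (4032 * Real.pi * y ^ 2 * (r * L) *
          Real.exp (3 * (r * L) * |y|)))) := by gcongr
      _ = _ := by field_simp; ring
  linarith

lemma kk_real (n : ℕ) (r L x : ℝ) :
    kk n r L x = ((Kr n r (L * x) * Real.exp (-x ^ 2 / 2) : ℝ) : ℂ) := by
  unfold kk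
  rw [← Complex.ofReal_mul, KK_real]
  push_cast
  rfl

include hn hr hL hrL in
/-- the error of one zero -/
lemma one_zero {R x y : ℝ} (hR : 0 < R) (hy : |y| ≤ 1 / 2) (c : Prop) [Decidable c]
    (h1 : c → |x| ≤ 2 * R) (h2 : ¬ c → R / 2 ≤ |x|) :
    ‖1 / 2 * (kk n r L (x + I * y) + kk n r L (x - I * y)) -
      ((if c then Kr n r (L * x) else 0 : ℝ) : ℂ)‖ ≤ gs n r L R y x := by
  have e1 : 1 / 2 * (kk n r L (x + I * y) + kk n r L (x - I * y)) -
      ((if c then Kr n r (L * x) else 0 : ℝ) : ℂ) =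
      1 / 2 * (kk n r L (x + I * y) + kk n r L (x - I * y) - 2 * kk n r L x) +
      ((Kr n r (L * x) * Real.exp (-x ^ 2 / 2) -
        (if c then Kr n r (L * x) else 0) : ℝ) : ℂ) := by
    rw [Complex.ofReal_sub, ← kk_real]
    ring
  rw [e1]
  refine (norm_add_le _ _).trans ?_
  unfold gs
  refine add_le_add ?_ ?_
  · rw [norm_mul]
    have : ‖(1 / 2 : ℂ)‖ = 1 / 2 := by norm_num
    rw [this]
    exact mul_le_mul_of_nonneg_left (second_part_bound hn hr hL hrL hy) (by norm_num)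
  · rw [Complex.norm_real, Real.norm_eq_abs]
    exact real_part_bound hn hr hL hrL hR c h1 h2

end bounds

section zeros

variable {F : ℂ → ℂ} (hF : GoodL F) {U1 U2 : ℝ} (hU : 1 ≤ U1)
variable {n : ℕ} (hn : 1 ≤ n) {r L : ℝ} (hr : 0 < r) (hL : 0 < L) (hrL : 2 ≤ r / 4 ^ n * L)

include hF hU in
lemma sum_sym (k : ℂ → ℂ) (t : ℝ) : ∑ s ∈ Zf F U1 U2, (mult F s : ℂ) * k (zz s - t) =
    ∑ s ∈ Zf F U1 U2, (mult F s : ℂ) * (1 / 2 * (k (((s.im - t : ℝ) : ℂ) +
      I * ((1 / 2 - s.re : ℝ) : ℂ)) + k (((s.im - t : ℝ) : ℂ) -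
      I * ((1 / 2 - s.re : ℝ) : ℂ)))) := by
  have h2 : ∑ s ∈ Zf F U1 U2, (mult F s : ℂ) * k (zz s - t) =
      ∑ s ∈ Zf F U1 U2, (mult F s : ℂ) * k (conj (zz s) - t) := by
    rw [← sum_refl hF hU (fun s => (mult F s : ℂ) * k (zz s - t))]
    refine Finset.sum_congr rfl fun s hs => ?_
    rw [mem_Zf hF hU] at hs
    rw [zz_refl, mult_refl hF hs.1 hs.2.1 (by linarith [hs.2.2.1])]
  have e1 : ∀ s : ℂ, zz s - t = ((s.im - t : ℝ) : ℂ) + I * ((1 / 2 - s.re : ℝ) : ℂ) := by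
    intro s
    apply Complex.ext
    · simp [zz_re]
    · rw [Complex.sub_im, zz_im]; simp
  have e2 : ∀ s : ℂ, conj (zz s) - t = ((s.im - t : ℝ) : ℂ) - I * ((1 / 2 - s.re : ℝ) : ℂ) := by
    intro s
    apply Complex.ext
    · simp [zz_re]
    · rw [Complex.sub_im, Complex.conj_im, zz_im]; simp
  have h3 : ∑ s ∈ Zf F U1 U2, (mult F s : ℂ) * k (zz s - t) =
      1 / 2 * (∑ s ∈ Zf F U1 U2, (mult F s : ℂ) * k (zz s - t) +
      ∑ s ∈ Zf F U1 U2, (mult F s : ℂ) * k (zz s - t)) := by ring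
  rw [h3]
  nth_rewrite 2 [h2]
  rw [← Finset.sum_add_distrib, Finset.mul_sum]
  refine Finset.sum_congr rfl fun s _ => ?_
  rw [e1, e2]
  ring

include hr in
lemma WW_kk (F : ℂ → ℂ) (n : ℕ) (U1 U2 L t : ℝ) : WW F (ph n r) U1 U2 L t =
    ∑ s ∈ Zf F U1 U2, (mult F s : ℂ) * kk n r L (zz s - t) := by
  unfold WW kk
  refine Finset.sum_congr rfl fun s _ => ?_
  rw [FT_ph hr]

/-- the averaged kernel -/
noncomputable def Kt (n : ℕ) (r x : ℝ) : ℝ := 1 / 2 * ∫ v in (-1 : ℝ)..1, Kr n r (x - v)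

/-- the statistic in the ordinates -/
noncomputable def VV (F : ℂ → ℂ) (n : ℕ) (r U1 U2 L R t : ℝ) : ℝ :=
  ∑ s ∈ Zf F U1 U2, (mult F s : ℝ) * (if |s.im - t| ≤ R then Kt n r (L * (s.im - t)) else 0)

/-- the statistic before averaging -/
noncomputable def V1 (F : ℂ → ℂ) (n : ℕ) (r U1 U2 L R t u : ℝ) : ℝ :=
  ∑ s ∈ Zf F U1 U2, (mult F s : ℝ) * (if |s.im - t| ≤ R then Kr n r (L * (s.im - (t + u))) else 0)

/-- the majorant of the error -/
noncomputable def DD (F : ℂ → ℂ) (n : ℕ) (r U1 U2 L R t : ℝ) : ℝ :=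
  ∑ s ∈ Zf F U1 U2, (mult F s : ℝ) * gs n r L R (1 / 2 - s.re) (s.im - t)

include hF hU hn hr hL hrL in
lemma WW_V1 {R : ℝ} (hR : 0 < R) (t : ℝ) {u : ℝ} (hu : |u| ≤ R / 2) :
    ‖WW F (ph n r) U1 U2 L (t + u) - (V1 F n r U1 U2 L R t u : ℂ)‖ ≤ DD F n r U1 U2 L R (t + u) := by
  rw [WW_kk hr, sum_sym hF hU]
  unfold V1 DD
  push_cast
  rw [← Finset.sum_sub_distrib]
  refine (norm_sum_le _ _).trans (Finset.sum_le_sum fun s hs => ?_)
  rw [mem_Zf hF hU] at hs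
  rw [← mul_sub, norm_mul]
  have e1 : ‖((mult F s : ℕ) : ℂ)‖ = mult F s := by simp
  rw [e1]
  refine mul_le_mul_of_nonneg_left ?_ (Nat.cast_nonneg _)
  have hy : |1 / 2 - s.re| ≤ 1 / 2 := by
    rw [abs_le]; constructor <;> linarith [hs.1, hs.2.1]
  rw [abs_le] at hu
  have h := one_zero hn hr hL hrL (x := s.im - (t + u)) (y := 1 / 2 - s.re) hR hy (|s.im - t| ≤ R)
    (by
      intro h
      rw [abs_le] at h ⊢
      constructor <;> linarith [h.1, h.2, hu.1, hu.2])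
    (by
      intro h
      rw [not_le] at h
      rcases le_total 0 (s.im - t) with h0 | h0
      · rw [abs_of_nonneg h0] at h
        refine le_trans ?_ (le_abs_self _)
        linarith [hu.1, hu.2]
      · rw [abs_of_nonpos h0] at h
        refine le_trans ?_ (neg_le_abs _)
        linarith [hu.1, hu.2])
  push_cast at h
  exact h

include hF hU hn hr hL in
lemma DD_int {R : ℝ} (hR : 0 < R) : Integrable (DD F n r U1 U2 L R) ∧
    ∫ t : ℝ, DD F n r U1 U2 L R t ≤ 2016 * Real.pi * (r / L) *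
      (∑ s ∈ Zf F U1 U2, (mult F s : ℝ) * ((L * |s.re - 1 / 2|) ^ 2 *
        Real.exp (3 * r * (L * |s.re - 1 / 2|)))) +
      Real.pi * (10 * R ^ 3 + 40 / ((r / 4 ^ n * L) ^ 2 * R)) * NN F U1 U2 := by
  have h1 : ∀ s : ℂ, Integrable (fun t : ℝ => gs n r L R (1 / 2 - s.re) (s.im - t)) ∧
      ∫ t : ℝ, gs n r L R (1 / 2 - s.re) (s.im - t) ≤
        2016 * Real.pi * (r / L) * ((L * |s.re - 1 / 2|) ^ 2 *
        Real.exp (3 * r * (L * |s.re - 1 / 2|))) +
        Real.pi * (10 * R ^ 3 + 40 / ((r / 4 ^ n * L) ^ 2 * R)) := by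
    intro s
    obtain ⟨a1, a2⟩ := gs_int hn hr hL hR (1 / 2 - s.re)
    refine ⟨a1.comp_sub_left s.im, ?_⟩
    rw [integral_sub_left_eq_self (fun x => gs n r L R (1 / 2 - s.re) x) volume s.im]
    refine a2.trans (le_of_eq ?_)
    have e1 : |1 / 2 - s.re| = |s.re - 1 / 2| := abs_sub_comm _ _
    have e2 : (1 / 2 - s.re) ^ 2 = |s.re - 1 / 2| ^ 2 := by rw [sq_abs]; ring
    rw [e1, e2]
    have e3 : 3 * (r * L) * |s.re - 1 / 2| = 3 * r * (L * |s.re - 1 / 2|) := by ring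
    rw [e3]
    field_simp
  constructor
  · unfold DD
    exact integrable_finsetSum _ fun s _ => (h1 s).1.const_mul _
  · unfold DD
    rw [integral_finsetSum _ fun s _ => (h1 s).1.const_mul _]
    rw [NN_eq hF hU]
    push_cast
    rw [Finset.mul_sum, Finset.mul_sum, ← Finset.sum_add_distrib]
    refine Finset.sum_le_sum fun s _ => ?_
    rw [integral_const_mul]
    have := mul_le_mul_of_nonneg_left (h1 s).2 (Nat.cast_nonneg (mult F s) : (0 : ℝ) ≤ mult F s)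
    refine this.trans (le_of_eq ?_)
    ring

/-- the number of zeros near `t` -/
noncomputable def CC (F : ℂ → ℂ) (U1 U2 ρ t : ℝ) : ℝ :=
  ∑ s ∈ Zf F U1 U2, (mult F s : ℝ) * (Icc (s.im - ρ) (s.im + ρ)).indicator (fun _ => (1 : ℝ)) t

include hF hU in
lemma CC_int {ρ : ℝ} (hρ : 0 ≤ ρ) : Integrable (CC F U1 U2 ρ) ∧
    ∫ t : ℝ, CC F U1 U2 ρ t = 2 * ρ * NN F U1 U2 := by
  have h1 : ∀ s : ℂ, Integrable (fun t : ℝ => (Icc (s.im - ρ) (s.im + ρ)).indicator
      (fun _ => (1 : ℝ)) t) := fun s =>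
    (integrable_indicator_iff measurableSet_Icc).mpr (integrableOn_const (by simp))
  constructor
  · unfold CC
    exact integrable_finsetSum _ fun s _ => (h1 s).const_mul _
  · unfold CC
    rw [integral_finsetSum _ fun s _ => (h1 s).const_mul _, NN_eq hF hU]
    push_cast
    rw [Finset.mul_sum]
    refine Finset.sum_congr rfl fun s _ => ?_
    rw [integral_const_mul, integral_indicator measurableSet_Icc]
    simp
    rw [max_eq_left (by linarith)]
    ring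

end zeros

/-- Markov's inequality -/
lemma markov {f : ℝ → ℝ} (hf : Integrable f) (h0 : ∀ x, 0 ≤ f x) {c : ℝ} (hc : 0 < c) :
    volume {x : ℝ | c ≤ f x} ≤ ENNReal.ofReal ((∫ x, f x) / c) := by
  have h := mul_meas_ge_le_integral_of_nonneg (Filter.Eventually.of_forall h0) hf c
  have hfin : volume {x : ℝ | c ≤ f x} ≠ ⊤ := (hf.measure_ge_lt_top hc).ne
  rw [← ENNReal.ofReal_toReal hfin]
  refine ENNReal.ofReal_le_ofReal ?_
  rw [le_div_iff₀ hc, mul_comm]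
  exact h

end Pool.Agent.H444
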