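import Pool.Agent.H444.MeanSq

open Complex Filter Topology Set MeasureTheory
open scoped BigOperators ComplexConjugate

namespace Pool.Agent.H444

section quad

variable {φ : ℝ → ℝ} (hc : Continuous φ) {b : ℝ} (hs : ∀ x, b ≤ |x| → φ x = 0)

include hs in
lemma phi_out {x : ℝ} (hx : x ∉ Icc (-b) b) : φ x = 0 := by
  refine hs x ?_
  rw [mem_Icc, not_and_or, not_le, not_le] at hx
  rcases hx with h | h
  · exact (by linarith : b ≤ -x).trans (neg_le_abs x)
  · exact h.le.trans (le_abs_self x)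

lemma abs_mul_exp_le {L : ℝ} (hL : 0 < L) (e : ℝ) :
    |e| * Real.exp (-(L * e) ^ 2) ≤ 1 / L * Real.exp (-(L ^ 2 / 2) * e ^ 2) := by
  have h1 : |L * e| * Real.exp (-(L * e) ^ 2 / 2) ≤ 1 := by
    set x := |L * e| with hx
    have hx2 : (L * e) ^ 2 = x ^ 2 := by rw [hx, sq_abs]
    rw [hx2]
    have h2 : x ≤ Real.exp (x ^ 2 / 2) := by
      have := Real.add_one_le_exp (x ^ 2 / 2)
      nlinarith [sq_nonneg (x - 1)]
    have h3 : Real.exp (-x ^ 2 / 2) = (Real.exp (x ^ 2 / 2))⁻¹ := by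
      rw [← Real.exp_neg]; congr 1; ring
    rw [h3, ← div_eq_mul_inv, div_le_one (Real.exp_pos _)]
    exact h2
  have h4 : |e| * Real.exp (-(L * e) ^ 2) = 1 / L * (|L * e| * Real.exp (-(L * e) ^ 2 / 2)) *
      Real.exp (-(L ^ 2 / 2) * e ^ 2) := by
    have e1 : Real.exp (-(L * e) ^ 2) = Real.exp (-(L * e) ^ 2 / 2) *
        Real.exp (-(L ^ 2 / 2) * e ^ 2) := by
      rw [← Real.exp_add]; congr 1; ring
    rw [e1, abs_mul, abs_of_pos hL]
    field_simp
  rw [h4]
  have h5 : 0 < Real.exp (-(L ^ 2 / 2) * e ^ 2) := Real.exp_pos _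
  calc 1 / L * (|L * e| * Real.exp (-(L * e) ^ 2 / 2)) * Real.exp (-(L ^ 2 / 2) * e ^ 2) ≤
      1 / L * 1 * Real.exp (-(L ^ 2 / 2) * e ^ 2) := by gcongr
    _ = _ := by ring

/-- the inner integral -/
noncomputable def PI (φ : ℝ → ℝ) (L s : ℝ) : ℝ :=
  ∫ e : ℝ, φ (s + e) * φ (s - e) * Real.exp (-(L * e) ^ 2)

include hs in
lemma PI_zero {L s : ℝ} (h : b ≤ |s|) : PI φ L s = 0 := by
  unfold PI
  rw [integral_eq_zero_of_ae]
  refine Filter.Eventually.of_forall fun e => ?_
  have : b ≤ |s + e| ∨ b ≤ |s - e| := by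
    by_contra hcon
    push Not at hcon
    have h1 := abs_add_le (s + e) (s - e)
    have h2 : s + e + (s - e) = 2 * s := by ring
    rw [h2, abs_mul, abs_of_pos (by norm_num : (0 : ℝ) < 2)] at h1
    linarith
  rcases this with h1 | h1
  · simp [hs _ h1]
  · simp [hs _ h1]

lemma PI_le {B K : ℝ} (hB : ∀ x, |φ x| ≤ B) (hK : ∀ x y, |φ x - φ y| ≤ K * |x - y|) (hK0 : 0 ≤ K)
    {L : ℝ} (hL : 0 < L) (hcc : Continuous φ) (s : ℝ) :
    PI φ L s ≤ φ s ^ 2 * (Real.sqrt Real.pi / L) + 6 * B * K / L ^ 2 := by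
  have hB0 : 0 ≤ B := (abs_nonneg _).trans (hB 0)
  have g1 : Integrable (fun e : ℝ => Real.exp (-(L ^ 2) * e ^ 2)) :=
    integrable_exp_neg_mul_sq (by positivity)
  have g2 : Integrable (fun e : ℝ => Real.exp (-(L ^ 2 / 2) * e ^ 2)) :=
    integrable_exp_neg_mul_sq (by positivity)
  have hle : ∀ e : ℝ, φ (s + e) * φ (s - e) * Real.exp (-(L * e) ^ 2) ≤
      φ s ^ 2 * Real.exp (-(L ^ 2) * e ^ 2) + 2 * B * K / L * Real.exp (-(L ^ 2 / 2) * e ^ 2) := by
    intro e
    have h1 : φ (s + e) * φ (s - e) ≤ φ s ^ 2 + 2 * B * K * |e| := by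
      have e1 : φ (s + e) * φ (s - e) = φ s ^ 2 + φ (s + e) * (φ (s - e) - φ s) +
          φ s * (φ (s + e) - φ s) := by ring
      have h2 : φ (s + e) * (φ (s - e) - φ s) ≤ B * (K * |e|) := by
        refine (le_abs_self _).trans ?_
        rw [abs_mul]
        have h3 := hK (s - e) s
        have h4 : s - e - s = -e := by ring
        rw [h4, abs_neg] at h3
        exact mul_le_mul (hB _) h3 (abs_nonneg _) hB0
      have h3 : φ s * (φ (s + e) - φ s) ≤ B * (K * |e|) := by
        refine (le_abs_self _).trans ?_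
        rw [abs_mul]
        have h3 := hK (s + e) s
        have h4 : s + e - s = e := by ring
        rw [h4] at h3
        exact mul_le_mul (hB _) h3 (abs_nonneg _) hB0
      rw [e1]; linarith
    have h2 := abs_mul_exp_le hL e
    have h3 : Real.exp (-(L * e) ^ 2) = Real.exp (-(L ^ 2) * e ^ 2) := by congr 1; ring
    calc φ (s + e) * φ (s - e) * Real.exp (-(L * e) ^ 2) ≤
        (φ s ^ 2 + 2 * B * K * |e|) * Real.exp (-(L * e) ^ 2) := by gcongr
      _ = φ s ^ 2 * Real.exp (-(L * e) ^ 2) + 2 * B * K * (|e| * Real.exp (-(L * e) ^ 2)) := by ring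
      _ ≤ φ s ^ 2 * Real.exp (-(L * e) ^ 2) +
          2 * B * K * (1 / L * Real.exp (-(L ^ 2 / 2) * e ^ 2)) := by gcongr
      _ = _ := by rw [h3]; ring
  have hint : Integrable (fun e : ℝ => φ (s + e) * φ (s - e) * Real.exp (-(L * e) ^ 2)) := by
    have h1 : Integrable (fun e : ℝ => B * B * Real.exp (-(L ^ 2) * e ^ 2)) := g1.const_mul _
    refine h1.mono' ?_ ?_
    · exact Continuous.aestronglyMeasurable (by fun_prop)
    · refine Filter.Eventually.of_forall fun e => ?_
      have h3 : Real.exp (-(L * e) ^ 2) = Real.exp (-(L ^ 2) * e ^ 2) := by congr 1; ring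
      rw [Real.norm_eq_abs, abs_mul, abs_mul, abs_of_pos (Real.exp_pos _), h3]
      have := hB (s + e)
      have := hB (s - e)
      gcongr
  have h1 : PI φ L s ≤ ∫ e : ℝ, (φ s ^ 2 * Real.exp (-(L ^ 2) * e ^ 2) +
      2 * B * K / L * Real.exp (-(L ^ 2 / 2) * e ^ 2)) :=
    integral_mono hint ((g1.const_mul _).add (g2.const_mul _)) hle
  refine h1.trans ?_
  rw [integral_add (g1.const_mul _) (g2.const_mul _), integral_const_mul, integral_const_mul,
    integral_gaussian, integral_gaussian]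
  have s1 : Real.sqrt (Real.pi / L ^ 2) = Real.sqrt Real.pi / L := by
    rw [Real.sqrt_div Real.pi_pos.le, Real.sqrt_sq hL.le]
  have s2 : Real.sqrt (Real.pi / (L ^ 2 / 2)) ≤ 3 / L := by
    rw [Real.sqrt_le_left (by positivity)]
    rw [div_pow, div_div_eq_mul_div, div_le_div_iff_of_pos_right (by positivity)]
    nlinarith [Real.pi_lt_four, Real.pi_lt_d2]
  rw [s1]
  have h2 : 2 * B * K / L * Real.sqrt (Real.pi / (L ^ 2 / 2)) ≤ 2 * B * K / L * (3 / L) := by
    gcongr
  have h3 : 2 * B * K / L * (3 / L) = 6 * B * K / L ^ 2 := by field_simp; ring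
  linarith

include hc hs in
/-- **the quadratic form** -/
theorem quad_bound {B K : ℝ} (hB : ∀ x, |φ x| ≤ B) (hK : ∀ x y, |φ x - φ y| ≤ K * |x - y|)
    (hK0 : 0 ≤ K) {L : ℝ} (hL : 0 < L) (hb : 0 ≤ b) {J : ℝ → ℝ} (hJ : Continuous J)
    (hJ0 : ∀ x, 0 ≤ J x) :
    ∫ p : ℝ × ℝ, φ p.1 * φ p.2 * Real.exp (-(L * (p.1 - p.2)) ^ 2 / 4) *
        J (L * (p.1 + p.2) / 2) ∂(volume.prod volume) ≤
      2 * ∫ s in (-b)..b, (φ s ^ 2 * (Real.sqrt Real.pi / L) + 6 * B * K / L ^ 2) * J (L * s) := by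
  have hout : ∀ x, x ∉ Icc (-b) b → φ x = 0 := fun x hx => phi_out hs hx
  have hB0 : 0 ≤ B := (abs_nonneg _).trans (hB 0)
  -- integrability of the two integrands in the plane
  have hI1 : Integrable (fun p : ℝ × ℝ => φ p.1 * φ p.2 * Real.exp (-(L * (p.1 - p.2)) ^ 2 / 4) *
        J (L * (p.1 + p.2) / 2)) (volume.prod volume) := by
    refine Continuous.integrable_of_hasCompactSupport (by fun_prop) ?_
    refine HasCompactSupport.intro (isCompact_Icc.prod isCompact_Icc :
        IsCompact ((Icc (-b) b) ×ˢ (Icc (-b) b) : Set (ℝ × ℝ))) fun p hp => ?_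
    rw [mem_prod, not_and_or] at hp
    rcases hp with h | h
    · rw [hout _ h]; simp
    · rw [hout _ h]; simp
  have hI2 : Integrable (Function.uncurry fun α s : ℝ => φ α * φ (2 * s - α) *
      Real.exp (-(L * (α - s)) ^ 2) * J (L * s)) (volume.prod volume) := by
    refine Continuous.integrable_of_hasCompactSupport (by unfold Function.uncurry; fun_prop) ?_
    refine HasCompactSupport.intro (isCompact_Icc.prod isCompact_Icc :
        IsCompact ((Icc (-b) b) ×ˢ (Icc (-b) b) : Set (ℝ × ℝ))) fun p hp => ?_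
    obtain ⟨α, s⟩ := p
    simp only [Function.uncurry]
    rw [mem_prod, not_and_or] at hp
    by_cases h1 : α ∈ Icc (-b) b
    · by_cases h2 : 2 * s - α ∈ Icc (-b) b
      · exfalso
        rw [mem_Icc] at h1 h2
        rcases hp with h | h
        · exact h h1
        · refine h ?_
          simp only [mem_Icc]
          exact ⟨by linarith [h1.1, h2.1], by linarith [h1.2, h2.2]⟩
      · rw [hout _ h2]; simp
    · rw [hout _ h1]; simp
  rw [integral_prod _ hI1]
  have h1 : ∀ α : ℝ, ∫ β : ℝ, φ α * φ β * Real.exp (-(L * (α - β)) ^ 2 / 4) *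
        J (L * (α + β) / 2) = 2 * ∫ s : ℝ, φ α * φ (2 * s - α) *
      Real.exp (-(L * (α - s)) ^ 2) * J (L * s) := by
    intro α
    set g : ℝ → ℝ := fun β => φ α * φ β * Real.exp (-(L * (α - β)) ^ 2 / 4) *
        J (L * (α + β) / 2) with hg
    have h2 : ∀ s : ℝ, φ α * φ (2 * s - α) * Real.exp (-(L * (α - s)) ^ 2) * J (L * s) =
        (fun y => g (y - α)) (2 * s) := by
      intro s
      simp only [hg]
      have a1 : -(L * (α - (2 * s - α))) ^ 2 / 4 = -(L * (α - s)) ^ 2 := by ring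
      have a2 : L * (α + (2 * s - α)) / 2 = L * s := by ring
      rw [a1, a2]
    simp_rw [h2]
    rw [Measure.integral_comp_mul_left (fun y => g (y - α)) 2, integral_sub_right_eq_self g α]
    simp
  simp_rw [h1]
  rw [integral_const_mul, integral_integral_swap hI2]
  have h3 : ∀ s : ℝ, ∫ α : ℝ, φ α * φ (2 * s - α) * Real.exp (-(L * (α - s)) ^ 2) * J (L * s) =
      PI φ L s * J (L * s) := by
    intro s
    rw [integral_mul_const]
    congr 1
    unfold PI
    rw [← integral_add_left_eq_self (fun α => φ α * φ (2 * s - α) *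
      Real.exp (-(L * (α - s)) ^ 2)) s]
    refine integral_congr_ae (Filter.Eventually.of_forall fun e => ?_)
    have a1 : 2 * s - (s + e) = s - e := by ring
    have a2 : s + e - s = e := by ring
    simp only [a1, a2]
  have hI3 : Integrable (fun s : ℝ => PI φ L s * J (L * s)) := by
    have := hI2.swap.integral_prod_left
    refine this.congr (Filter.Eventually.of_forall fun s => ?_)
    exact h3 s
  simp_rw [h3]
  refine mul_le_mul_of_nonneg_left ?_ (by norm_num)
  set R : ℝ → ℝ := fun s => (φ s ^ 2 * (Real.sqrt Real.pi / L) + 6 * B * K / L ^ 2) * J (L * s)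
    with hR
  have hRc : Continuous R := by simp only [hR]; fun_prop
  have hR0 : ∀ s, 0 ≤ R s := by
    intro s
    simp only [hR]
    have := hJ0 (L * s)
    positivity
  rw [intervalIntegral.integral_of_le (by linarith), ← integral_indicator measurableSet_Ioc]
  refine integral_mono hI3 ?_ fun s => ?_
  · exact (hRc.integrableOn_Ioc).integrable_indicator measurableSet_Ioc
  · by_cases h : b ≤ |s|
    · simp only [PI_zero hs h, zero_mul]
      exact Set.indicator_nonneg (fun x _ => hR0 x) s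
    · push Not at h
      have hm : s ∈ Ioc (-b) b := by
        rw [abs_lt] at h
        exact ⟨h.1, h.2.le⟩
      rw [Set.indicator_of_mem hm]
      exact mul_le_mul_of_nonneg_right (PI_le hB hK hK0 hL hc s) (hJ0 _)

end quad

end Pool.Agent.H444
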