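import Pool.Agent.H444.Kern3
import Pool.Agent.H444.Quad

open Complex Filter Topology Set MeasureTheory
open scoped BigOperators ComplexConjugate

namespace Pool.Agent.H444

/-- the scales -/
noncomputable def rr (r : ℝ) (j : ℕ) : ℝ := r / 4 ^ j

lemma rr_pos {r : ℝ} (hr : 0 < r) (j : ℕ) : 0 < rr r j := by unfold rr; positivity

lemma rr_le {r : ℝ} (hr : 0 < r) (j : ℕ) : rr r j ≤ r := by
  unfold rr
  exact div_le_self hr.le (one_le_pow₀ (by norm_num))

lemma rr_ge {r : ℝ} (hr : 0 < r) {j n : ℕ} (h : j < n) : r / 4 ^ n ≤ rr r j := by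
  unfold rr
  gcongr
  norm_num

lemma rr_lt {r : ℝ} (hr : 0 < r) {i j : ℕ} (h : i < j) : 4 * rr r j ≤ rr r i := by
  unfold rr
  have h1 : (4 : ℝ) ^ (i + 1) ≤ 4 ^ j := pow_le_pow_right₀ (by norm_num) h
  rw [← mul_div_assoc, div_le_div_iff₀ (by positivity) (by positivity)]
  rw [pow_succ] at h1
  nlinarith

/-- the test function -/
noncomputable def ph (n : ℕ) (r α : ℝ) : ℝ :=
  1 / n * ∑ j ∈ Finset.range n, om (α / rr r j) / rr r j

lemma ph_cont (n : ℕ) (r : ℝ) : Continuous (ph n r) := by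
  unfold ph
  have := om_cont
  fun_prop

lemma ph_nonneg {n : ℕ} {r : ℝ} (hr : 0 < r) (α : ℝ) : 0 ≤ ph n r α := by
  unfold ph
  refine mul_nonneg (by positivity) (Finset.sum_nonneg fun j _ => ?_)
  exact div_nonneg (om_nonneg _) (rr_pos hr j).le

lemma ph_zero {n : ℕ} {r : ℝ} (hr : 0 < r) {α : ℝ} (h : 3 * r ≤ |α|) : ph n r α = 0 := by
  unfold ph
  rw [Finset.sum_eq_zero, mul_zero]
  intro j _
  rw [om_zero_of_ge, zero_div]
  rw [abs_div, abs_of_pos (rr_pos hr j), le_div_iff₀ (rr_pos hr j)]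
  have := rr_le hr j
  linarith

lemma ph_at_zero {n : ℕ} {r : ℝ} : ph n r 0 = 0 := by
  unfold ph
  rw [Finset.sum_eq_zero, mul_zero]
  intro j _
  rw [om_zero_of_le, zero_div]
  simp

lemma abs_mul_ph {n : ℕ} (hn : 1 ≤ n) {r : ℝ} (hr : 0 < r) (α : ℝ) :
    |α| * ph n r α ≤ 3 / 2 * (1 / n) := by
  have hn0 : (0 : ℝ) < n := by exact_mod_cast hn
  by_cases hall : ∀ j ∈ Finset.range n, om (α / rr r j) / rr r j = 0
  · unfold ph
    rw [Finset.sum_eq_zero hall, mul_zero, mul_zero]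
    positivity
  push Not at hall
  obtain ⟨j, hj, hne⟩ := hall
  have hrj := rr_pos hr j
  have key : ∀ i, om (α / rr r i) / rr r i ≠ 0 → rr r i < |α| ∧ |α| < 3 * rr r i := by
    intro i hi
    have hri := rr_pos hr i
    have e : |α / rr r i| = |α| / rr r i := by rw [abs_div, abs_of_pos hri]
    constructor
    · by_contra hcon
      push Not at hcon
      refine hi ?_
      rw [om_zero_of_le, zero_div]
      rw [e, div_le_one hri]; exact hcon
    · by_contra hcon
      push Not at hcon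
      refine hi ?_
      rw [om_zero_of_ge, zero_div]
      rw [e, le_div_iff₀ hri]; exact hcon
  have hsum : ∑ i ∈ Finset.range n, om (α / rr r i) / rr r i = om (α / rr r j) / rr r j := by
    refine Finset.sum_eq_single_of_mem j hj fun i _ hij => ?_
    by_contra hcon
    obtain ⟨a1, a2⟩ := key i hcon
    obtain ⟨b1, b2⟩ := key j hne
    rcases lt_or_gt_of_ne hij with h | h
    · have := rr_lt hr h; linarith
    · have := rr_lt hr h
      have := rr_pos hr i
      linarith
  unfold ph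
  rw [hsum]
  obtain ⟨b1, b2⟩ := key j hne
  have h1 := om_le (α / rr r j)
  have h0 := om_nonneg (α / rr r j)
  calc |α| * (1 / n * (om (α / rr r j) / rr r j)) ≤
      (3 * rr r j) * (1 / n * ((1 / 2) / rr r j)) := by gcongr
    _ = _ := by field_simp

lemma ph_bdd {n : ℕ} {r : ℝ} (hr : 0 < r) (α : ℝ) : |ph n r α| ≤ 4 ^ n / r := by
  rw [abs_of_nonneg (ph_nonneg hr α)]
  unfold ph
  rcases Nat.eq_zero_or_pos n with h | h
  · subst h; simp; positivity
  have hn0 : (0 : ℝ) < n := by exact_mod_cast h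
  have h1 : ∑ j ∈ Finset.range n, om (α / rr r j) / rr r j ≤ ∑ j ∈ Finset.range n, 4 ^ n / r := by
    refine Finset.sum_le_sum fun j hj => ?_
    rw [Finset.mem_range] at hj
    have h2 := rr_ge hr hj
    have h3 := om_le (α / rr r j)
    have h4 := om_nonneg (α / rr r j)
    have hrj := rr_pos hr j
    have h5 : (4 : ℝ) ^ n / r = 1 / (r / 4 ^ n) := by field_simp
    rw [h5]
    calc om (α / rr r j) / rr r j ≤ 1 / rr r j := by gcongr; linarith
      _ ≤ 1 / (r / 4 ^ n) := by gcongr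
  rw [Finset.sum_const, Finset.card_range, nsmul_eq_mul] at h1
  calc 1 / (n : ℝ) * ∑ j ∈ Finset.range n, om (α / rr r j) / rr r j ≤ 1 / n * (n * (4 ^ n / r)) := by
        gcongr
    _ = _ := by field_simp

lemma ph_lip {n : ℕ} {r : ℝ} (hr : 0 < r) (x y : ℝ) :
    |ph n r x - ph n r y| ≤ (4 ^ n / r) ^ 2 * |x - y| := by
  unfold ph
  rcases Nat.eq_zero_or_pos n with h | h
  · subst h; simp; positivity
  have hn0 : (0 : ℝ) < n := by exact_mod_cast h
  rw [← mul_sub, ← Finset.sum_sub_distrib, abs_mul, abs_of_pos (by positivity : (0 : ℝ) < 1 / n)]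
  have h1 : |∑ j ∈ Finset.range n, (om (x / rr r j) / rr r j - om (y / rr r j) / rr r j)| ≤
      ∑ j ∈ Finset.range n, (4 ^ n / r) ^ 2 * |x - y| := by
    refine (Finset.abs_sum_le_sum_abs _ _).trans (Finset.sum_le_sum fun j hj => ?_)
    rw [Finset.mem_range] at hj
    have h2 := rr_ge hr hj
    have hrj := rr_pos hr j
    rw [← sub_div, abs_div, abs_of_pos hrj]
    have h3 := om_lip (x / rr r j) (y / rr r j)
    rw [← sub_div, abs_div, abs_of_pos hrj] at h3
    have h5 : (4 : ℝ) ^ n / r = 1 / (r / 4 ^ n) := by field_simp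
    rw [h5]
    calc |om (x / rr r j) - om (y / rr r j)| / rr r j ≤ (|x - y| / rr r j) / rr r j := by gcongr
      _ = (1 / rr r j) ^ 2 * |x - y| := by field_simp
      _ ≤ (1 / (r / 4 ^ n)) ^ 2 * |x - y| := by gcongr
  rw [Finset.sum_const, Finset.card_range, nsmul_eq_mul] at h1
  calc 1 / (n : ℝ) * |∑ j ∈ Finset.range n, (om (x / rr r j) / rr r j - om (y / rr r j) / rr r j)| ≤
      1 / n * (n * ((4 ^ n / r) ^ 2 * |x - y|)) := by gcongr
    _ = _ := by field_simp

/-- the kernel as an entire function -/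
noncomputable def KK (n : ℕ) (r : ℝ) (z : ℂ) : ℂ := 1 / n * ∑ j ∈ Finset.range n, kap (rr r j * z)

lemma om_out {x : ℝ} (h : x ∉ Ioc (-3 : ℝ) 3) : om x = 0 := by
  refine om_zero_of_ge ?_
  rw [mem_Ioc, not_and_or, not_lt, not_le] at h
  rcases h with h | h
  · exact (by linarith : 3 ≤ -x).trans (neg_le_abs x)
  · exact h.le.trans (le_abs_self x)

lemma kap_full (z : ℂ) : kap z = ∫ u : ℝ, (om u : ℂ) * cexp (I * u * z) := by
  unfold kap
  rw [intervalIntegral.integral_of_le (by norm_num)]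
  refine setIntegral_eq_integral_of_forall_compl_eq_zero fun x hx => ?_
  rw [om_out hx]; simp

lemma om_scale_int {c : ℝ} (hc : 0 < c) (z : ℂ) :
    Integrable (fun α : ℝ => ((om (α / c) / c : ℝ) : ℂ) * cexp (I * α * z)) := by
  refine Continuous.integrable_of_hasCompactSupport ?_ ?_
  · have := om_cont
    fun_prop
  · refine HasCompactSupport.intro (isCompact_Icc (a := -(3 * c)) (b := 3 * c)) fun x hx => ?_
    have : om (x / c) = 0 := by
      refine om_out fun h => hx ?_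
      rw [mem_Ioc, lt_div_iff₀ hc, div_le_iff₀ hc] at h
      exact ⟨by linarith [h.1], h.2⟩
    rw [this]; simp

lemma om_scale {c : ℝ} (hc : 0 < c) (z : ℂ) :
    ∫ α : ℝ, ((om (α / c) / c : ℝ) : ℂ) * cexp (I * α * z) = kap (c * z) := by
  rw [kap_full]
  have h := Measure.integral_comp_div (fun u : ℝ => (om u : ℂ) * cexp (I * u * (c * z))) c
  rw [abs_of_pos hc] at h
  have hc0 : (c : ℂ) ≠ 0 := by exact_mod_cast hc.ne'
  have h2 : ∫ α : ℝ, ((om (α / c) / c : ℝ) : ℂ) * cexp (I * α * z) =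
      (1 / c : ℂ) * ∫ α : ℝ, (om (α / c) : ℂ) * cexp (I * ((α / c : ℝ) : ℂ) * (c * z)) := by
    rw [← integral_const_mul]
    refine integral_congr_ae (Filter.Eventually.of_forall fun α => ?_)
    have e1 : I * ((α / c : ℝ) : ℂ) * (c * z) = I * α * z := by push_cast; field_simp
    simp only [e1]
    push_cast
    ring
  rw [h2, h, Complex.real_smul, one_div, inv_mul_cancel_left₀ hc0]

lemma FT_ph {n : ℕ} {r : ℝ} (hr : 0 < r) (z : ℂ) : FT (ph n r) z = KK n r z := by
  unfold FT KK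
  have h1 : ∀ α : ℝ, (ph n r α : ℂ) * cexp (I * α * z) =
      1 / n * ∑ j ∈ Finset.range n, ((om (α / rr r j) / rr r j : ℝ) : ℂ) * cexp (I * α * z) := by
    intro α
    unfold ph
    rw [← Finset.sum_mul]
    push_cast
    ring
  simp_rw [h1]
  rw [integral_const_mul, integral_finsetSum]
  swap
  · intro j _
    exact om_scale_int (rr_pos hr j) z
  congr 1
  refine Finset.sum_congr rfl fun j _ => ?_
  exact om_scale (rr_pos hr j) z

lemma ph_full_int {n : ℕ} (hn : 1 ≤ n) {r : ℝ} (hr : 0 < r) : ∫ α : ℝ, ph n r α = 1 := by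
  have h := FT_ph (n := n) hr 0
  unfold FT KK at h
  simp only [mul_zero, Complex.exp_zero, mul_one, kap_zero, Finset.sum_const, Finset.card_range,
    nsmul_eq_mul] at h
  have hn0 : (n : ℂ) ≠ 0 := by exact_mod_cast (by omega : n ≠ 0)
  rw [one_div, inv_mul_cancel₀ hn0] at h
  have h2 : ((∫ α : ℝ, ph n r α : ℝ) : ℂ) = 1 := by rw [← h]; exact integral_ofReal.symm
  exact_mod_cast h2

lemma ph_sq_lip {n : ℕ} {r : ℝ} (hr : 0 < r) (x y : ℝ) :
    |ph n r x ^ 2 - ph n r y ^ 2| ≤ 2 * (4 ^ n / r) * (4 ^ n / r) ^ 2 * |x - y| := by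
  have e : ph n r x ^ 2 - ph n r y ^ 2 = (ph n r x + ph n r y) * (ph n r x - ph n r y) := by ring
  rw [e, abs_mul]
  have h1 := abs_add_le (ph n r x) (ph n r y)
  have h2 := ph_bdd (n := n) hr x
  have h3 := ph_bdd (n := n) hr y
  have h4 := ph_lip (n := n) hr x y
  calc |ph n r x + ph n r y| * |ph n r x - ph n r y| ≤
      (2 * (4 ^ n / r)) * ((4 ^ n / r) ^ 2 * |x - y|) := by
        gcongr
        linarith
    _ = _ := by ring

/-- the variance -/
lemma ph_var {n : ℕ} (hn : 1 ≤ n) {r : ℝ} (hr : 0 < r) {μ : ℝ} (hμ : 0 ≤ μ) :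
    ∫ α in (-μ)..μ, |α| * ph n r α ^ 2 ≤ 3 / 2 * (1 / n) := by
  have hint : Integrable (ph n r) := phi_int (ph_cont n r) (b := 3 * r) fun x hx => ph_zero hr hx
  have h1 : ∫ α in (-μ)..μ, |α| * ph n r α ^ 2 ≤ ∫ α in (-μ)..μ, 3 / 2 * (1 / n) * ph n r α := by
    refine intervalIntegral.integral_mono_on (by linarith) ?_ ?_ fun α _ => ?_
    · have := ph_cont n r
      exact Continuous.intervalIntegrable (by fun_prop) _ _
    · have := ph_cont n r
      exact Continuous.intervalIntegrable (by fun_prop) _ _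
    · rw [sq, ← mul_assoc]
      exact mul_le_mul_of_nonneg_right (abs_mul_ph hn hr α) (ph_nonneg hr α)
  refine h1.trans ?_
  rw [intervalIntegral.integral_const_mul]
  have h2 : ∫ α in (-μ)..μ, ph n r α ≤ 1 := by
    rw [intervalIntegral.integral_of_le (by linarith), ← ph_full_int hn hr]
    exact setIntegral_le_integral hint (Filter.Eventually.of_forall fun α => ph_nonneg hr α)
  have : (0 : ℝ) ≤ 3 / 2 * (1 / n) := by positivity
  calc 3 / 2 * (1 / (n : ℝ)) * ∫ α in (-μ)..μ, ph n r α ≤ 3 / 2 * (1 / n) * 1 := by gcongr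
    _ = _ := by ring

end Pool.Agent.H444
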