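import Pool.Agent.H444.Main

/-! Number rigidity of the zeros of zeta at the scale of the mean spacing. -/

open Complex Filter Topology Set MeasureTheory
open scoped BigOperators ComplexConjugate

namespace Pool.Agent.H444

open H370

/-- the nontrivial zeros -/
def zeros : Set ℂ := {ρ | riemannZeta ρ = 0 ∧ 0 < ρ.re ∧ ρ.re < 1}

/-- the multiplicity -/
noncomputable def mul0 (ρ : ℂ) : ℕ := analyticOrderNatAt riemannZeta ρ

/-- the position -/
noncomputable def pos (T t : ℝ) (ρ : ℂ) : ℝ := (ρ.im - t) * Real.log T / (2 * Real.pi)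

/-- the zeros near `t` -/
def near (T t x : ℝ) : Set ℂ := {ρ | ρ ∈ zeros ∧ |pos T t ρ| ≤ x}

/-- the number of zeros -/
noncomputable def num (S : Set ℂ) : ℝ := ∑ᶠ ρ ∈ S, (mul0 ρ : ℝ)

/-- rigidity at `t` -/
def RigidAt (ℓ ε M : ℝ) (h : ℝ → ℝ) (T t : ℝ) : Prop :=
  ∀ S ⊆ near T t ℓ, |num S + ∑ᶠ ρ ∈ near T t M \ S, (mul0 ρ : ℝ) * h (pos T t ρ)| ≤ ε

lemma finsum_sub (f : ℂ → ℝ) (A : Finset ℂ) (S : Set ℂ) (hS : S ⊆ ↑A) :
    ∑ᶠ ρ ∈ S, f ρ = ∑ ρ ∈ A, (S.indicator f) ρ := by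
  classical
  have h1 : S = ↑(A.filter (· ∈ S)) := by
    ext x
    simp only [Finset.coe_filter, Set.mem_ofPred_eq]
    exact ⟨fun hx => ⟨by exact_mod_cast hS hx, hx⟩, fun hx => hx.2⟩
  conv_lhs => rw [h1]
  rw [finsum_mem_coe_finset, Finset.sum_filter]
  refine Finset.sum_congr rfl fun x _ => ?_
  by_cases h : x ∈ S
  · rw [if_pos h, indicator_of_mem h]
  · rw [if_neg h, indicator_of_notMem h]

lemma rigid_of {n : ℕ} {r M ℓ ε T t0 H t : ℝ} (hn : 1 ≤ n) (hr : 0 < r) (hℓM : ℓ ≤ M)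
    (hℓ : 1 ≤ ℓ) (ht0 : 1 ≤ t0) (hL : 1 ≤ Real.log T) (hLM : 2 * Real.pi * M < Real.log T)
    (h1 : t0 + 1 ≤ t) (h2 : t ≤ t0 + H - 1)
    (hV : |VV riemannZeta n r t0 (t0 + H) (Real.log T) (2 * Real.pi * M / Real.log T) t| ≤
            3 * ε / 8)
    (hC : 3 * r * (1 + 2 * Real.pi * ℓ) *
            CC riemannZeta t0 (t0 + H) (2 * Real.pi * ℓ / Real.log T) t ≤ ε / 4) (hε : 0 < ε) :
    RigidAt ℓ ε M (fun x => Kt n r (2 * Real.pi * x)) T t := by
  classical
  intro S hS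
  set L := Real.log T with hLdef
  have hL0 : 0 < L := by linarith
  have hpi := Real.pi_pos
  set A := Zf riemannZeta t0 (t0 + H) with hA
  have hpos : ∀ ρ : ℂ, ∀ x : ℝ, |pos T t ρ| ≤ x ↔ |ρ.im - t| ≤ 2 * Real.pi * x / L := by
    intro ρ x
    unfold pos
    rw [abs_div, abs_mul, abs_of_pos hL0, abs_of_pos (by positivity : 0 < 2 * Real.pi),
      div_le_iff₀ (by positivity), le_div_iff₀ hL0]
    constructor <;> intro h <;> linarith
  have hsubM : near T t M ⊆ ↑A := by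
    intro ρ hρ
    obtain ⟨⟨z1, z2, z3⟩, z4⟩ := hρ
    rw [hpos] at z4
    have hR1 : 2 * Real.pi * M / L < 1 := by rw [div_lt_one hL0]; exact hLM
    have z5 := abs_le.mp z4
    rw [Finset.mem_coe, hA, mem_Zf good_zeta ht0]
    exact ⟨z2, z3, by linarith [z5.1], by linarith [z5.2], z1⟩
  have hℓM' : near T t ℓ ⊆ near T t M := fun ρ hρ => ⟨hρ.1, hρ.2.trans hℓM⟩
  have hSA : S ⊆ ↑A := (hS.trans hℓM').trans hsubM
  have e1 : num S = ∑ ρ ∈ A, S.indicator (fun ρ => (mul0 ρ : ℝ)) ρ := finsum_sub _ A S hSA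
  have e2 : ∑ᶠ ρ ∈ near T t M \ S, (mul0 ρ : ℝ) * (fun x => Kt n r (2 * Real.pi * x)) (pos T t ρ) =
      ∑ ρ ∈ A, (near T t M \ S).indicator (fun ρ => (mul0 ρ : ℝ) *
        Kt n r (2 * Real.pi * pos T t ρ)) ρ :=
    finsum_sub _ A _ (sdiff_subset.trans hsubM)
  have e3 : VV riemannZeta n r t0 (t0 + H) L (2 * Real.pi * M / L) t =
      ∑ ρ ∈ A, (near T t M).indicator (fun ρ => (mul0 ρ : ℝ) *
        Kt n r (2 * Real.pi * pos T t ρ)) ρ := by
    unfold VV
    refine Finset.sum_congr rfl fun ρ hρ => ?_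
    rw [hA, mem_Zf good_zeta ht0] at hρ
    have hz : ρ ∈ zeros := ⟨hρ.2.2.2.2, hρ.1, hρ.2.1⟩
    have e4 : 2 * Real.pi * pos T t ρ = L * (ρ.im - t) := by
      unfold pos; field_simp; rfl
    by_cases h : |ρ.im - t| ≤ 2 * Real.pi * M / L
    · have hm : ρ ∈ near T t M := ⟨hz, (hpos ρ M).mpr h⟩
      rw [if_pos h, indicator_of_mem hm, e4]
      rfl
    · have hm : ρ ∉ near T t M := fun hm => h ((hpos ρ M).mp hm.2)
      rw [if_neg h, indicator_of_notMem hm, mul_zero]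
  rw [e1, e2, ← Finset.sum_add_distrib]
  have e5 : ∑ ρ ∈ A, (S.indicator (fun ρ => (mul0 ρ : ℝ)) ρ +
      (near T t M \ S).indicator (fun ρ => (mul0 ρ : ℝ) * Kt n r (2 * Real.pi * pos T t ρ)) ρ) =
      VV riemannZeta n r t0 (t0 + H) L (2 * Real.pi * M / L) t +
      ∑ ρ ∈ A, S.indicator (fun ρ => (mul0 ρ : ℝ) * (1 - Kt n r (2 * Real.pi * pos T t ρ))) ρ := by
    rw [e3, ← Finset.sum_add_distrib]
    refine Finset.sum_congr rfl fun ρ _ => ?_
    by_cases h : ρ ∈ S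
    · have hm : ρ ∈ near T t M := hℓM' (hS h)
      rw [indicator_of_mem h, indicator_of_notMem (fun h' => h'.2 h), indicator_of_mem hm,
        indicator_of_mem h]
      ring
    · rw [indicator_of_notMem h, indicator_of_notMem h]
      by_cases hm : ρ ∈ near T t M
      · have hmd : ρ ∈ near T t M \ S := ⟨hm, h⟩
        rw [indicator_of_mem hmd, indicator_of_mem hm]
        ring
      · rw [indicator_of_notMem (fun h' => hm h'.1), indicator_of_notMem hm]
  rw [e5]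
  have e6 : ∀ ρ ∈ A, 0 ≤ S.indicator (fun ρ => (mul0 ρ : ℝ) *
      (1 - Kt n r (2 * Real.pi * pos T t ρ))) ρ := by
    intro ρ _
    refine Set.indicator_nonneg (fun x _ => mul_nonneg (Nat.cast_nonneg _) ?_) ρ
    have := (abs_le.mp (Kt_abs hn r (2 * Real.pi * pos T t x))).2
    linarith
  have e7 : ∑ ρ ∈ A, S.indicator (fun ρ => (mul0 ρ : ℝ) *
      (1 - Kt n r (2 * Real.pi * pos T t ρ))) ρ ≤ ε / 4 := by
    refine le_trans ?_ hC
    unfold CC
    rw [Finset.mul_sum]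
    refine Finset.sum_le_sum fun ρ _ => ?_
    by_cases h : ρ ∈ S
    · have hm := hS h
      have hp := (hpos ρ ℓ).mp hm.2
      have hI : t ∈ Icc (ρ.im - 2 * Real.pi * ℓ / L) (ρ.im + 2 * Real.pi * ℓ / L) := by
        have := abs_le.mp hp
        exact ⟨by linarith [this.1, this.2], by linarith [this.1, this.2]⟩
      rw [indicator_of_mem h, indicator_of_mem hI, mul_one]
      have h3 := Kt_near hn hr (2 * Real.pi * pos T t ρ)
      have h4 : |2 * Real.pi * pos T t ρ| ≤ 2 * Real.pi * ℓ := by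
        rw [abs_mul, abs_of_pos (by positivity : 0 < 2 * Real.pi)]
        gcongr
        exact hm.2
      have h5 : 1 - Kt n r (2 * Real.pi * pos T t ρ) ≤ 3 * r * (1 + 2 * Real.pi * ℓ) := by
        refine h3.trans ?_
        gcongr
      have h6 := mul_le_mul_of_nonneg_left h5 (Nat.cast_nonneg (mul0 ρ) : (0 : ℝ) ≤ mul0 ρ)
      refine h6.trans (le_of_eq ?_)
      rw [mul_comm]
      rfl
    · rw [indicator_of_notMem h]
      have : 0 ≤ (Icc (ρ.im - 2 * Real.pi * ℓ / L) (ρ.im + 2 * Real.pi * ℓ / L)).indicator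
        (fun _ => (1 : ℝ)) t := Set.indicator_nonneg (fun _ _ => zero_le_one) _
      positivity
  have e8 := Finset.sum_nonneg e6
  rw [abs_le] at hV ⊢
  constructor <;> linarith [hV.1, hV.2]

/-- **Number rigidity of the zeros of zeta.** -/
theorem rigidity (ℓ ε : ℝ) (hε : 0 < ε) : ∃ (M : ℝ) (h : ℝ → ℝ), ℓ ≤ M ∧ (∀ x, h (-x) = h x) ∧
    (∀ x, |h x| ≤ 1) ∧ (∀ x y, |h x - h y| ≤ ε * |x - y|) ∧ (∀ x, |x| ≤ ℓ → 1 - ε ≤ h x) ∧
    ∃ T₀ : ℝ, ∀ T : ℝ, T₀ ≤ T → ∀ H : ℝ, T / Real.log T ≤ H → H ≤ T / 2 →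
      ∀ t₀ : ℝ, T ≤ t₀ → t₀ ≤ 2 * T →
        volume {t : ℝ | t₀ ≤ t ∧ t ≤ t₀ + H ∧ ¬ RigidAt ℓ ε M h T t} ≤ ENNReal.ofReal (ε * H) ∧
        num {ρ : ℂ | ρ ∈ zeros ∧ t₀ < ρ.im ∧ ρ.im ≤ t₀ + H ∧ ¬ RigidAt ℓ ε M h T ρ.im} ≤
          ε * num {ρ : ℂ | ρ ∈ zeros ∧ t₀ < ρ.im ∧ ρ.im ≤ t₀ + H} := by
  classical
  set ℓ1 : ℝ := max ℓ 1 with hℓ1
  have hℓℓ : ℓ ≤ ℓ1 := le_max_left _ _
  have hℓ11 : 1 ≤ ℓ1 := le_max_right _ _
  have hpi := Real.pi_pos
  obtain ⟨n, r, M, hn, hr, hM, hr2, hr3, T0, hT0, hmain⟩ := main_exc hℓ11 hε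
  set h : ℝ → ℝ := fun x => Kt n r (2 * Real.pi * x) with hh
  refine ⟨M, h, hℓℓ.trans hM, ?_, ?_, ?_, ?_, T0, fun T hT H hH1 hH2 t0 ht1 ht2 => ?_⟩
  · intro x
    simp only [hh]
    rw [mul_neg, Kt_even]
  · intro x
    exact Kt_abs hn r _
  · intro x y
    simp only [hh]
    refine (Kt_lip hn hr _ _).trans ?_
    rw [← mul_sub, abs_mul, abs_of_pos (by positivity : 0 < 2 * Real.pi)]
    calc 3 * r * (2 * Real.pi * |x - y|) = 6 * Real.pi * r * |x - y| := by ring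
      _ ≤ ε * |x - y| := by gcongr
  · intro x hx
    simp only [hh]
    have h1 := Kt_near hn hr (2 * Real.pi * x)
    rw [abs_mul, abs_of_pos (by positivity : 0 < 2 * Real.pi)] at h1
    have h2 : 3 * r * (1 + 2 * Real.pi * |x|) ≤ 3 * r * (1 + 2 * Real.pi * ℓ1) := by
      gcongr
      exact hx.trans hℓℓ
    linarith
  · obtain ⟨hL1, hLM, hNN, E, hE, hEv, hEC, hgood⟩ := hmain T hT H hH1 hH2 t0 ht1 ht2
    have hT100 : 100 ≤ T := hT0.trans hT
    have hU : 1 ≤ t0 := by linarith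
    have hL0 : 0 < Real.log T := by linarith
    have hHpos : 0 < H := lt_of_lt_of_le (by positivity) hH1
    have hrig : ∀ t : ℝ, t0 ≤ t → t ≤ t0 + H → (∃ t', t' ∉ E ∧ |t' - t| ≤ 1 / Real.log T) →
        RigidAt ℓ ε M h T t := by
      intro t htl htr hex
      obtain ⟨q1, q2, q3, q4⟩ := hgood t htl htr hex
      have := rigid_of hn hr hM hℓ11 hU hL1 hLM q1 q2 q3 q4 hε
      intro S hS
      exact this S (hS.trans fun ρ hρ => ⟨hρ.1, hρ.2.trans hℓℓ⟩)
    constructor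
    · refine (measure_mono fun t ht => ?_).trans hEv
      obtain ⟨a1, a2, a3⟩ := ht
      by_contra hcon
      exact a3 (hrig t a1 a2 ⟨t, hcon, by rw [sub_self, abs_zero]; positivity⟩)
    · set A := Zf riemannZeta t0 (t0 + H) with hA
      set Bd : Set ℂ := {ρ : ℂ | ρ ∈ zeros ∧ t0 < ρ.im ∧ ρ.im ≤ t0 + H ∧
        ¬ RigidAt ℓ ε M h T ρ.im} with hBd
      set Al : Set ℂ := {ρ : ℂ | ρ ∈ zeros ∧ t0 < ρ.im ∧ ρ.im ≤ t0 + H} with hAl
      have hAlA : Al ⊆ ↑A := by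
        rintro ρ ⟨⟨z1, z2, z3⟩, z4, z5⟩
        rw [Finset.mem_coe, hA, mem_Zf good_zeta hU]
        exact ⟨z2, z3, z4, z5, z1⟩
      have hBdA : Bd ⊆ ↑A := by
        rintro ρ ⟨z1, z4, z5, _⟩
        exact hAlA ⟨z1, z4, z5⟩
      have e1 : num Al = NN riemannZeta t0 (t0 + H) := by
        have : num Al = ∑ ρ ∈ A, Al.indicator (fun ρ => (mul0 ρ : ℝ)) ρ := finsum_sub _ A Al hAlA
        rw [this, NN_eq good_zeta hU]
        push_cast
        refine Finset.sum_congr rfl fun ρ hρ => ?_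
        rw [mem_Zf good_zeta hU] at hρ
        have hmA : ρ ∈ Al := ⟨⟨hρ.2.2.2.2, hρ.1, hρ.2.1⟩, hρ.2.2.1, hρ.2.2.2.1⟩
        rw [indicator_of_mem hmA]
        rfl
      have e2 : num Bd = ∑ ρ ∈ A, Bd.indicator (fun ρ => (mul0 ρ : ℝ)) ρ := finsum_sub _ A Bd hBdA
      have hI : ∀ ρ : ℂ, IntegrableOn ((Icc (ρ.im - 1 / Real.log T) (ρ.im + 1 / Real.log T)).indicator
          (fun _ => (1 : ℝ))) E := fun ρ =>
        ((integrable_indicator_iff measurableSet_Icc).mpr (integrableOn_const (by simp))).integrableOn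
      have e3 : 2 / Real.log T * num Bd ≤
          ∫ t in E, CC riemannZeta t0 (t0 + H) (1 / Real.log T) t := by
        unfold CC
        rw [integral_finsetSum _ fun s _ => (hI s).const_mul _, e2, Finset.mul_sum]
        refine Finset.sum_le_sum fun ρ _ => ?_
        rw [integral_const_mul]
        have hnn : 0 ≤ ∫ t in E, (Icc (ρ.im - 1 / Real.log T) (ρ.im + 1 / Real.log T)).indicator
            (fun _ => (1 : ℝ)) t :=
          integral_nonneg fun t => Set.indicator_nonneg (fun _ _ => zero_le_one) _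
        by_cases hb : ρ ∈ Bd
        · rw [indicator_of_mem hb]
          obtain ⟨b1, b2, b3, b4⟩ := hb
          have hsub : Icc (ρ.im - 1 / Real.log T) (ρ.im + 1 / Real.log T) ⊆ E := by
            intro t' ht'
            by_contra hcon
            refine b4 (hrig ρ.im b2.le b3 ⟨t', hcon, ?_⟩)
            rw [abs_le]
            exact ⟨by linarith [ht'.1], by linarith [ht'.2]⟩
          have e4 : ∫ t in E, (Icc (ρ.im - 1 / Real.log T) (ρ.im + 1 / Real.log T)).indicator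
            (fun _ => (1 : ℝ)) t = 2 / Real.log T := by
            rw [integral_indicator measurableSet_Icc, Measure.restrict_restrict measurableSet_Icc,
              inter_eq_left.mpr hsub]
            simp
            have : 0 < (Real.log T)⁻¹ := by positivity
            rw [max_eq_left (by linarith)]
            ring
          rw [e4, mul_comm]
          rfl
        · rw [indicator_of_notMem hb, mul_zero]
          exact mul_nonneg (Nat.cast_nonneg _) hnn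
      have e5 : 2 / Real.log T * num Bd ≤ ε / 8 * H := e3.trans hEC
      rw [div_mul_eq_mul_div, div_le_iff₀ hL0] at e5
      rw [e1]
      have e6 : H * Real.log T / 16 ≤ H * Real.log T / (4 * Real.pi) := by
        apply div_le_div_of_nonneg_left (by positivity) (by positivity)
        linarith [Real.pi_lt_four]
      have e7 : ε * (H * Real.log T / 16) ≤ ε * NN riemannZeta t0 (t0 + H) := by
        gcongr
        exact e6.trans hNN
      linarith

end Pool.Agent.H444
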