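import Pool.Agent.H444.Avg

/-! Uniform integrability of the number of zeros in an interval of the length of the mean spacing. -/

open Complex Filter Topology Set MeasureTheory
open scoped BigOperators ComplexConjugate

namespace Pool.Agent.H444

open H370

/-- the Fejer kernel -/
noncomputable def SSr (v : ℝ) : ℝ := if v = 0 then 1 else (2 - 2 * Real.cos v) / v ^ 2

lemma SS_real (v : ℝ) : SS v = (SSr v : ℂ) := by
  unfold SSr
  split_ifs with h
  · rw [h, Complex.ofReal_zero, SS_zero]; simp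
  · have hv : (v : ℂ) ≠ 0 := by exact_mod_cast h
    rw [SS_eq hv]
    have e1 : cexp (I * v) + cexp (-(I * v)) = 2 * Complex.cos v := by
      rw [Complex.two_cos]
      congr 2
      · ring
      · ring
    rw [e1, mul_pow, I_sq]
    push_cast
    field_simp
    ring

lemma SSr_nonneg (v : ℝ) : 0 ≤ SSr v := by
  unfold SSr
  split_ifs
  · exact zero_le_one
  · have := Real.cos_le_one v
    have : 0 ≤ 2 - 2 * Real.cos v := by linarith
    positivity

lemma SSr_ge {v : ℝ} (hv : |v| ≤ 1) : 1 / 2 ≤ SSr v := by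
  unfold SSr
  split_ifs with h
  · norm_num
  · have h1 := Real.cos_bound hv
    rw [abs_le] at h1
    have h2 : 0 < v ^ 2 := by positivity
    rw [le_div_iff₀ h2]
    have h3 : |v| ^ 4 = v ^ 4 := by rw [← abs_pow]; exact abs_of_nonneg (by positivity)
    rw [h3] at h1
    have h4 : v ^ 4 ≤ v ^ 2 := by
      have : v ^ 2 ≤ 1 := by rw [← sq_abs]; nlinarith [abs_nonneg v]
      nlinarith
    nlinarith [h1.2]

/-- the test function of the Fejer kernel -/
noncomputable def tb (b α : ℝ) : ℝ := tent (α / b) / b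

lemma FT_tb {b : ℝ} (hb : 0 < b) (z : ℂ) : FT (tb b) z = SS (b * z) := by
  have hSS : SS (b * z) = ∫ u : ℝ, (tent u : ℂ) * cexp (I * u * (b * z)) := by
    unfold SS
    rw [intervalIntegral.integral_of_le (by norm_num)]
    refine setIntegral_eq_integral_of_forall_compl_eq_zero fun x hx => ?_
    have : tent x = 0 := by
      refine tent_zero ?_
      by_contra hcon
      push Not at hcon
      rw [abs_lt] at hcon
      exact hx ⟨hcon.1, hcon.2.le⟩
    rw [this]; simp
  rw [hSS]
  have h := Measure.integral_comp_div (fun u : ℝ => (tent u : ℂ) * cexp (I * u * (b * z))) b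
  rw [abs_of_pos hb] at h
  have hb0 : (b : ℂ) ≠ 0 := by exact_mod_cast hb.ne'
  have h2 : FT (tb b) z = (1 / b : ℂ) *
      ∫ α : ℝ, (tent (α / b) : ℂ) * cexp (I * ((α / b : ℝ) : ℂ) * (b * z)) := by
    unfold FT tb
    rw [← integral_const_mul]
    refine integral_congr_ae (Filter.Eventually.of_forall fun α => ?_)
    have e1 : I * ((α / b : ℝ) : ℂ) * (b * z) = I * α * z := by push_cast; field_simp
    simp only [e1]
    push_cast
    ring
  rw [h2, h, Complex.real_smul, one_div, inv_mul_cancel_left₀ hb0]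

section zeros

variable {F : ℂ → ℂ} (hF : GoodL F) {U1 U2 : ℝ} (hU : 1 ≤ U1)
variable {b L : ℝ} (hb : 0 < b) (hb1 : b ≤ 1) (hL : 1 ≤ L) (hbL : 2 ≤ b * L)

/-- the error term -/
noncomputable def D2 (F : ℂ → ℂ) (b U1 U2 L t : ℝ) : ℝ :=
  ∑ s ∈ Zf F U1 U2, (mult F s : ℝ) * (2016 * (1 / 2 - s.re) ^ 2 * (b * L) ^ 2 *
    Real.exp (3 * (b * L) * |1 / 2 - s.re|) * (1 / (1 + ((b * L) * (s.im - t)) ^ 2)))

include hF hU hb hb1 hL hbL in
lemma CC_le_WW (t : ℝ) :
    CC F U1 U2 (1 / L) t ≤ 4 * (‖WW F (tb b) U1 U2 L t‖ + D2 F b U1 U2 L t) := by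
  have hL0 : 0 < L := by linarith
  have e0 : WW F (tb b) U1 U2 L t = ∑ s ∈ Zf F U1 U2, (mult F s : ℂ) *
      kg SS (b * L) (zz s - t) := by
    unfold WW kg
    refine Finset.sum_congr rfl fun s _ => ?_
    rw [FT_tb hb]
    congr 3
    push_cast
    ring
  rw [sum_sym hF hU] at e0
  -- the real sum
  set V : ℝ := ∑ s ∈ Zf F U1 U2, (mult F s : ℝ) * (SSr ((b * L) * (s.im - t)) *
    Real.exp (-(s.im - t) ^ 2 / 2)) with hV
  have hkr : ∀ x : ℝ, kg SS (b * L) x = ((SSr ((b * L) * x) * Real.exp (-x ^ 2 / 2) : ℝ) : ℂ) := by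
    intro x
    unfold kg
    rw [← Complex.ofReal_mul, SS_real]
    push_cast
    rfl
  have h1 : ‖WW F (tb b) U1 U2 L t - (V : ℂ)‖ ≤ D2 F b U1 U2 L t := by
    rw [e0, hV]
    unfold D2
    push_cast
    rw [← Finset.sum_sub_distrib]
    refine (norm_sum_le _ _).trans (Finset.sum_le_sum fun s hs => ?_)
    rw [mem_Zf hF hU] at hs
    rw [← mul_sub, norm_mul]
    have e1 : ‖((mult F s : ℕ) : ℂ)‖ = mult F s := by simp
    rw [e1]
    refine mul_le_mul_of_nonneg_left ?_ (Nat.cast_nonneg _)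
    have hy : |1 / 2 - s.re| ≤ 1 / 2 := by
      rw [abs_le]; constructor <;> linarith [hs.1, hs.2.1]
    have h2 := kg_second gk_SS hbL (s.im - t) hy
    have h3 := hkr (s.im - t)
    push_cast at h2 h3
    rw [← h3]
    have e2 : 1 / 2 * (kg SS (b * L) (s.im - t + I * (1 / 2 - s.re)) +
        kg SS (b * L) (s.im - t - I * (1 / 2 - s.re))) - kg SS (b * L) (s.im - t) =
        1 / 2 * (kg SS (b * L) (s.im - t + I * (1 / 2 - s.re)) +
        kg SS (b * L) (s.im - t - I * (1 / 2 - s.re)) - 2 * kg SS (b * L) (s.im - t)) := by ring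
    rw [e2, norm_mul]
    have e3 : ‖(1 / 2 : ℂ)‖ = 1 / 2 := by norm_num
    rw [e3]
    linarith
  have h2 : V ≤ ‖WW F (tb b) U1 U2 L t‖ + D2 F b U1 U2 L t := by
    have h3 := norm_sub_norm_le ((V : ℝ) : ℂ) (WW F (tb b) U1 U2 L t)
    rw [norm_sub_rev, Complex.norm_real] at h3
    have h4 := Real.le_norm_self V
    linarith
  have h3 : CC F U1 U2 (1 / L) t ≤ 4 * V := by
    unfold CC
    rw [hV, Finset.mul_sum]
    refine Finset.sum_le_sum fun s _ => ?_
    have hm : (0 : ℝ) ≤ mult F s := Nat.cast_nonneg _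
    have h5 := SSr_nonneg ((b * L) * (s.im - t))
    have h6 := Real.exp_pos (-(s.im - t) ^ 2 / 2)
    by_cases h7 : t ∈ Icc (s.im - 1 / L) (s.im + 1 / L)
    · rw [indicator_of_mem h7, mul_one]
      have h8 : |s.im - t| ≤ 1 / L := by
        rw [abs_le]; constructor <;> linarith [h7.1, h7.2]
      have h9 : |(b * L) * (s.im - t)| ≤ 1 := by
        rw [abs_mul, abs_of_pos (by positivity)]
        calc b * L * |s.im - t| ≤ b * L * (1 / L) := by gcongr
          _ = b := by field_simp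
          _ ≤ 1 := hb1
      have h10 := SSr_ge h9
      have h11 : 1 / 2 ≤ Real.exp (-(s.im - t) ^ 2 / 2) := by
        have := Real.add_one_le_exp (-(s.im - t) ^ 2 / 2)
        have h12 : (s.im - t) ^ 2 ≤ 1 := by
          rw [← sq_abs]
          have : 1 / L ≤ 1 := by rw [div_le_one hL0]; exact hL
          have : |s.im - t| ≤ 1 := by linarith
          nlinarith [abs_nonneg (s.im - t)]
        linarith
      have h13 : 1 / 4 ≤ SSr ((b * L) * (s.im - t)) * Real.exp (-(s.im - t) ^ 2 / 2) := by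
        nlinarith
      nlinarith
    · rw [indicator_of_notMem h7, mul_zero]
      positivity
  linarith

include hF hU hb hL hbL in
lemma D2_int : Integrable (D2 F b U1 U2 L) ∧
    ∫ t : ℝ, D2 F b U1 U2 L t = 2016 * Real.pi * (b / L) *
      (∑ s ∈ Zf F U1 U2, (mult F s : ℝ) * ((L * |s.re - 1 / 2|) ^ 2 *
        Real.exp (3 * b * (L * |s.re - 1 / 2|)))) := by
  have hL0 : 0 < L := by linarith
  have hbL0 : 0 < b * L := by positivity
  have h1 : ∀ s : ℂ, Integrable (fun t : ℝ => 2016 * (1 / 2 - s.re) ^ 2 * (b * L) ^ 2 *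
    Real.exp (3 * (b * L) * |1 / 2 - s.re|) * (1 / (1 + ((b * L) * (s.im - t)) ^ 2))) := by
    intro s
    exact ((int_lor hbL0).1.comp_sub_left s.im).const_mul _
  constructor
  · unfold D2
    exact integrable_finsetSum _ fun s _ => (h1 s).const_mul _
  · unfold D2
    rw [integral_finsetSum _ fun s _ => (h1 s).const_mul _, Finset.mul_sum]
    refine Finset.sum_congr rfl fun s _ => ?_
    rw [integral_const_mul, integral_const_mul,
      integral_sub_left_eq_self (fun x => 1 / (1 + ((b * L) * x) ^ 2)) volume s.im,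
      (int_lor hbL0).2]
    have e1 : |1 / 2 - s.re| = |s.re - 1 / 2| := abs_sub_comm _ _
    have e2 : (1 / 2 - s.re) ^ 2 = |s.re - 1 / 2| ^ 2 := by rw [sq_abs]; ring
    rw [e1, e2]
    have e3 : 3 * (b * L) * |s.re - 1 / 2| = 3 * b * (L * |s.re - 1 / 2|) := by ring
    rw [e3]
    field_simp

end zeros

end Pool.Agent.H444
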