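import Pool.Agent.H444.Phi
import Pool.Graph.R_pool_sql_team_seeded_b3bd081e.H24R3.PsiEvery

/-! The variance of the smooth statistic in every short interval, unconditionally. -/

open Complex Filter Topology Set MeasureTheory
open scoped BigOperators ComplexConjugate

namespace Pool.Agent.H444

open H370 H370.AS H370.A2 H295SI

lemma JJ_nonneg (F : ℂ → ℂ) (U1 U2 u : ℝ) : 0 ≤ JJ F U1 U2 u := by
  unfold JJ
  exact integral_nonneg fun t => by positivity

theorem WW_gen {F : ℂ → ℂ} (hF : GoodL F) {a : ℕ → ℂ}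
    (han : ∀ n, ‖a n‖ = ArithmeticFunction.vonMangoldt n)
    (hld : ∀ s : ℂ, 1 < s.re → 1 ≤ s.im → deriv F s / F s = - ∑' n : ℕ, a n * (n : ℂ) ^ (-s))
    {φ : ℝ → ℝ} (hphc : Continuous φ) {B K b : ℝ} (hB : ∀ x, |φ x| ≤ B)
    (hK : ∀ x y, |φ x - φ y| ≤ K * |x - y|) (hK0 : 0 ≤ K) (hs6 : ∀ x, b ≤ |x| → φ x = 0)
    {η0 ε : ℝ} (hb : 0 < b) (hrη : 2 * b < η0) (hη1 : η0 < 1) (hε : 0 < ε) :
    ∃ T0 : ℝ, 10 ≤ T0 ∧ ∀ T : ℝ, T0 ≤ T → ∀ H : ℝ, T ^ η0 ≤ H → H ≤ T / 2 →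
      ∀ t0 : ℝ, T ≤ t0 → t0 ≤ 2 * T →
        |(NN F t0 (t0 + H) : ℝ) - H * Real.log T / (2 * Real.pi)| ≤
            ε * (H * Real.log T / (2 * Real.pi)) ∧
        Integrable (fun t : ℝ => ‖WW F φ t0 (t0 + H) (Real.log T) t‖ ^ 2) ∧
        ∫ t : ℝ, ‖WW F φ t0 (t0 + H) (Real.log T) t‖ ^ 2 ≤
          (φ 0 ^ 2 + (∫ α in (-b)..b, |α| * φ α ^ 2) + ε) * H := by
  have hη0 : 0 < η0 := by linarith
  have hB0 : 0 ≤ B := (abs_nonneg _).trans (hB 0)
  -- the wide tent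
  set μ2 : ℝ := 2 * b with hμ2
  have hμ20 : 0 < μ2 := by positivity
  set ψ2 : ℝ → ℝ := fun x => 2 * tent (x / μ2) with hψ2
  have hψ2lip : ∀ x y, |ψ2 x - ψ2 y| ≤ 2 / μ2 * |x - y| := by
    intro x y
    simp only [hψ2]
    rw [← mul_sub, abs_mul, abs_of_pos (by norm_num : (0 : ℝ) < 2)]
    have := tent_lip (x / μ2) (y / μ2)
    rw [← sub_div, abs_div, abs_of_pos hμ20] at this
    calc 2 * |tent (x / μ2) - tent (y / μ2)| ≤ 2 * (|x - y| / μ2) := by gcongr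
      _ = _ := by ring
  have hψ2z : ∀ x, μ2 ≤ |x| → ψ2 x = 0 := by
    intro x hx
    simp only [hψ2]
    rw [tent_zero, mul_zero]
    rw [abs_div, abs_of_pos hμ20, one_le_div hμ20]; exact hx
  have hψ20 : ∀ x, 0 ≤ ψ2 x := fun x => mul_nonneg (by norm_num) (tent_nonneg _)
  have hψ21 : ∀ x, |x| ≤ b → 1 ≤ ψ2 x := by
    intro x hx
    simp only [hψ2]
    unfold tent
    have h1 : |x / μ2| ≤ 1 / 2 := by
      rw [abs_div, abs_of_pos hμ20, div_le_iff₀ hμ20, hμ2]; linarith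
    have := le_max_right 0 (1 - |x / μ2|)
    linarith
  set I2 : ℝ := ψ2 0 + ∫ α in (-μ2)..μ2, |α| * ψ2 α with hI2
  have hψ2c : Continuous ψ2 := by
    simp only [hψ2]
    have := tent_cont
    fun_prop
  have hI20 : 0 ≤ I2 := by
    rw [hI2]
    refine add_nonneg (hψ20 0) ?_
    exact intervalIntegral.integral_nonneg (by linarith) fun x _ => mul_nonneg (abs_nonneg _) (hψ20 x)
  -- the square of the test function
  have hψ1lip : ∀ x y, |φ x ^ 2 - φ y ^ 2| ≤ 2 * B * K * |x - y| := by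
    intro x y
    have e : φ x ^ 2 - φ y ^ 2 = (φ x + φ y) * (φ x - φ y) := by ring
    rw [e, abs_mul]
    have h1 := abs_add_le (φ x) (φ y)
    have h2 := hB x
    have h3 := hB y
    have h4 := hK x y
    calc |φ x + φ y| * |φ x - φ y| ≤ (2 * B) * (K * |x - y|) := by
          refine mul_le_mul (by linarith) h4 (abs_nonneg _) (by positivity)
      _ = _ := by ring
  have hψ1z : ∀ x, b ≤ |x| → φ x ^ 2 = 0 := by
    intro x hx
    rw [hs6 x hx]; norm_num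
  obtain ⟨T1, hT1, h1⟩ := Pool.Agent.H24R3.PairEvery.every_psi hF han hld η0 b (ε / 2) hη1
    hb (by linarith) (by positivity) (fun x => φ x ^ 2) (2 * B * K) hψ1lip hψ1z
  obtain ⟨T2, hT2, h2⟩ := Pool.Agent.H24R3.PairEvery.every_psi hF han hld η0 μ2 1 hη1
    hμ20 hrη one_pos ψ2 (2 / μ2) hψ2lip hψ2z
  -- the error term
  set C3 : ℝ := 12 * B * K * Real.sqrt Real.pi * (I2 + 1) with hC3
  have hC30 : 0 ≤ C3 := by positivity
  obtain ⟨T3, hT3⟩ := (Real.tendsto_log_atTop.eventually_ge_atTop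
    (C3 / (ε / 2) + 1)).exists_forall_of_atTop
  refine ⟨max T1 (max T2 T3), hT1.trans (le_max_left _ _), fun T hT H hH1 hH2 t0 ht1 ht2 => ?_⟩
  have hTT1 : T1 ≤ T := (le_max_left _ _).trans hT
  have hTT2 : T2 ≤ T := ((le_max_left _ _).trans (le_max_right _ _)).trans hT
  have hTT3 : T3 ≤ T := ((le_max_right _ _).trans (le_max_right _ _)).trans hT
  have hT10 : 10 ≤ T := hT1.trans hTT1
  have hTpos : 0 < T := by linarith
  have hLpos : 0 < Real.log T := Real.log_pos (by linarith)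
  have hHpos : 0 < H := lt_of_lt_of_le (Real.rpow_pos_of_pos hTpos _) hH1
  have hL3 := hT3 T hTT3
  set L := Real.log T with hLdef
  have hM0 : 0 < H * L / (2 * Real.pi) := by positivity
  have hU : 1 ≤ t0 := by linarith
  obtain ⟨g1, g2⟩ := h1 T hTT1 H hH1 hH2 t0 ht1 ht2
  obtain ⟨-, g3⟩ := h2 T hTT2 H hH1 hH2 t0 ht1 ht2
  refine ⟨g1.trans ?_, ?_⟩
  · have : ε / 2 ≤ ε := by linarith
    gcongr
  obtain ⟨m1, m2⟩ := WW_meanSq hF (U2 := t0 + H) hU hphc hs6 hLpos.le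
  refine ⟨m1, ?_⟩
  rw [m2]
  have hJc := JJ_cont hF (U2 := t0 + H) hU
  have q := quad_bound hphc hs6 hB hK hK0 hLpos hb.le hJc (fun x => JJ_nonneg F t0 (t0 + H) x)
  refine q.trans ?_
  -- split
  have c1 : Continuous fun s : ℝ => φ s ^ 2 * JN F t0 (t0 + H) (s * L) := by
    unfold JN
    exact (hphc.pow 2).mul ((hJc.comp (by fun_prop)).div_const _)
  have c2 : Continuous fun s : ℝ => JN F t0 (t0 + H) (s * L) := by
    unfold JN
    exact (hJc.comp (by fun_prop)).div_const _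
  have hspi : 0 < Real.sqrt Real.pi := Real.sqrt_pos.mpr Real.pi_pos
  have hsq : Real.sqrt Real.pi * Real.sqrt Real.pi = Real.pi := Real.mul_self_sqrt Real.pi_pos.le
  have e1 : ∫ s in (-b)..b, (φ s ^ 2 * (Real.sqrt Real.pi / L) +
      6 * B * K / L ^ 2) * JJ F t0 (t0 + H) (L * s) =
      Real.pi / L * (∫ s in (-b)..b, φ s ^ 2 * JN F t0 (t0 + H) (s * L)) +
      6 * B * K * Real.sqrt Real.pi / L ^ 2 *
        ∫ s in (-b)..b, JN F t0 (t0 + H) (s * L) := by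
    rw [← intervalIntegral.integral_const_mul, ← intervalIntegral.integral_const_mul,
      ← intervalIntegral.integral_add]
    · refine intervalIntegral.integral_congr fun s _ => ?_
      simp only [JN]
      rw [mul_comm s L]
      field_simp
      linear_combination (JJ F t0 (t0 + H) (L * s) * φ s ^ 2 * L) * hsq
    · exact (c1.const_mul _).intervalIntegrable _ _
    · exact (c2.const_mul _).intervalIntegrable _ _
  rw [e1]
  set v : ℝ := φ 0 ^ 2 + ∫ α in (-b)..b, |α| * φ α ^ 2 with hv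
  have b1 : ∫ s in (-b)..b, φ s ^ 2 * JN F t0 (t0 + H) (s * L) ≤
      (H * L / (2 * Real.pi)) * (v + ε / 2) := by
    rw [abs_le] at g2
    have g2' := g2.2
    linarith
  have b2 : ∫ s in (-b)..b, JN F t0 (t0 + H) (s * L) ≤
      (H * L / (2 * Real.pi)) * (I2 + 1) := by
    have hJN0 : ∀ s : ℝ, 0 ≤ JN F t0 (t0 + H) (s * L) := fun s => by
      unfold JN
      exact div_nonneg (JJ_nonneg _ _ _ _) hspi.le
    have h6 : ∫ s in (-b)..b, JN F t0 (t0 + H) (s * L) ≤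
        ∫ s in (-μ2)..μ2, ψ2 s * JN F t0 (t0 + H) (s * L) := by
      have h7 : ∫ s in (-b)..b, JN F t0 (t0 + H) (s * L) ≤
          ∫ s in (-b)..b, ψ2 s * JN F t0 (t0 + H) (s * L) := by
        refine intervalIntegral.integral_mono_on (by linarith) (c2.intervalIntegrable _ _)
          ((hψ2c.mul c2).intervalIntegrable _ _) fun s hs => ?_
        have h8 : 1 ≤ ψ2 s := hψ21 s (by rw [abs_le]; exact hs)
        have h9 := hJN0 s
        nlinarith
      refine h7.trans ?_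
      refine intervalIntegral.integral_mono_interval (by rw [hμ2]; linarith) (by linarith)
        (by rw [hμ2]; linarith) ?_ ((hψ2c.mul c2).intervalIntegrable _ _)
      exact Filter.Eventually.of_forall fun s => mul_nonneg (hψ20 s) (hJN0 s)
    refine h6.trans ?_
    rw [abs_le] at g3
    have g3' := g3.2
    rw [← hI2] at g3'
    linarith
  have hfin : 2 * (Real.pi / L * (∫ s in (-b)..b, φ s ^ 2 *
        JN F t0 (t0 + H) (s * L)) +
      6 * B * K * Real.sqrt Real.pi / L ^ 2 *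
        ∫ s in (-b)..b, JN F t0 (t0 + H) (s * L)) ≤
      2 * (Real.pi / L * ((H * L / (2 * Real.pi)) * (v + ε / 2)) +
      6 * B * K * Real.sqrt Real.pi / L ^ 2 * ((H * L / (2 * Real.pi)) * (I2 + 1))) := by
    gcongr
  refine hfin.trans ?_
  have e2 : 2 * (Real.pi / L * ((H * L / (2 * Real.pi)) * (v + ε / 2)) +
      6 * B * K * Real.sqrt Real.pi / L ^ 2 * ((H * L / (2 * Real.pi)) * (I2 + 1))) =
      (v + ε / 2) * H + C3 / (2 * Real.pi * L) * H := by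
    rw [hC3]
    field_simp
    ring
  rw [e2]
  have h10 : C3 / (2 * Real.pi * L) ≤ ε / 2 := by
    rw [div_le_iff₀ (by positivity)]
    have h11 : C3 ≤ ε / 2 * L := by
      have h12 : C3 / (ε / 2) ≤ L := by linarith
      rw [div_le_iff₀ (by positivity)] at h12
      linarith
    have h13 : 1 ≤ 2 * Real.pi := by linarith [Real.pi_gt_three]
    have h14 : ε / 2 * L ≤ ε / 2 * (2 * Real.pi * L) := by
      have : L ≤ 2 * Real.pi * L := by nlinarith
      gcongr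
    linarith
  have : C3 / (2 * Real.pi * L) * H ≤ ε / 2 * H := by gcongr
  linarith

theorem WW_small {F : ℂ → ℂ} (hF : GoodL F) {a : ℕ → ℂ}
    (han : ∀ n, ‖a n‖ = ArithmeticFunction.vonMangoldt n)
    (hld : ∀ s : ℂ, 1 < s.re → 1 ≤ s.im → deriv F s / F s = - ∑' n : ℕ, a n * (n : ℂ) ^ (-s))
    {n : ℕ} (hn : 1 ≤ n) {r η0 ε : ℝ} (hr : 0 < r) (hrη : 12 * r < η0) (hη1 : η0 < 1)
    (hε : 0 < ε) :
    ∃ T0 : ℝ, 10 ≤ T0 ∧ ∀ T : ℝ, T0 ≤ T → ∀ H : ℝ, T ^ η0 ≤ H → H ≤ T / 2 →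
      ∀ t0 : ℝ, T ≤ t0 → t0 ≤ 2 * T →
        |(NN F t0 (t0 + H) : ℝ) - H * Real.log T / (2 * Real.pi)| ≤
            ε * (H * Real.log T / (2 * Real.pi)) ∧
        Integrable (fun t : ℝ => ‖WW F (ph n r) t0 (t0 + H) (Real.log T) t‖ ^ 2) ∧
        ∫ t : ℝ, ‖WW F (ph n r) t0 (t0 + H) (Real.log T) t‖ ^ 2 ≤
          (3 / 2 * (1 / n) + ε) * H := by
  obtain ⟨T0, hT0, h⟩ := WW_gen hF han hld (ph_cont n r) (B := 4 ^ n / r) (K := (4 ^ n / r) ^ 2)
    (b := 3 * r) (fun x => ph_bdd hr x) (fun x y => ph_lip hr x y) (by positivity)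
    (fun x hx => ph_zero hr hx) (by positivity) (by linarith) hη1 hε
  refine ⟨T0, hT0, fun T hT H hH1 hH2 t0 ht1 ht2 => ?_⟩
  obtain ⟨h1, h2, h3⟩ := h T hT H hH1 hH2 t0 ht1 ht2
  refine ⟨h1, h2, h3.trans ?_⟩
  have hTpos : 0 < T := by linarith [hT0.trans hT]
  have hHpos : 0 < H := lt_of_lt_of_le (Real.rpow_pos_of_pos hTpos _) hH1
  have hv := ph_var hn hr (μ := 3 * r) (by positivity)
  rw [ph_at_zero]
  have : (0 : ℝ) ^ 2 = 0 := by norm_num
  rw [this, zero_add]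
  gcongr

end Pool.Agent.H444
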